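import Pool.Agent.H73.BR.Cal
import Pool.Agent.H71.Top.Transform

set_option autoImplicit false

/-! # [H73 BR CTA] The Cauchy transform of a test function

`ct_smooth`, `fd_ct`: `Ct f` is (up to the factor) the convolution of the locally integrable function `w⁻¹`
(`Pool.Agent.H71.Top.locallyIntegrable_inv` in the imported `Pool/Agent/H71/Top/Transform.lean`, see `ct_contDiff`, `ct_fderiv` there for a template) with `f`:
`HasCompactSupport.contDiff_convolution_right`, `HasCompactSupport.hasFDerivAt_convolution_right`; so the derivative of `Ct f` in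
the direction `v` is `Ct` of the derivative of `f` in the direction `v`; `dz_ct`, `db_ct` follow by linearity of the
integral. `db_ct_self`: `Ct (db f) z = (1/π) ∫ w⁻¹ * (db f)(z - w)`; with `v w = f (z - w)`, `db v w = -(db f)(z - w)`, this is
`-(1/π) ∫ db v w / w = v 0 = f z` by `Pool.Agent.H71.Top.pompeiu` (`dbar1` there is `db`). -/

namespace H73.BR

open MeasureTheory Complex Filter Topology
open scoped ContDiff


theorem cta_conv (f : ℂ → ℂ) : Ct f = fun z => (1 / (Real.pi : ℂ)) *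
    (convolution (fun w : ℂ => w⁻¹) f (ContinuousLinearMap.mul ℝ ℂ) volume) z := by
  funext z
  rfl

theorem ct_smooth {R : ℝ} {f : ℂ → ℂ} (hf : Tf R f) : ContDiff ℝ ∞ (Ct f) := by
  rw [cta_conv]
  exact contDiff_const.mul (hf.cpt.contDiff_convolution_right _
    Pool.Agent.H71.Top.locallyIntegrable_inv hf.smooth)


theorem cta_int {R : ℝ} {f : ℂ → ℂ} (hf : Cf R f) (z : ℂ) :
    Integrable fun w : ℂ => w⁻¹ * f (z - w) := by
  have hcont : Continuous fun w : ℂ => f (z - w) := hf.cont.comp (continuous_const.sub continuous_id)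
  have hcs : HasCompactSupport fun w : ℂ => f (z - w) := by
    refine HasCompactSupport.intro (isCompact_closedBall (z : ℂ) R) fun w hw => hf.supp _ ?_
    rw [Metric.mem_closedBall, dist_comm, dist_eq_norm, not_le] at hw
    exact hw.le
  exact Pool.Agent.H71.Top.locallyIntegrable_inv.integrable_smul_right_of_hasCompactSupport
    hcont hcs

theorem cta_fd {R : ℝ} {f : ℂ → ℂ} (hf : Tf R f) (v : ℂ) :
    ∃ R', Cf R' (fun w => fderiv ℝ f w v) := by
  refine ⟨R + 1, (hf.smooth.continuous_fderiv (by simp)).clm_apply continuous_const, ?_⟩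
  intro z hz
  have : f =ᶠ[𝓝 z] fun _ => 0 := by
    have h1 : {w : ℂ | R < ‖w‖} ∈ 𝓝 z :=
      (isOpen_lt continuous_const continuous_norm).mem_nhds (by
        show R < ‖z‖
        linarith)
    filter_upwards [h1] with w hw
    exact hf.supp w hw.le
  show fderiv ℝ f z v = 0
  rw [this.fderiv_eq]
  simp

theorem fd_ct {R : ℝ} {f : ℂ → ℂ} (hf : Tf R f) (z v : ℂ) :
    fderiv ℝ (Ct f) z v = Ct (fun w => fderiv ℝ f w v) z := by
  have h1 := hf.cpt.hasFDerivAt_convolution_right (ContinuousLinearMap.mul ℝ ℂ)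
    (μ := volume) Pool.Agent.H71.Top.locallyIntegrable_inv (hf.smooth.of_le (by simp)) z
  have h2 := h1.const_mul (1 / (Real.pi : ℂ))
  rw [cta_conv, h2.fderiv, cta_conv]
  rw [smul_apply, convolution_precompR_apply _
    Pool.Agent.H71.Top.locallyIntegrable_inv (hf.cpt.fderiv (𝕜 := ℝ))
    (hf.smooth.continuous_fderiv (by simp)), smul_eq_mul]

theorem cta_lin {R : ℝ} {f : ℂ → ℂ} (hf : Tf R f) (z a b : ℂ) :
    Ct (fun w => a * fderiv ℝ f w 1 + b * fderiv ℝ f w Complex.I) z =
      a * Ct (fun w => fderiv ℝ f w 1) z + b * Ct (fun w => fderiv ℝ f w Complex.I) z := by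
  obtain ⟨R1, h1⟩ := cta_fd hf 1
  obtain ⟨R2, h2⟩ := cta_fd hf Complex.I
  have i1 := cta_int h1 z
  have i2 := cta_int h2 z
  unfold Ct
  have e : ∀ w : ℂ, w⁻¹ * (a * fderiv ℝ f (z - w) 1 + b * fderiv ℝ f (z - w) Complex.I) =
      a * (w⁻¹ * fderiv ℝ f (z - w) 1) + b * (w⁻¹ * fderiv ℝ f (z - w) Complex.I) := by
    intro w
    ring
  simp_rw [e]
  rw [integral_add (i1.const_mul _) (i2.const_mul _), integral_const_mul, integral_const_mul]
  ring

theorem bt_eq {R : ℝ} {f : ℂ → ℂ} (hf : Tf R f) (z : ℂ) : Bt f z = Ct (dz f) z := by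
  unfold Bt
  have h1 := cta_lin hf z (1 / 2) (-(1 / 2) * Complex.I)
  have h2 : (dz f) = fun w => (1 / 2) * fderiv ℝ f w 1 + (-(1 / 2) * Complex.I) *
      fderiv ℝ f w Complex.I := by
    funext w
    unfold dz
    ring
  rw [h2, h1]
  unfold dz
  rw [fd_ct hf, fd_ct hf]
  ring

theorem db_ct {R : ℝ} {f : ℂ → ℂ} (hf : Tf R f) (z : ℂ) : db (Ct f) z = f z := by
  have h1 := cta_lin hf z (1 / 2) ((1 / 2) * Complex.I)
  have h2 : (db f) = fun w => (1 / 2) * fderiv ℝ f w 1 + ((1 / 2) * Complex.I) *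
      fderiv ℝ f w Complex.I := by
    funext w
    unfold db
    ring
  rw [← h2] at h1
  have h3 : db (Ct f) z = Ct (db f) z := by
    rw [h1]
    unfold db
    rw [fd_ct hf, fd_ct hf]
    ring
  rw [h3]
  let v : ℂ → ℂ := fun w => f (z - w)
  have hv : ContDiff ℝ ∞ v := hf.smooth.comp (contDiff_const.sub contDiff_id)
  have hvc : HasCompactSupport v := by
    refine HasCompactSupport.intro (isCompact_closedBall (z : ℂ) R) fun w hw => hf.supp _ ?_
    rw [Metric.mem_closedBall, dist_comm, dist_eq_norm, not_le] at hw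
    exact hw.le
  have hp := Pool.Agent.H71.Top.pompeiu v (hv.of_le (by simp)) hvc
  have hdv : ∀ w e : ℂ, fderiv ℝ v w e = - fderiv ℝ f (z - w) e := by
    intro w e
    have h7 : HasFDerivAt (fun w : ℂ => z - w) (-(ContinuousLinearMap.id ℝ ℂ)) w :=
      (hasFDerivAt_id w).const_sub z
    have h8 : HasFDerivAt f (fderiv ℝ f (z - w)) (z - w) :=
      (hf.smooth.differentiable (by simp) _).hasFDerivAt
    have h9 := HasFDerivAt.comp w h8 h7
    have h10 : v = f ∘ fun w : ℂ => z - w := rfl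
    rw [h10, h9.fderiv]
    simp
  have h5 : ∀ w : ℂ, Pool.Agent.H71.Top.dbar1 v w / w = -(w⁻¹ * db f (z - w)) := by
    intro w
    rw [Pool.Agent.H71.Top.dbar1, hdv, hdv, div_eq_mul_inv]
    unfold db
    ring
  simp_rw [h5] at hp
  rw [integral_neg] at hp
  have hv0 : v 0 = f z := by
    show f (z - 0) = f z
    rw [sub_zero]
  rw [hv0] at hp
  have hpi : (Real.pi : ℂ) ≠ 0 := by exact_mod_cast Real.pi_pos.ne'
  unfold Ct
  have h6 : ∫ w : ℂ, w⁻¹ * db f (z - w) = Real.pi * f z := by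
    linear_combination -hp
  rw [h6]
  field_simp

theorem bt_smooth {R : ℝ} {f : ℂ → ℂ} (hf : Tf R f) : ContDiff ℝ ∞ (Bt f) := by
  exact cd_dz (ct_smooth hf)

end H73.BR
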