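import Pool.Agent.H73.BR.Def
import Pool.Agent.H71.Top.Transform

set_option autoImplicit false

/-! # [H73 BR CTB] The Cauchy transform of a continuous function with compact support: elementary estimates

`ct_int`: `w⁻¹` is locally integrable (`Pool.Agent.H71.Top.locallyIntegrable_inv`, file `Pool/Agent/H71/Top/Transform.lean`),
`w ↦ f (z - w)` is bounded, continuous with compact support. `ct_eq`: the substitution `w → z - w` (`integral_sub_left_eq_self`).
`ct_far`: `‖z - w‖ ≥ ‖z‖ - R` on the support. `ct_dif`: `1/(z-w) - 1/(z'-w) = (z'-z)/((z-w)(z'-w))`. `ct_cont`: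
convolution of a locally integrable and a continuous compactly supported function
(`HasCompactSupport.continuous_convolution_right`). `ct_inf`: `ct_far`. `ct_lim`: dominated convergence (`‖f n w‖ ≤ M` and `f n` vanishes for
`R ≤ ‖w‖`: the integrand is dominated by `M * ‖w⁻¹‖` on the ball of radius `R` around `z`). The factor `1/π ≤ 1`. -/

namespace H73.BR

open MeasureTheory Complex Filter Topology
open scoped ContDiff

theorem ct_int {R : ℝ} {f : ℂ → ℂ} (hf : Cf R f) (z : ℂ) :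
    Integrable fun w : ℂ => w⁻¹ * f (z - w) :=
  hf.cpt.convolutionExists_right (ContinuousLinearMap.mul ℝ ℂ)
    Pool.Agent.H71.Top.locallyIntegrable_inv hf.cont z

theorem ct_eq {R : ℝ} {f : ℂ → ℂ} (hf : Cf R f) (z : ℂ) :
    Integrable (fun w : ℂ => f w / (z - w)) ∧
      Ct f z = (1 / (Real.pi : ℂ)) * ∫ w : ℂ, f w / (z - w) := by
  have h1 : ∀ w : ℂ, (z - w)⁻¹ * f (z - (z - w)) = f w / (z - w) := fun w => by
    rw [sub_sub_cancel, div_eq_mul_inv, mul_comm]
  constructor
  · have h2 := (ct_int hf z).comp_sub_left z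
    simp only [h1] at h2
    exact h2
  · unfold Ct
    congr 1
    rw [← integral_sub_left_eq_self (fun w : ℂ => w⁻¹ * f (z - w)) volume z]
    exact integral_congr_ae (Filter.Eventually.of_forall fun w => h1 w)

theorem ct_add {R : ℝ} {f g : ℂ → ℂ} (hf : Cf R f) (hg : Cf R g) (z : ℂ) :
    Ct (fun w => f w + g w) z = Ct f z + Ct g z := by
  unfold Ct
  rw [← mul_add, ← integral_add (ct_int hf z) (ct_int hg z)]
  congr 1
  exact integral_congr_ae (Filter.Eventually.of_forall fun w => mul_add _ _ _)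

theorem ct_sub {R : ℝ} {f g : ℂ → ℂ} (hf : Cf R f) (hg : Cf R g) (z : ℂ) :
    Ct (fun w => f w - g w) z = Ct f z - Ct g z := by
  unfold Ct
  rw [← mul_sub, ← integral_sub (ct_int hf z) (ct_int hg z)]
  congr 1
  exact integral_congr_ae (Filter.Eventually.of_forall fun w => mul_sub _ _ _)

private theorem pi_norm : ‖(1 / (Real.pi : ℂ))‖ ≤ 1 := by
  rw [norm_div, norm_one, Complex.norm_real, Real.norm_of_nonneg Real.pi_pos.le]
  rw [div_le_one Real.pi_pos]
  linarith [Real.pi_gt_three]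

private theorem far_sub {R : ℝ} {z w : ℂ} (hw : ‖w‖ < R) : ‖z‖ - R ≤ ‖z - w‖ := by
  have := norm_sub_norm_le z w
  linarith

theorem ct_far {R : ℝ} {f : ℂ → ℂ} (hf : Cf R f) {z : ℂ} (hz : R < ‖z‖) :
    ‖Ct f z‖ ≤ (∫ w, ‖f w‖) / (‖z‖ - R) := by
  rw [(ct_eq hf z).2, norm_mul]
  have hc : 0 < ‖z‖ - R := by linarith
  have h1 : ‖∫ w : ℂ, f w / (z - w)‖ ≤ ∫ w, ‖f w‖ / (‖z‖ - R) := by
    refine norm_integral_le_of_norm_le (hf.int.norm.div_const _)
      (Filter.Eventually.of_forall fun w => ?_)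
    rw [norm_div]
    by_cases hw : ‖w‖ < R
    · exact div_le_div_of_nonneg_left (norm_nonneg _) hc (far_sub hw)
    · rw [hf.supp w (not_lt.1 hw), norm_zero, zero_div, zero_div]
  rw [integral_div] at h1
  calc ‖(1 / (Real.pi : ℂ))‖ * ‖∫ w : ℂ, f w / (z - w)‖
      ≤ 1 * ‖∫ w : ℂ, f w / (z - w)‖ := mul_le_mul_of_nonneg_right pi_norm (norm_nonneg _)
    _ ≤ _ := by rw [one_mul]; exact h1

theorem ct_dif {R : ℝ} {f : ℂ → ℂ} (hf : Cf R f) {z z' : ℂ} (hz : R < ‖z‖) (hz' : R < ‖z'‖) :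
    ‖Ct f z - Ct f z'‖ ≤ ‖z - z'‖ * ((∫ w, ‖f w‖) / ((‖z‖ - R) * (‖z'‖ - R))) := by
  obtain ⟨hi1, he1⟩ := ct_eq hf z
  obtain ⟨hi2, he2⟩ := ct_eq hf z'
  have hc : 0 < ‖z‖ - R := by linarith
  have hc' : 0 < ‖z'‖ - R := by linarith
  rw [he1, he2, ← mul_sub, norm_mul, ← integral_sub hi1 hi2]
  have h1 : ‖∫ w : ℂ, (f w / (z - w) - f w / (z' - w))‖ ≤
      ∫ w, ‖z - z'‖ * (‖f w‖ / ((‖z‖ - R) * (‖z'‖ - R))) := by
    refine norm_integral_le_of_norm_le ((hf.int.norm.div_const _).const_mul _)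
      (Filter.Eventually.of_forall fun w => ?_)
    by_cases hw : ‖w‖ < R
    · have h2 := far_sub (z := z) hw
      have h3 := far_sub (z := z') hw
      have h4 : z - w ≠ 0 := norm_pos_iff.1 (hc.trans_le h2)
      have h5 : z' - w ≠ 0 := norm_pos_iff.1 (hc'.trans_le h3)
      have h6 : f w / (z - w) - f w / (z' - w) = (z' - z) * (f w / ((z - w) * (z' - w))) := by
        field_simp
        ring
      rw [h6, norm_mul, norm_div, norm_mul, norm_sub_rev z' z]
      refine mul_le_mul_of_nonneg_left ?_ (norm_nonneg _)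
      exact div_le_div_of_nonneg_left (norm_nonneg _) (mul_pos hc hc')
        (mul_le_mul h2 h3 hc'.le (norm_nonneg _))
    · rw [hf.supp w (not_lt.1 hw)]
      simp
  rw [integral_const_mul, integral_div] at h1
  calc ‖(1 / (Real.pi : ℂ))‖ * ‖∫ w : ℂ, (f w / (z - w) - f w / (z' - w))‖
      ≤ 1 * ‖∫ w : ℂ, (f w / (z - w) - f w / (z' - w))‖ :=
        mul_le_mul_of_nonneg_right pi_norm (norm_nonneg _)
    _ ≤ _ := by rw [one_mul]; exact h1

theorem ct_cont {R : ℝ} {f : ℂ → ℂ} (hf : Cf R f) : Continuous (Ct f) :=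
  continuous_const.mul (hf.cpt.continuous_convolution_right (ContinuousLinearMap.mul ℝ ℂ)
    Pool.Agent.H71.Top.locallyIntegrable_inv hf.cont)

theorem ct_inf {R : ℝ} {f : ℂ → ℂ} (hf : Cf R f) : Tendsto (Ct f) (cocompact ℂ) (𝓝 0) := by
  have h1 : Tendsto (fun z : ℂ => ‖z‖) (cocompact ℂ) atTop := tendsto_norm_cocompact_atTop
  have h2 : Tendsto (fun z : ℂ => (∫ w, ‖f w‖) / (‖z‖ - R)) (cocompact ℂ) (𝓝 0) :=
    (tendsto_atTop_add_const_right _ (-R) h1).const_div_atTop _
  refine squeeze_zero_norm' ?_ h2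
  filter_upwards [h1.eventually_gt_atTop R] with z hz
  exact ct_far hf hz

theorem ct_lim {R M : ℝ} {f : ℕ → ℂ → ℂ} {g : ℂ → ℂ} (hf : ∀ n, Cf R (f n))
    (hM : ∀ n z, ‖f n z‖ ≤ M) (h : ∀ z, Tendsto (fun n => f n z) atTop (𝓝 (g z))) (z : ℂ) :
    Tendsto (fun n => Ct (f n) z) atTop (𝓝 (Ct g z)) := by
  have hM0 : 0 ≤ M := (norm_nonneg _).trans (hM 0 0)
  refine Tendsto.const_mul _ ?_
  refine tendsto_integral_of_dominated_convergence
    ((Metric.closedBall z R).indicator fun w : ℂ => M * ‖w⁻¹‖)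
    (fun n => (ct_int (hf n) z).aestronglyMeasurable) ?_ ?_ ?_
  · rw [integrable_indicator_iff Metric.isClosed_closedBall.measurableSet]
    exact ((Pool.Agent.H71.Top.locallyIntegrable_inv.integrableOn_isCompact
      (isCompact_closedBall z R)).norm).const_mul M
  · intro n
    refine Filter.Eventually.of_forall fun w => ?_
    by_cases hw : ‖z - w‖ < R
    · have h1 : w ∈ Metric.closedBall z R := by
        rw [Metric.mem_closedBall, dist_eq_norm, norm_sub_rev]
        exact hw.le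
      rw [Set.indicator_of_mem h1, norm_mul, mul_comm]
      exact mul_le_mul_of_nonneg_right (hM n _) (norm_nonneg _)
    · rw [(hf n).supp _ (not_lt.1 hw), mul_zero, norm_zero]
      exact Set.indicator_nonneg (fun _ _ => by positivity) _
  · exact Filter.Eventually.of_forall fun w => (h (z - w)).const_mul _

end H73.BR
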