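import Pool.Agent.H73.BR.Cal

set_option autoImplicit false

/-! # [H73 BR MOL] Mollification

`Ml j F` is the convolution of `(bmp j).normed volume` (smooth, nonnegative, integral `1`, support in the closed ball of radius
`1/(j+1) ≤ 1`) with `F`. `ml_smooth`: `HasCompactSupport.contDiff_convolution_left` (`F` is locally integrable). `ml_fd`: differentiation under the
integral sign, the derivative on `F` (near `z` replace `F` by `χ F` with a smooth cutoff `χ = 1` on a large ball and use
`HasCompactSupport.hasFDerivAt_convolution_right`, or `hasFDerivAt_integral_of_dominated_of_fderiv_le`). `ml_lim`: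
`ContDiffBump.convolution_tendsto_right_of_continuous`. `ml_sq`: Jensen or Cauchy-Schwarz: `‖Ml j F z‖² ≤ ∫ η t ‖F (z-t)‖²`.
`ml_mo`, `ml_l2`: `ml_sq` and Fubini; the translate of a ball is a ball. -/

namespace H73.BR

open MeasureTheory Complex Filter Topology
open scoped ContDiff Convolution

/-- the kernel -/
noncomputable def et (j : ℕ) (t : ℂ) : ℝ := (bmp j).normed volume t

theorem et_smooth (j : ℕ) : ContDiff ℝ ∞ (et j) := (bmp j).contDiff_normed

theorem et_nn (j : ℕ) (t : ℂ) : 0 ≤ et j t := (bmp j).nonneg_normed t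

theorem et_cpt (j : ℕ) : HasCompactSupport (et j) := (bmp j).hasCompactSupport_normed

theorem et_int (j : ℕ) : Integrable (et j) := (bmp j).integrable_normed

theorem et_one (j : ℕ) : ∫ t, et j t = 1 := (bmp j).integral_normed

theorem bmp_out (j : ℕ) : (bmp j).rOut ≤ 1 := by
  show 1 / ((j : ℝ) + 1) ≤ 1
  rw [div_le_one (by positivity)]
  have : (0 : ℝ) ≤ (j : ℝ) := by positivity
  linarith

theorem et_zero (j : ℕ) {t : ℂ} (ht : 1 ≤ ‖t‖) : et j t = 0 := by
  have h := (bmp j).support_normed_eq (μ := (volume : Measure ℂ))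
  by_contra hne
  have h1 : t ∈ Function.support ((bmp j).normed volume) := hne
  rw [h, mem_ball_zero_iff] at h1
  have := bmp_out j
  linarith

theorem ml_eq (j : ℕ) (F : ℂ → ℂ) :
    Ml j F = (et j ⋆[ContinuousLinearMap.lsmul ℝ ℝ, volume] F) := by
  funext z
  rfl

theorem et_prod {E : Type*} [NormedAddCommGroup E] [NormedSpace ℝ E] {g : ℂ → E}
    (hg : Continuous g) (j : ℕ) (z : ℂ) :
    Integrable fun t => et j t • g (z - t) := by
  refine Continuous.integrable_of_hasCompactSupport ?_ ?_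
  · exact (et_smooth j).continuous.smul (hg.comp (continuous_const.sub continuous_id))
  · exact (et_cpt j).smul_right

theorem ml_smooth {F : ℂ → ℂ} (hF : Continuous F) (j : ℕ) : ContDiff ℝ ∞ (Ml j F) := by
  rw [ml_eq]
  exact (et_cpt j).contDiff_convolution_left _ (et_smooth j) hF.locallyIntegrable

theorem ml_has {F : ℂ → ℂ} (hF : ContDiff ℝ 1 F) (j : ℕ) (z : ℂ) :
    HasFDerivAt (Ml j F) (∫ t : ℂ, et j t • fderiv ℝ F (z - t)) z := by
  have hc : Continuous (fderiv ℝ F) := hF.continuous_fderiv one_ne_zero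
  obtain ⟨M, hM⟩ := (isCompact_closedBall z 2).exists_bound_of_continuousOn hc.continuousOn
  refine hasFDerivAt_integral_of_dominated_of_fderiv_le (μ := (volume : Measure ℂ))
    (F := fun x t => et j t • F (x - t)) (F' := fun x t => et j t • fderiv ℝ F (x - t))
    (bound := fun t => et j t * M) (Metric.ball_mem_nhds z one_pos) ?_ ?_ ?_ ?_ ?_ ?_
  · exact Filter.Eventually.of_forall fun x => (et_prod hF.continuous j x).aestronglyMeasurable
  · exact et_prod hF.continuous j z
  · exact (et_prod hc j z).aestronglyMeasurable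
  · refine Filter.Eventually.of_forall fun t x hx => ?_
    rw [norm_smul, Real.norm_of_nonneg (et_nn j t)]
    by_cases ht : ‖t‖ < 1
    · refine mul_le_mul_of_nonneg_left (hM _ ?_) (et_nn j t)
      rw [Metric.mem_ball, dist_eq_norm] at hx
      rw [Metric.mem_closedBall, dist_eq_norm]
      have h1 : x - t - z = (x - z) - t := by ring
      have h2 := norm_sub_le (x - z) t
      rw [h1]
      linarith
    · rw [et_zero j (not_lt.1 ht)]
      simp
  · exact (et_int j).mul_const M
  · refine Filter.Eventually.of_forall fun t x _ => ?_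
    have h1 : HasFDerivAt F (fderiv ℝ F (x - t)) (x - t) :=
      (hF.differentiable one_ne_zero _).hasFDerivAt
    have h2 : HasFDerivAt (fun x => x - t) (ContinuousLinearMap.id ℝ ℂ) x :=
      (hasFDerivAt_id x).sub_const t
    have h3 := h1.comp x h2
    rw [ContinuousLinearMap.comp_id] at h3
    exact h3.const_smul (et j t)

theorem ml_fd {F : ℂ → ℂ} (hF : ContDiff ℝ 1 F) (j : ℕ) (z v : ℂ) :
    fderiv ℝ (Ml j F) z v = Ml j (fun w => fderiv ℝ F w v) z := by
  rw [(ml_has hF j z).fderiv]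
  rw [ContinuousLinearMap.integral_apply (et_prod (hF.continuous_fderiv one_ne_zero) j z)]
  rfl

theorem ml_add {F G : ℂ → ℂ} (hF : Continuous F) (hG : Continuous G) (j : ℕ) (z : ℂ) :
    Ml j (fun w => F w + G w) z = Ml j F z + Ml j G z := by
  have h := integral_add (et_prod hF j z) (et_prod hG j z)
  rw [Ml, Ml, Ml]
  change _ = (∫ t, et j t • F (z - t)) + ∫ t, et j t • G (z - t)
  rw [← h]
  refine integral_congr_ae (Filter.Eventually.of_forall fun t => ?_)
  show et j t • (F (z - t) + G (z - t)) = _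
  rw [smul_add]

theorem ml_mul (c : ℂ) (F : ℂ → ℂ) (j : ℕ) (z : ℂ) :
    Ml j (fun w => c * F w) z = c * Ml j F z := by
  rw [Ml, Ml, ← integral_const_mul]
  refine integral_congr_ae (Filter.Eventually.of_forall fun t => ?_)
  show _ • (c * F (z - t)) = c * (_ • F (z - t))
  rw [mul_smul_comm]

theorem ml_dz {F : ℂ → ℂ} (hF : ContDiff ℝ 1 F) (j : ℕ) (z : ℂ) :
    dz (Ml j F) z = Ml j (dz F) z := by
  have hc : Continuous (fderiv ℝ F) := hF.continuous_fderiv one_ne_zero
  have h1 : Continuous fun w => fderiv ℝ F w 1 := hc.clm_apply continuous_const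
  have h2 : Continuous fun w => fderiv ℝ F w Complex.I := hc.clm_apply continuous_const
  have e : dz F = fun w => (1 / 2 : ℂ) * (fderiv ℝ F w 1 + (-Complex.I) * fderiv ℝ F w Complex.I) := by
    funext w
    rw [dz]
    ring
  have h3 : Continuous fun w => (-Complex.I) * fderiv ℝ F w Complex.I := continuous_const.mul h2
  rw [e, ml_mul, ml_add h1 h3, ml_mul, dz, ml_fd hF, ml_fd hF]
  ring

theorem ml_db {F : ℂ → ℂ} (hF : ContDiff ℝ 1 F) (j : ℕ) (z : ℂ) :
    db (Ml j F) z = Ml j (db F) z := by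
  have hc : Continuous (fderiv ℝ F) := hF.continuous_fderiv one_ne_zero
  have h1 : Continuous fun w => fderiv ℝ F w 1 := hc.clm_apply continuous_const
  have h2 : Continuous fun w => fderiv ℝ F w Complex.I := hc.clm_apply continuous_const
  have e : db F = fun w => (1 / 2 : ℂ) * (fderiv ℝ F w 1 + Complex.I * fderiv ℝ F w Complex.I) := by
    funext w
    rw [db]
  have h3 : Continuous fun w => Complex.I * fderiv ℝ F w Complex.I := continuous_const.mul h2
  rw [e, ml_mul, ml_add h1 h3, ml_mul, db, ml_fd hF, ml_fd hF]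

theorem bmp_lim : Tendsto (fun j => (bmp j).rOut) atTop (𝓝 0) := by
  show Tendsto (fun j : ℕ => 1 / ((j : ℝ) + 1)) atTop (𝓝 0)
  exact tendsto_one_div_add_atTop_nhds_zero_nat

theorem ml_lim {F : ℂ → ℂ} (hF : Continuous F) (z : ℂ) :
    Tendsto (fun j => Ml j F z) atTop (𝓝 (F z)) :=
  ContDiffBump.convolution_tendsto_right_of_continuous bmp_lim hF z

/-- bounds at `z` only need bounds on the ball of radius one -/
theorem ml_loc {F : ℂ → ℂ} (hF : Continuous F) (j : ℕ) {z : ℂ} {M : ℝ}
    (h : ∀ w, ‖w - z‖ ≤ 1 → ‖F w‖ ≤ M) : ‖Ml j F z‖ ≤ M := by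
  have h1 : ‖Ml j F z‖ ≤ ∫ t, et j t * M := by
    refine norm_integral_le_of_norm_le ((et_int j).mul_const M)
      (Filter.Eventually.of_forall fun t => ?_)
    change ‖et j t • F (z - t)‖ ≤ _
    rw [norm_smul, Real.norm_of_nonneg (et_nn j t)]
    by_cases ht : ‖t‖ < 1
    · refine mul_le_mul_of_nonneg_left (h _ ?_) (et_nn j t)
      have h1 : z - t - z = -t := by ring
      rw [h1, norm_neg]
      exact ht.le
    · rw [et_zero j (not_lt.1 ht)]
      simp
  rw [integral_mul_const, et_one, one_mul] at h1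
  exact h1

theorem ml_tf {R : ℝ} {f : ℂ → ℂ} (hf : Cf R f) (j : ℕ) : Tf (R + 1) (Ml j f) := by
  refine ⟨ml_smooth hf.cont j, fun z hz => ?_⟩
  have h := ml_loc hf.cont j (z := z) (M := 0) fun w hw => ?_
  · exact norm_le_zero_iff.1 h
  · have h1 : ‖z‖ ≤ ‖w‖ + ‖w - z‖ := by
      have h2 := norm_sub_le w (w - z)
      rw [sub_sub_cancel] at h2
      exact h2
    rw [hf.supp w (by linarith), norm_zero]

theorem ml_sq {F : ℂ → ℂ} (hF : Continuous F) (j : ℕ) (z : ℂ) :
    ‖Ml j F z‖ ^ 2 ≤ ∫ t : ℂ, ((bmp j).normed volume t) * ‖F (z - t)‖ ^ 2 := by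
  have hn : Continuous fun w => ‖F w‖ := hF.norm
  have hn2 : Continuous fun w => ‖F w‖ ^ 2 := hn.pow 2
  have i1 : Integrable fun t => et j t * ‖F (z - t)‖ := et_prod hn j z
  have i2 : Integrable fun t => et j t * ‖F (z - t)‖ ^ 2 := et_prod hn2 j z
  set m := ∫ t, et j t * ‖F (z - t)‖ with hm
  have h1 : ‖Ml j F z‖ ≤ m := by
    refine norm_integral_le_of_norm_le i1 (Filter.Eventually.of_forall fun t => ?_)
    change ‖et j t • F (z - t)‖ ≤ _
    rw [norm_smul, Real.norm_of_nonneg (et_nn j t)]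
  have h2 : 0 ≤ ∫ t, et j t * (‖F (z - t)‖ - m) ^ 2 :=
    integral_nonneg fun t => mul_nonneg (et_nn j t) (sq_nonneg _)
  have h3 : ∫ t, et j t * (‖F (z - t)‖ - m) ^ 2 =
      (∫ t, et j t * ‖F (z - t)‖ ^ 2) - 2 * m * m + m ^ 2 := by
    have e : (fun t => et j t * (‖F (z - t)‖ - m) ^ 2) = fun t =>
        et j t * ‖F (z - t)‖ ^ 2 - 2 * m * (et j t * ‖F (z - t)‖) + et j t * m ^ 2 := by
      funext t
      ring
    have i3 : Integrable fun t => 2 * m * (et j t * ‖F (z - t)‖) := i1.const_mul _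
    have i4 : Integrable fun t => et j t * ‖F (z - t)‖ ^ 2 - 2 * m * (et j t * ‖F (z - t)‖) :=
      i2.sub i3
    have i5 : Integrable fun t => et j t * m ^ 2 := (et_int j).mul_const _
    rw [e, integral_add i4 i5, integral_sub i2 i3, integral_const_mul, integral_mul_const, et_one,
      one_mul]
  have h4 : ‖Ml j F z‖ ^ 2 ≤ m ^ 2 := by
    have := norm_nonneg (Ml j F z)
    nlinarith
  change _ ≤ ∫ t, et j t * ‖F (z - t)‖ ^ 2
  rw [h3] at h2
  nlinarith

theorem cf_sq_int {R : ℝ} {f : ℂ → ℂ} (hf : Cf R f) : Integrable fun z => ‖f z‖ ^ 2 := hf.int2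

theorem ml_l2 {R : ℝ} {f : ℂ → ℂ} (hf : Cf R f) (j : ℕ) :
    ∫ z, ‖Ml j f z‖ ^ 2 ≤ ∫ z, ‖f z‖ ^ 2 := by
  have i1 : Integrable (et j ⋆[ContinuousLinearMap.lsmul ℝ ℝ, volume] fun z => ‖f z‖ ^ 2) :=
    (et_int j).integrable_convolution _ hf.int2
  have h1 : ∫ z, (et j ⋆[ContinuousLinearMap.lsmul ℝ ℝ, volume] fun z => ‖f z‖ ^ 2) z =
      ∫ z, ‖f z‖ ^ 2 := by
    rw [integral_convolution _ (et_int j) hf.int2, et_one]
    simp
  rw [← h1]
  refine integral_mono (ml_tf hf j).cf.int2 i1 fun z => ?_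
  exact ml_sq hf.cont j z

theorem ml_mo {R : ℝ} {f : ℂ → ℂ} (hf : Cf R f) (j : ℕ) {A : ℝ} (h : Mo f A) :
    Mo (Ml j f) A := by
  refine ⟨h.1, fun x r hr => ?_⟩
  have hn2 : Continuous fun w => ‖f w‖ ^ 2 := hf.cont.norm.pow 2
  obtain ⟨M, hM⟩ := hf.cont.bounded_above_of_compact_support hf.cpt
  have hM0 : 0 ≤ M := (norm_nonneg _).trans (hM 0)
  have i1 : Integrable (et j ⋆[ContinuousLinearMap.lsmul ℝ ℝ, volume] fun z => ‖f z‖ ^ 2) :=
    (et_int j).integrable_convolution _ hf.int2
  have h1 : ∫ z in Metric.ball x r, ‖Ml j f z‖ ^ 2 ≤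
      ∫ z in Metric.ball x r, ∫ t, et j t * ‖f (z - t)‖ ^ 2 := by
    refine setIntegral_mono (ml_tf hf j).cf.int2.integrableOn i1.integrableOn fun z => ?_
    exact ml_sq hf.cont j z
  have : IsFiniteMeasure ((volume : Measure ℂ).restrict (Metric.ball x r)) :=
    ⟨by rw [Measure.restrict_apply_univ]; exact measure_ball_lt_top⟩
  have i2 : Integrable (Function.uncurry fun (z t : ℂ) => et j t * ‖f (z - t)‖ ^ 2)
      (((volume : Measure ℂ).restrict (Metric.ball x r)).prod volume) := by
    have i3 : Integrable (fun p : ℂ × ℂ => et j p.2 * M ^ 2)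
        (((volume : Measure ℂ).restrict (Metric.ball x r)).prod volume) :=
      ((et_int j).mul_const (M ^ 2)).comp_snd _
    refine i3.mono' ?_ (Filter.Eventually.of_forall fun p => ?_)
    · refine Continuous.aestronglyMeasurable ?_
      exact ((et_smooth j).continuous.comp continuous_snd).mul
        (hn2.comp (continuous_fst.sub continuous_snd))
    · show ‖et j p.2 * ‖f (p.1 - p.2)‖ ^ 2‖ ≤ et j p.2 * M ^ 2
      rw [Real.norm_of_nonneg (mul_nonneg (et_nn j _) (by positivity))]
      exact mul_le_mul_of_nonneg_left (pow_le_pow_left₀ (norm_nonneg _) (hM _) 2) (et_nn j _)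
  have h2 := integral_integral_swap i2
  have h3 : ∀ t : ℂ, ∫ z in Metric.ball x r, ‖f (z - t)‖ ^ 2 ≤ A ^ 2 * r := by
    intro t
    have mp : MeasurePreserving (fun z : ℂ => z - t) volume volume :=
      measurePreserving_sub_right volume t
    have me : MeasurableEmbedding (fun z : ℂ => z - t) :=
      (MeasurableEquiv.subRight t).measurableEmbedding
    have h4 := mp.setIntegral_preimage_emb me (fun w => ‖f w‖ ^ 2) (Metric.ball (x - t) r)
    have h5 : (fun z : ℂ => z - t) ⁻¹' Metric.ball (x - t) r = Metric.ball x r := by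
      ext z
      rw [Set.mem_preimage, Metric.mem_ball, Metric.mem_ball, dist_eq_norm, dist_eq_norm,
        sub_sub_sub_cancel_right]
    rw [h5] at h4
    rw [h4]
    exact h.2 _ r hr
  refine h1.trans ?_
  rw [h2]
  have h6 : ∫ t, ∫ z in Metric.ball x r, et j t * ‖f (z - t)‖ ^ 2 ≤ ∫ t, et j t * (A ^ 2 * r) := by
    refine integral_mono i2.integral_prod_right ((et_int j).mul_const _) fun t => ?_
    show ∫ z in Metric.ball x r, et j t * ‖f (z - t)‖ ^ 2 ≤ et j t * (A ^ 2 * r)
    rw [integral_const_mul]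
    exact mul_le_mul_of_nonneg_left (h3 t) (et_nn j t)
  refine h6.trans ?_
  rw [integral_mul_const, et_one, one_mul]

end H73.BR
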