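import Pool.Agent.H73.BR.Def

set_option autoImplicit false

/-! # [H73 BR LAY] Integrals of Morrey functions against powers of the distance

`mo_l1`: Cauchy-Schwarz (`integral_mul_le_Lp_mul_Lq...` or `(∫ g)² ≤ vol * ∫ g²`), `volume (ball x r) = π r²`, `√π ≤ 2`.
`lay_near`: write `1/‖z-w‖ = ∫_{s > ‖z-w‖} s⁻² ds` and exchange the integrals (Tonelli, best with `∫⁻`):
`∫_{B(z,r)} ‖f‖/‖z-w‖ = ∫_0^∞ s⁻² (∫_{B(z, min(s,r))} ‖f‖) ds ≤ ∫_0^r √π A s^(-1/2) ds + √π A r^(3/2) ∫_r^∞ s⁻² ds = 3 √π A √r`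
(with the sharp form `∫_{B(z,s)} ‖f‖ ≤ √π A s^(3/2)`; `3 √π ≤ 6`). `lay_far`: `1/‖z-w‖² = ∫_{s > ‖z-w‖} 2 s⁻³ ds`,
`∫_{‖z-w‖ ≥ r} ‖f‖/‖z-w‖² ≤ ∫_r^∞ 2 s⁻³ √π A s^(3/2) ds = 4 √π A / √r ≤ 8 A/√r`. (Alternative: dyadic annuli with worse constants;
the constants `6`, `8` may not be enlarged without a mail to helper73, but nothing depends much on them.)
`mo_ex`: `∫_B ‖f‖² ≤ min (M² π r²) (∫ ‖f‖²) ≤ C r` (`M` a bound of `f`).
`mo_sub`: `‖a - b‖² ≤ 2 ‖a‖² + 2 ‖b‖²`, or Minkowski: here `A + B` with `(√x + √y)²`: use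
`‖a - b‖² ≤ (1 + t) ‖a‖² + (1 + 1/t) ‖b‖²` with `t = B/A`, or Cauchy-Schwarz for `∫ ‖a‖ ‖b‖`.
`mo_lim`: closedness. -/

namespace H73.BR

open MeasureTheory Complex Filter Topology
open scoped ContDiff

theorem lay_cs (μ : Measure ℂ) {a b : ℂ → ℝ} (ha : Integrable (fun w => a w ^ 2) μ)
    (hb : Integrable (fun w => b w ^ 2) μ) (hab : Integrable (fun w => a w * b w) μ) :
    (∫ w, a w * b w ∂μ) ^ 2 ≤ (∫ w, a w ^ 2 ∂μ) * ∫ w, b w ^ 2 ∂μ := by
  have key : ∀ t : ℝ, 0 ≤ (∫ w, b w ^ 2 ∂μ) * (t * t) + (-2 * ∫ w, a w * b w ∂μ) * t +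
      ∫ w, a w ^ 2 ∂μ := by
    intro t
    have h0 : 0 ≤ ∫ w, (a w - t * b w) ^ 2 ∂μ := integral_nonneg fun w => sq_nonneg _
    have h1 : ∫ w, (a w - t * b w) ^ 2 ∂μ = (∫ w, b w ^ 2 ∂μ) * (t * t) +
        (-2 * ∫ w, a w * b w ∂μ) * t + ∫ w, a w ^ 2 ∂μ := by
      have e : (fun w => (a w - t * b w) ^ 2) =
          fun w => (t * t) * b w ^ 2 + (-2 * t) * (a w * b w) + a w ^ 2 := by
        funext w; ring
      rw [e, integral_add, integral_add, integral_const_mul, integral_const_mul]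
      · ring
      · exact hb.const_mul _
      · exact hab.const_mul _
      · exact (hb.const_mul _).add (hab.const_mul _)
      · exact ha
    linarith
  have h := discrim_le_zero key
  rw [discrim] at h
  nlinarith

theorem lay_vol (x : ℂ) {r : ℝ} (hr : 0 < r) : ∫ _w in Metric.ball x r, (1 : ℝ) = Real.pi * r ^ 2 := by
  rw [setIntegral_const, smul_eq_mul, mul_one, Measure.real, Complex.volume_ball]
  rw [ENNReal.toReal_mul, ENNReal.toReal_pow, ENNReal.toReal_ofReal hr.le]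
  simp [mul_comm]

theorem lay_iob {g : ℂ → ℝ} (hg : Continuous g) (x : ℂ) (r : ℝ) :
    IntegrableOn g (Metric.ball x r) :=
  (hg.continuousOn.integrableOn_compact (isCompact_closedBall x r)).mono_set
    Metric.ball_subset_closedBall

theorem lay_ball {f : ℂ → ℂ} (hf : Continuous f) (x : ℂ) {r : ℝ} (hr : 0 < r) :
    (∫ w in Metric.ball x r, ‖f w‖) ^ 2 ≤
      (∫ w in Metric.ball x r, ‖f w‖ ^ 2) * (Real.pi * r ^ 2) := by
  have h := lay_cs (volume.restrict (Metric.ball x r)) (a := fun w => ‖f w‖) (b := fun _ => (1 : ℝ))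
    (lay_iob (hf.norm.pow 2) x r) (lay_iob (continuous_const.pow 2) x r)
    (lay_iob (hf.norm.mul continuous_const) x r)
  simp only [mul_one, one_pow] at h
  rwa [lay_vol x hr] at h

theorem mo_l1s {f : ℂ → ℂ} (hf : Continuous f) {A : ℝ} (h : Mo f A) (x : ℂ) {r : ℝ} (hr : 0 < r) :
    ∫ w in Metric.ball x r, ‖f w‖ ≤ √Real.pi * A * (r * √r) := by
  have hA := h.1
  have h1 := lay_ball hf x hr
  have h2 := h.2 x r hr
  have hpi := Real.pi_pos
  apply abs_le_of_sq_le_sq' _ (by positivity) |>.2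
  refine h1.trans ?_
  have e : (√Real.pi * A * (r * √r)) ^ 2 = (A ^ 2 * r) * (Real.pi * r ^ 2) := by
    rw [mul_pow, mul_pow, mul_pow, Real.sq_sqrt hpi.le, Real.sq_sqrt hr.le]
    ring
  rw [e]
  exact mul_le_mul_of_nonneg_right h2 (by positivity)

theorem lay_pi : √Real.pi ≤ 2 := by
  rw [Real.sqrt_le_left (by norm_num)]
  have := Real.pi_le_four
  linarith

theorem mo_l1 {f : ℂ → ℂ} (hf : Continuous f) {A : ℝ} (h : Mo f A) (x : ℂ) {r : ℝ} (hr : 0 < r) :
    ∫ w in Metric.ball x r, ‖f w‖ ≤ 2 * A * (r * √r) := by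
  have hA := h.1
  refine (mo_l1s hf h x hr).trans ?_
  have := lay_pi
  gcongr

theorem lay_set {R : ℝ} {f : ℂ → ℂ} (hf : ∀ z, R ≤ ‖z‖ → f z = 0) {g : ℂ → ℝ}
    (hg : ∀ z, f z = 0 → g z = 0) : ∫ w, g w = ∫ w in Metric.ball (0 : ℂ) R, g w := by
  symm
  apply setIntegral_eq_integral_of_forall_compl_eq_zero
  intro w hw
  apply hg w
  apply hf w
  simpa [Metric.mem_ball] using hw

theorem l1_l2 {R : ℝ} {f : ℂ → ℂ} (hf : Cf R f) (hR : 0 < R) :
    ∫ w, ‖f w‖ ≤ 2 * R * √(∫ w, ‖f w‖ ^ 2) := by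
  rw [lay_set hf.supp (g := fun w => ‖f w‖) (fun z hz => by simp [hz]),
    lay_set hf.supp (g := fun w => ‖f w‖ ^ 2) (fun z hz => by simp [hz])]
  have h1 := lay_ball hf.cont 0 hR
  have hS : 0 ≤ ∫ w in Metric.ball (0 : ℂ) R, ‖f w‖ ^ 2 := integral_nonneg fun w => sq_nonneg _
  apply abs_le_of_sq_le_sq' _ (by positivity) |>.2
  refine h1.trans ?_
  rw [mul_pow, Real.sq_sqrt hS, mul_pow]
  have := Real.pi_le_four
  nlinarith [mul_nonneg hS (sq_nonneg R)]

theorem mo_ex {R : ℝ} {f : ℂ → ℂ} (hf : Cf R f) : ∃ A, Mo f A := by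
  obtain ⟨M, hM⟩ := hf.cpt.exists_bound_of_continuous hf.cont
  have hM0 : 0 ≤ M := (norm_nonneg _).trans (hM 0)
  have hS : 0 ≤ ∫ w, ‖f w‖ ^ 2 := integral_nonneg fun w => sq_nonneg _
  have hpi := Real.pi_pos
  refine ⟨√(M ^ 2 * Real.pi + ∫ w, ‖f w‖ ^ 2), Real.sqrt_nonneg _, fun x r hr => ?_⟩
  rw [Real.sq_sqrt (by positivity)]
  rcases le_total r 1 with h | h
  · have h1 : ∫ w in Metric.ball x r, ‖f w‖ ^ 2 ≤ ∫ _w in Metric.ball x r, M ^ 2 * 1 := by
      apply integral_mono (lay_iob (hf.cont.norm.pow 2) x r) (lay_iob (continuous_const) x r)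
      intro w
      simp only [mul_one]
      exact pow_le_pow_left₀ (norm_nonneg _) (hM w) 2
    rw [integral_const_mul, lay_vol x hr] at h1
    refine h1.trans ?_
    have : r ^ 2 ≤ r := by nlinarith
    nlinarith [mul_nonneg (mul_nonneg (sq_nonneg M) hpi.le) (sub_nonneg.2 this), mul_nonneg hS hr.le]
  · have h1 : ∫ w in Metric.ball x r, ‖f w‖ ^ 2 ≤ ∫ w, ‖f w‖ ^ 2 :=
      setIntegral_le_integral hf.int2 (Filter.Eventually.of_forall fun w => sq_nonneg _)
    refine h1.trans ?_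
    nlinarith [mul_nonneg (mul_nonneg (sq_nonneg M) hpi.le) hr.le]

theorem mo_sub {R : ℝ} {f g : ℂ → ℂ} (hf : Cf R f) (hg : Cf R g) {A B : ℝ} (h1 : Mo f A)
    (h2 : Mo g B) : Mo (fun z => f z - g z) (A + B) := by
  have hA := h1.1
  have hB := h2.1
  refine ⟨add_nonneg hA hB, fun x r hr => ?_⟩
  have i1 := lay_iob (hf.cont.norm.pow 2) x r
  have i2 := lay_iob (hg.cont.norm.pow 2) x r
  have i3 := lay_iob (hf.cont.norm.mul hg.cont.norm) x r
  have hcs := lay_cs (volume.restrict (Metric.ball x r)) (a := fun w => ‖f w‖) (b := fun w => ‖g w‖)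
    i1 i2 i3
  have k1 := h1.2 x r hr
  have k2 := h2.2 x r hr
  have n1 : 0 ≤ ∫ w in Metric.ball x r, ‖f w‖ ^ 2 := integral_nonneg fun w => sq_nonneg _
  have n2 : 0 ≤ ∫ w in Metric.ball x r, ‖g w‖ ^ 2 := integral_nonneg fun w => sq_nonneg _
  have k3 : ∫ w in Metric.ball x r, ‖f w‖ * ‖g w‖ ≤ A * B * r := by
    apply abs_le_of_sq_le_sq' _ (by positivity) |>.2
    refine hcs.trans ?_
    calc _ ≤ (A ^ 2 * r) * (B ^ 2 * r) := by gcongr
      _ = (A * B * r) ^ 2 := by ring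
  have k4 : ∫ w in Metric.ball x r, ‖f w - g w‖ ^ 2 ≤
      ∫ w in Metric.ball x r, (‖f w‖ ^ 2 + 2 * (‖f w‖ * ‖g w‖) + ‖g w‖ ^ 2) := by
    apply integral_mono (lay_iob ((hf.cont.sub hg.cont).norm.pow 2) x r)
    · exact (i1.add (i3.const_mul 2)).add i2
    · intro w
      have := norm_sub_le (f w) (g w)
      have e : ‖f w‖ ^ 2 + 2 * (‖f w‖ * ‖g w‖) + ‖g w‖ ^ 2 = (‖f w‖ + ‖g w‖) ^ 2 := by ring
      show ‖f w - g w‖ ^ 2 ≤ ‖f w‖ ^ 2 + 2 * (‖f w‖ * ‖g w‖) + ‖g w‖ ^ 2
      rw [e]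
      exact pow_le_pow_left₀ (norm_nonneg _) this 2
  refine k4.trans ?_
  rw [integral_add, integral_add, integral_const_mul]
  · nlinarith
  · exact i1
  · exact i3.const_mul 2
  · exact i1.add (i3.const_mul 2)
  · exact i2

theorem mo_lim {f : ℂ → ℂ} {A : ℕ → ℝ} {A0 : ℝ} (h : ∀ n, Mo f (A n))
    (hA : Tendsto A atTop (𝓝 A0)) : Mo f A0 := by
  refine ⟨ge_of_tendsto' hA fun n => (h n).1, fun x r hr => ?_⟩
  exact ge_of_tendsto' ((hA.pow 2).mul_const r) fun n => (h n).2 x r hr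


/-- the measure `‖f‖ dw` on a set -/
noncomputable def layM (f : ℂ → ℂ) (S : Set ℂ) : Measure ℂ :=
  (volume.restrict S).withDensity fun w => ENNReal.ofReal ‖f w‖

theorem layM_le {f : ℂ → ℂ} (hf : Continuous f) {A : ℝ} (h : Mo f A) {S T : Set ℂ}
    (hT : MeasurableSet T) (z : ℂ) {s : ℝ} (hs : 0 < s) (hsub : T ∩ S ⊆ Metric.ball z s) :
    layM f S T ≤ ENNReal.ofReal (√Real.pi * A * (s * √s)) := by
  rw [layM, withDensity_apply _ hT, Measure.restrict_restrict hT]
  refine (lintegral_mono_set hsub).trans ?_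
  rw [← ofReal_integral_eq_lintegral_ofReal (lay_iob hf.norm z s)
    (Filter.Eventually.of_forall fun w => norm_nonneg _)]
  exact ENNReal.ofReal_le_ofReal (mo_l1s hf h z hs)

theorem layM_lint {f : ℂ → ℂ} (hf : Continuous f) {S : Set ℂ} {F : ℂ → ℝ}
    (hF : Measurable F) (hF0 : ∀ w, 0 ≤ F w) :
    ∫⁻ w in S, ENNReal.ofReal (‖f w‖ * F w) = ∫⁻ t in Set.Ioi (0 : ℝ), layM f S {w | t < F w} := by
  rw [← lintegral_eq_lintegral_meas_lt (layM f S) (Filter.Eventually.of_forall hF0) hF.aemeasurable,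
    layM, lintegral_withDensity_eq_lintegral_mul _ hf.norm.measurable.ennreal_ofReal
      hF.ennreal_ofReal]
  apply lintegral_congr
  intro w
  rw [Pi.mul_apply, ENNReal.ofReal_mul (norm_nonneg _)]

theorem lay_fin {f : ℂ → ℂ} (hf : Continuous f) {S : Set ℂ} {F : ℂ → ℝ}
    (hF : Measurable F) (hF0 : ∀ w, 0 ≤ F w) {c : ℝ} (hc : 0 ≤ c)
    (h : ∫⁻ w in S, ENNReal.ofReal (‖f w‖ * F w) ≤ ENNReal.ofReal c) :
    IntegrableOn (fun w => ‖f w‖ * F w) S ∧ ∫ w in S, ‖f w‖ * F w ≤ c := by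
  have hm : Measurable fun w => ‖f w‖ * F w := hf.norm.measurable.mul hF
  have h0 : ∀ w, 0 ≤ ‖f w‖ * F w := fun w => mul_nonneg (norm_nonneg _) (hF0 w)
  refine ⟨⟨hm.aestronglyMeasurable, ?_⟩, ?_⟩
  · rw [hasFiniteIntegral_iff_ofReal (Filter.Eventually.of_forall h0)]
    exact h.trans_lt ENNReal.ofReal_lt_top
  · rw [integral_eq_lintegral_of_nonneg_ae (Filter.Eventually.of_forall h0) hm.aestronglyMeasurable]
    exact ENNReal.toReal_le_of_le_ofReal hc h

theorem lay_near {f : ℂ → ℂ} (hf : Continuous f) {A : ℝ} (h : Mo f A) (z : ℂ) {r : ℝ}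
    (hr : 0 < r) : IntegrableOn (fun w => ‖f w‖ / ‖z - w‖) (Metric.ball z r) ∧
      ∫ w in Metric.ball z r, ‖f w‖ / ‖z - w‖ ≤ 6 * A * √r := by
  have hA := h.1
  have hpi := Real.pi_pos
  have hFm : Measurable fun w : ℂ => ‖z - w‖⁻¹ :=
    ((continuous_const.sub continuous_id).norm.measurable).inv
  simp only [div_eq_mul_inv]
  apply lay_fin hf hFm (fun w => by positivity) (by positivity)
  rw [layM_lint hf hFm (fun w => by positivity)]
  have hr1 : (0 : ℝ) < 1 / r := by positivity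
  rw [← Set.Ioc_union_Ioi_eq_Ioi hr1.le, lintegral_union measurableSet_Ioi
    (by rw [Set.disjoint_left]; intro x hx hx'; exact absurd hx.2 (not_le.2 hx'))]
  have hmeas : ∀ t : ℝ, MeasurableSet {w : ℂ | t < ‖z - w‖⁻¹} := fun t =>
    measurableSet_lt measurable_const hFm
  have e1 : ∫⁻ t in Set.Ioc 0 (1 / r), layM f (Metric.ball z r) {w | t < ‖z - w‖⁻¹} ≤
      ENNReal.ofReal (√Real.pi * A * √r) := by
    calc _ ≤ ∫⁻ _t in Set.Ioc 0 (1 / r), ENNReal.ofReal (√Real.pi * A * (r * √r)) := by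
          apply lintegral_mono
          intro t
          exact layM_le hf h (hmeas t) z hr Set.inter_subset_right
      _ = ENNReal.ofReal (√Real.pi * A * √r) := by
          rw [setLIntegral_const, Real.volume_Ioc, sub_zero, ← ENNReal.ofReal_mul (by positivity)]
          congr 1
          field_simp
  have e2 : ∫⁻ t in Set.Ioi (1 / r), layM f (Metric.ball z r) {w | t < ‖z - w‖⁻¹} ≤
      ENNReal.ofReal (2 * (√Real.pi * A * √r)) := by
    have hint : IntegrableOn (fun t : ℝ => √Real.pi * A * t ^ (-(3 / 2) : ℝ)) (Set.Ioi (1 / r)) :=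
      (integrableOn_Ioi_rpow_of_lt (by norm_num) hr1).const_mul _
    calc _ ≤ ∫⁻ t in Set.Ioi (1 / r), ENNReal.ofReal (√Real.pi * A * t ^ (-(3 / 2) : ℝ)) := by
          apply setLIntegral_mono' measurableSet_Ioi
          intro t ht
          have ht0 : 0 < t := hr1.trans ht
          have ht1 : (0 : ℝ) < t⁻¹ := inv_pos.2 ht0
          have q := layM_le hf h (S := Metric.ball z r) (hmeas t) z ht1 (by
            rintro w ⟨hw, -⟩
            have hw' : t < ‖z - w‖⁻¹ := hw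
            rw [Metric.mem_ball, dist_comm, dist_eq_norm]
            rcases eq_or_lt_of_le (norm_nonneg (z - w)) with h0 | h0
            · rw [← h0] at hw'
              simp at hw'
              linarith
            · exact (lt_inv_comm₀ h0 ht0).2 hw')
          refine q.trans (le_of_eq ?_)
          congr 2
          rw [Real.sqrt_eq_rpow, ← Real.rpow_one_add' ht1.le (by norm_num), Real.inv_rpow ht0.le,
            ← Real.rpow_neg ht0.le]
          norm_num
      _ = ENNReal.ofReal (2 * (√Real.pi * A * √r)) := by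
          rw [← ofReal_integral_eq_lintegral_ofReal hint]
          · congr 1
            rw [integral_const_mul, integral_Ioi_rpow_of_lt (by norm_num) hr1]
            have : (1 / r : ℝ) ^ (-(3 / 2) + 1 : ℝ) = √r := by
              rw [one_div, Real.inv_rpow hr.le, ← Real.rpow_neg hr.le, Real.sqrt_eq_rpow]
              norm_num
            rw [this]
            ring
          · rw [EventuallyLE, ae_restrict_iff' measurableSet_Ioi]
            refine Filter.Eventually.of_forall fun t ht => ?_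
            have ht0 : 0 < t := hr1.trans ht
            show 0 ≤ √Real.pi * A * t ^ (-(3 / 2) : ℝ)
            positivity
  refine (add_le_add e1 e2).trans ?_
  rw [← ENNReal.ofReal_add (by positivity) (by positivity)]
  apply ENNReal.ofReal_le_ofReal
  have := lay_pi
  have k : 0 ≤ A * √r := by positivity
  nlinarith

theorem lay_far {R : ℝ} {f : ℂ → ℂ} (hf : Cf R f) {A : ℝ} (h : Mo f A) (z : ℂ) {r : ℝ}
    (hr : 0 < r) : IntegrableOn (fun w => ‖f w‖ / ‖z - w‖ ^ 2) (Metric.ball z r)ᶜ ∧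
      ∫ w in (Metric.ball z r)ᶜ, ‖f w‖ / ‖z - w‖ ^ 2 ≤ 8 * A / √r := by
  have hA := h.1
  have hpi := Real.pi_pos
  have hFm : Measurable fun w : ℂ => (‖z - w‖ ^ 2)⁻¹ :=
    (((continuous_const.sub continuous_id).norm.pow 2).measurable).inv
  simp only [div_eq_mul_inv]
  apply lay_fin hf.cont hFm (fun w => by positivity) (by positivity)
  rw [layM_lint hf.cont hFm (fun w => by positivity)]
  set c : ℝ := 1 / r ^ 2 with hc
  have hc1 : (0 : ℝ) < c := by positivity
  rw [← Set.Ioc_union_Ioi_eq_Ioi hc1.le, lintegral_union measurableSet_Ioi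
    (by rw [Set.disjoint_left]; intro x hx hx'; exact absurd hx.2 (not_le.2 hx'))]
  have hmeas : ∀ t : ℝ, MeasurableSet {w : ℂ | t < (‖z - w‖ ^ 2)⁻¹} := fun t =>
    measurableSet_lt measurable_const hFm
  have e2 : ∫⁻ t in Set.Ioi c, layM f (Metric.ball z r)ᶜ {w | t < (‖z - w‖ ^ 2)⁻¹} = 0 := by
    rw [setLIntegral_congr_fun measurableSet_Ioi (g := fun _ => 0)]
    · simp
    · intro t ht
      show layM f (Metric.ball z r)ᶜ {w | t < (‖z - w‖ ^ 2)⁻¹} = 0
      have he : {w | t < (‖z - w‖ ^ 2)⁻¹} ∩ (Metric.ball z r)ᶜ = ∅ := by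
        rw [Set.eq_empty_iff_forall_notMem]
        rintro w ⟨hw, hw2⟩
        have hw' : t < (‖z - w‖ ^ 2)⁻¹ := hw
        rw [Set.mem_compl_iff, Metric.mem_ball, dist_comm, dist_eq_norm, not_lt] at hw2
        have : (‖z - w‖ ^ 2)⁻¹ ≤ c := by
          rw [hc, one_div]
          apply inv_anti₀ (by positivity)
          exact pow_le_pow_left₀ hr.le hw2 2
        have ht' : c < t := ht
        linarith
      rw [layM, withDensity_apply _ (hmeas t), Measure.restrict_restrict (hmeas t), he]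
      simp
  have e1 : ∫⁻ t in Set.Ioc 0 c, layM f (Metric.ball z r)ᶜ {w | t < (‖z - w‖ ^ 2)⁻¹} ≤
      ENNReal.ofReal (4 * (√Real.pi * A / √r)) := by
    have hint : IntegrableOn (fun t : ℝ => √Real.pi * A * t ^ (-(3 / 4) : ℝ)) (Set.Ioc 0 c) := by
      have := (intervalIntegral.intervalIntegrable_rpow' (a := 0) (b := c)
        (show (-1 : ℝ) < -(3 / 4) by norm_num)).const_mul (√Real.pi * A)
      rwa [intervalIntegrable_iff_integrableOn_Ioc_of_le hc1.le] at this
    calc _ ≤ ∫⁻ t in Set.Ioc 0 c, ENNReal.ofReal (√Real.pi * A * t ^ (-(3 / 4) : ℝ)) := by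
          apply setLIntegral_mono' measurableSet_Ioc
          intro t ht
          have ht0 : 0 < t := ht.1
          have ht1 : (0 : ℝ) < √(t⁻¹) := by positivity
          have q := layM_le hf.cont h (S := (Metric.ball z r)ᶜ) (hmeas t) z ht1 (by
            rintro w ⟨hw, -⟩
            have hw' : t < (‖z - w‖ ^ 2)⁻¹ := hw
            rw [Metric.mem_ball, dist_comm, dist_eq_norm]
            rcases eq_or_lt_of_le (norm_nonneg (z - w)) with h0 | h0
            · rw [← h0]; exact ht1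
            · apply Real.lt_sqrt_of_sq_lt
              exact (lt_inv_comm₀ (by positivity) ht0).2 hw')
          refine q.trans (le_of_eq ?_)
          congr 2
          rw [Real.sqrt_eq_rpow, Real.sqrt_eq_rpow, ← Real.rpow_mul (by positivity),
            ← Real.rpow_add (by positivity), Real.inv_rpow ht0.le, ← Real.rpow_neg ht0.le]
          norm_num
      _ = ENNReal.ofReal (4 * (√Real.pi * A / √r)) := by
          rw [← ofReal_integral_eq_lintegral_ofReal hint]
          · congr 1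
            rw [integral_const_mul, ← intervalIntegral.integral_of_le hc1.le,
              integral_rpow (Or.inl (by norm_num))]
            have h1 : (c : ℝ) ^ (-(3 / 4) + 1 : ℝ) = (√r)⁻¹ := by
              rw [hc, one_div, Real.inv_rpow (by positivity), ← Real.rpow_natCast,
                ← Real.rpow_mul hr.le, Real.sqrt_eq_rpow]
              norm_num
            rw [h1, Real.zero_rpow (by norm_num)]
            ring
          · rw [EventuallyLE, ae_restrict_iff' measurableSet_Ioc]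
            refine Filter.Eventually.of_forall fun t ht => ?_
            have ht0 : 0 < t := ht.1
            show 0 ≤ √Real.pi * A * t ^ (-(3 / 4) : ℝ)
            positivity
  rw [e2, add_zero]
  refine e1.trans (ENNReal.ofReal_le_ofReal ?_)
  have := lay_pi
  have k : 0 ≤ A / √r := by positivity
  rw [← div_eq_mul_inv]
  calc 4 * (√Real.pi * A / √r) = 4 * √Real.pi * (A / √r) := by ring
    _ ≤ 4 * 2 * (A / √r) := by gcongr
    _ = 8 * A / √r := by ring

end H73.BR
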