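import Pool.Agent.H73.BR.CtB
import Pool.Agent.H73.BR.Lay

set_option autoImplicit false

/-! # [H73 BR HOL] Sup and Hoelder bounds of the Cauchy transform

`ct_sup`: `Ct f z = (1/π) ∫ f w/(z-w)` (`ct_eq`), split at `B(z,s)`: `lay_near` gives `(6/π) A √s ≤ 2 A √s`, the rest is at most
`(1/(π s)) ∫ ‖f‖`. `ct_hol`: let `ρ = ‖z - z'‖ > 0` (for `z = z'` trivial). On `B(z,2ρ)` (contained in `B(z',3ρ)`) the two terms give
`6 A √(2ρ) + 6 A √(3ρ)`; outside `‖1/(z-w) - 1/(z'-w)‖ = ρ/(‖z-w‖ ‖z'-w‖) ≤ 2ρ/‖z-w‖²`, `lay_far` gives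
`2 ρ * 8 A/√(2ρ)`. Sum divided by `π`: `(6√2 + 6√3 + 16/√2)/π ≤ 10`.
`ct_sup0`: `s = R`, `∫ ‖f‖ = ∫_{B(0,R)} ‖f‖ ≤ 2 A R √R` (`mo_l1`; `f` vanishes outside). -/

namespace H73.BR

open MeasureTheory Complex Filter Topology
open scoped ContDiff

theorem ct_sup {R : ℝ} {f : ℂ → ℂ} (hf : Cf R f) {A : ℝ} (h : Mo f A) (z : ℂ) {s : ℝ}
    (hs : 0 < s) : ‖Ct f z‖ ≤ 2 * A * √s + (∫ w, ‖f w‖) / s := by
  obtain ⟨hi, he⟩ := ct_eq hf z
  have hA := h.1
  obtain ⟨hn1, hn2⟩ := lay_near hf.cont h z hs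
  have hfi : Integrable fun w => ‖f w‖ := hf.int.norm
  have hf0 : 0 ≤ ∫ w, ‖f w‖ := integral_nonneg fun w => norm_nonneg _
  have hnorm : (fun w : ℂ => ‖f w / (z - w)‖) = fun w => ‖f w‖ / ‖z - w‖ := by
    funext w
    rw [norm_div]
  have hi' : Integrable fun w : ℂ => ‖f w‖ / ‖z - w‖ := by
    rw [← hnorm]
    exact hi.norm
  have h1 : ‖∫ w : ℂ, f w / (z - w)‖ ≤ ∫ w : ℂ, ‖f w‖ / ‖z - w‖ := by
    rw [← hnorm]
    exact norm_integral_le_integral_norm _
  have h2 : ∫ w : ℂ, ‖f w‖ / ‖z - w‖ = (∫ w in Metric.ball z s, ‖f w‖ / ‖z - w‖) +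
      ∫ w in (Metric.ball z s)ᶜ, ‖f w‖ / ‖z - w‖ :=
    (integral_add_compl Metric.isOpen_ball.measurableSet hi').symm
  have h3 : ∫ w in (Metric.ball z s)ᶜ, ‖f w‖ / ‖z - w‖ ≤ (∫ w, ‖f w‖) / s := by
    calc ∫ w in (Metric.ball z s)ᶜ, ‖f w‖ / ‖z - w‖ ≤ ∫ w in (Metric.ball z s)ᶜ, ‖f w‖ / s := by
          refine setIntegral_mono_on hi'.integrableOn (hfi.div_const s).integrableOn
            Metric.isOpen_ball.measurableSet.compl fun w hw => ?_
          rw [Set.mem_compl_iff, Metric.mem_ball, not_lt, dist_comm, dist_eq_norm] at hw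
          exact div_le_div_of_nonneg_left (norm_nonneg _) hs hw
      _ ≤ ∫ w, ‖f w‖ / s := by
          refine setIntegral_le_integral (hfi.div_const s) (Eventually.of_forall fun w => ?_)
          positivity
      _ = (∫ w, ‖f w‖) / s := integral_div _ _
  have h4 : ‖∫ w : ℂ, f w / (z - w)‖ ≤ 6 * A * √s + (∫ w, ‖f w‖) / s := by linarith
  have hs0 : 0 ≤ √s := Real.sqrt_nonneg s
  have h5 : 0 ≤ (∫ w, ‖f w‖) / s := div_nonneg hf0 hs.le
  have h6 : 0 ≤ A * √s := mul_nonneg hA hs0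
  rw [he, norm_mul, norm_div, norm_one, Complex.norm_real, Real.norm_eq_abs,
    abs_of_pos Real.pi_pos]
  have h7 : 1 / Real.pi * ‖∫ w : ℂ, f w / (z - w)‖ ≤
      1 / Real.pi * (6 * A * √s + (∫ w, ‖f w‖) / s) :=
    mul_le_mul_of_nonneg_left h4 (by positivity)
  refine h7.trans ?_
  rw [div_mul_eq_mul_div, one_mul, div_le_iff₀ Real.pi_pos]
  have h8 := Real.pi_gt_three
  nlinarith

theorem ct_sup0 {R : ℝ} {f : ℂ → ℂ} (hf : Cf R f) (hR : 0 < R) {A : ℝ} (h : Mo f A) (z : ℂ) :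
    ‖Ct f z‖ ≤ 4 * A * √R := by
  have h1 := ct_sup hf h z hR
  have h2 : ∫ w, ‖f w‖ = ∫ w in Metric.ball (0 : ℂ) R, ‖f w‖ := by
    symm
    refine setIntegral_eq_integral_of_forall_compl_eq_zero fun w hw => ?_
    rw [Metric.mem_ball, dist_zero_right, not_lt] at hw
    rw [hf.supp w hw, norm_zero]
  have h3 := mo_l1 hf.cont h 0 hR
  rw [← h2] at h3
  have h4 : (∫ w, ‖f w‖) / R ≤ 2 * A * √R := by
    rw [div_le_iff₀ hR]
    calc ∫ w, ‖f w‖ ≤ 2 * A * (R * √R) := h3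
      _ = 2 * A * √R * R := by ring
  linarith

theorem ct_hol {R : ℝ} {f : ℂ → ℂ} (hf : Cf R f) {A : ℝ} (h : Mo f A) (z z' : ℂ) :
    ‖Ct f z - Ct f z'‖ ≤ 10 * A * √‖z - z'‖ := by
  have hA := h.1
  rcases eq_or_ne z z' with hzz | hzz
  · subst hzz
    simp
  obtain ⟨ρ, hρd⟩ : ∃ ρ : ℝ, ρ = ‖z - z'‖ := ⟨_, rfl⟩
  have hρ : 0 < ρ := by
    rw [hρd, norm_pos_iff]
    exact sub_ne_zero.2 hzz
  rw [← hρd]
  obtain ⟨hi, he⟩ := ct_eq hf z
  obtain ⟨hi', he'⟩ := ct_eq hf z'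
  have hni : Integrable fun w : ℂ => ‖f w‖ / ‖z - w‖ := by
    refine hi.norm.congr (Eventually.of_forall fun w => ?_)
    show ‖f w / (z - w)‖ = _
    rw [norm_div]
  have hni' : Integrable fun w : ℂ => ‖f w‖ / ‖z' - w‖ := by
    refine hi'.norm.congr (Eventually.of_forall fun w => ?_)
    show ‖f w / (z' - w)‖ = _
    rw [norm_div]
  have hd : Integrable fun w : ℂ => f w / (z - w) - f w / (z' - w) := hi.sub hi'
  have e1 : Ct f z - Ct f z' = (1 / (Real.pi : ℂ)) * ∫ w : ℂ, (f w / (z - w) - f w / (z' - w)) := by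
    rw [integral_sub hi hi', he, he', mul_sub]
  obtain ⟨B, hB⟩ : ∃ B : Set ℂ, B = Metric.ball z (2 * ρ) := ⟨_, rfl⟩
  have hBm : MeasurableSet B := by
    rw [hB]
    exact Metric.isOpen_ball.measurableSet
  have h1 : ‖∫ w : ℂ, (f w / (z - w) - f w / (z' - w))‖ ≤
      (∫ w in B, ‖f w / (z - w) - f w / (z' - w)‖) +
        ∫ w in Bᶜ, ‖f w / (z - w) - f w / (z' - w)‖ := by
    rw [integral_add_compl hBm hd.norm]
    exact norm_integral_le_integral_norm _
  -- near the two points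
  have h2 : ∫ w in B, ‖f w / (z - w) - f w / (z' - w)‖ ≤
      6 * A * √(2 * ρ) + 6 * A * √(3 * ρ) := by
    have a1 := (lay_near hf.cont h z (r := 2 * ρ) (by positivity)).2
    have a2 := lay_near hf.cont h z' (r := 3 * ρ) (by positivity)
    have a3 : ∫ w in B, ‖f w‖ / ‖z' - w‖ ≤ ∫ w in Metric.ball z' (3 * ρ), ‖f w‖ / ‖z' - w‖ := by
      refine setIntegral_mono_set a2.1 (Eventually.of_forall fun w => ?_)
        (LE.le.eventuallyLE ?_)
      · show 0 ≤ ‖f w‖ / ‖z' - w‖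
        positivity
      · rw [hB]
        intro w hw
        rw [Metric.mem_ball, dist_eq_norm] at hw ⊢
        have b1 : w - z' = (w - z) + (z - z') := by ring
        rw [b1]
        refine (norm_add_le _ _).trans_lt ?_
        rw [← hρd]
        linarith
    calc ∫ w in B, ‖f w / (z - w) - f w / (z' - w)‖
        ≤ ∫ w in B, (‖f w‖ / ‖z - w‖ + ‖f w‖ / ‖z' - w‖) := by
          refine setIntegral_mono hd.norm.integrableOn (hni.add hni').integrableOn fun w => ?_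
          refine (norm_sub_le _ _).trans ?_
          rw [norm_div, norm_div]
      _ = (∫ w in B, ‖f w‖ / ‖z - w‖) + ∫ w in B, ‖f w‖ / ‖z' - w‖ :=
          integral_add hni.integrableOn hni'.integrableOn
      _ ≤ 6 * A * √(2 * ρ) + 6 * A * √(3 * ρ) := by
          rw [hB] at a3 ⊢
          linarith [a2.2]
  -- far from the two points
  have h3 : ∫ w in Bᶜ, ‖f w / (z - w) - f w / (z' - w)‖ ≤ 2 * ρ * (8 * A / √(2 * ρ)) := by
    obtain ⟨a1, a2⟩ := lay_far hf h z (r := 2 * ρ) (by positivity)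
    rw [← hB] at a1 a2
    calc ∫ w in Bᶜ, ‖f w / (z - w) - f w / (z' - w)‖
        ≤ ∫ w in Bᶜ, 2 * ρ * (‖f w‖ / ‖z - w‖ ^ 2) := by
          refine setIntegral_mono_on hd.norm.integrableOn (a1.const_mul (2 * ρ))
            hBm.compl fun w hw => ?_
          rw [hB, Set.mem_compl_iff, Metric.mem_ball, not_lt, dist_comm, dist_eq_norm] at hw
          have b1 : ‖z - w‖ ≤ ‖z' - w‖ + ρ := by
            have : z - w = (z' - w) + (z - z') := by ring
            rw [this, hρd]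
            exact norm_add_le _ _
          have b2 : 0 < ‖z - w‖ := by linarith
          have b3 : ‖z - w‖ / 2 ≤ ‖z' - w‖ := by linarith
          have b4 : 0 < ‖z' - w‖ := by linarith
          have b5 : z - w ≠ 0 := norm_pos_iff.1 b2
          have b6 : z' - w ≠ 0 := norm_pos_iff.1 b4
          have b7 : f w / (z - w) - f w / (z' - w) = f w * (z' - z) / ((z - w) * (z' - w)) := by
            field_simp
            ring
          rw [b7, norm_div, norm_mul, norm_mul, norm_sub_rev z' z, ← hρd,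
            div_le_iff₀ (by positivity)]
          have b8 : 2 * ρ * (‖f w‖ / ‖z - w‖ ^ 2) * (‖z - w‖ * ‖z' - w‖) =
              ‖f w‖ * ρ * (2 * ‖z' - w‖ / ‖z - w‖) := by
            field_simp
          rw [b8]
          have b9 : 1 ≤ 2 * ‖z' - w‖ / ‖z - w‖ := by
            rw [le_div_iff₀ b2]
            linarith
          calc ‖f w‖ * ρ = ‖f w‖ * ρ * 1 := (mul_one _).symm
            _ ≤ ‖f w‖ * ρ * (2 * ‖z' - w‖ / ‖z - w‖) := mul_le_mul_of_nonneg_left b9 (by positivity)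
      _ = 2 * ρ * ∫ w in Bᶜ, ‖f w‖ / ‖z - w‖ ^ 2 := integral_const_mul _ _
      _ ≤ 2 * ρ * (8 * A / √(2 * ρ)) := mul_le_mul_of_nonneg_left a2 (by positivity)
  -- the constants
  obtain ⟨t, ht⟩ : ∃ t : ℝ, t = √ρ := ⟨_, rfl⟩
  have ht0 : 0 < t := by
    rw [ht]
    exact Real.sqrt_pos.2 hρ
  have htt : t * t = ρ := by
    rw [ht]
    exact Real.mul_self_sqrt hρ.le
  have g2 : √(2 * ρ) = √2 * t := by
    rw [ht]
    exact Real.sqrt_mul (by norm_num) _
  have g3 : √(3 * ρ) = √3 * t := by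
    rw [ht]
    exact Real.sqrt_mul (by norm_num) _
  have c2 : √2 * √2 = 2 := Real.mul_self_sqrt (by norm_num)
  have c2p : 0 < √2 := Real.sqrt_pos.2 (by norm_num)
  have c2b : √2 ≤ 1.415 := by
    rw [Real.sqrt_le_left (by norm_num)]
    norm_num
  have c3b : √3 ≤ 1.733 := by
    rw [Real.sqrt_le_left (by norm_num)]
    norm_num
  have g4 : 2 * ρ * (8 * A / √(2 * ρ)) = 8 * √2 * A * t := by
    rw [g2, ← htt]
    field_simp
    nlinarith [c2]
  rw [g2, g3] at h2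
  rw [g4] at h3
  have hAt : 0 ≤ A * t := mul_nonneg hA ht0.le
  have h5 : ‖∫ w : ℂ, (f w / (z - w) - f w / (z' - w))‖ ≤ 31 * (A * t) := by
    have k2 : √2 * (A * t) ≤ 1.415 * (A * t) := mul_le_mul_of_nonneg_right c2b hAt
    have k3 : √3 * (A * t) ≤ 1.733 * (A * t) := mul_le_mul_of_nonneg_right c3b hAt
    nlinarith
  rw [e1, norm_mul, norm_div, norm_one, Complex.norm_real, Real.norm_eq_abs,
    abs_of_pos Real.pi_pos]
  have h7 : 1 / Real.pi * ‖∫ w : ℂ, (f w / (z - w) - f w / (z' - w))‖ ≤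
      1 / Real.pi * (31 * (A * t)) := mul_le_mul_of_nonneg_left h5 (by positivity)
  refine h7.trans ?_
  rw [div_mul_eq_mul_div, one_mul, div_le_iff₀ Real.pi_pos, ← ht]
  have h8 := Real.pi_gt_d2
  nlinarith

end H73.BR
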