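import Pool.Agent.H73.BR.BtC
import Pool.Agent.H73.BR.Hol

set_option autoImplicit false

/-! # [H73 BR APR] A priori estimates

Let `D = F - id`, `f = db F = db D` (`Cf R f`), `dz F = 1 + dz D`. `apr_step`: if `Mo f a` then `Mo f (δ (2 √R + 21 a))`: for a disc `B` of radius `r`
`(∫_B ‖f‖²)^(1/2) ≤ δ (∫_{B ∩ B(0,R)} ‖dz F‖²)^(1/2) ≤ δ ((vol (B ∩ B(0,R)))^(1/2) + (∫_B ‖dz D‖²)^(1/2))` (`f = 0` outside of `B(0,R)`;
Minkowski) and `vol (B ∩ B(0,R)) ≤ π min(r²,R²) ≤ π r R ≤ 4 r R`, `∫_B ‖dz D‖² ≤ (21 a)² r` (`btc_mo`).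
`apr_mo`: start with `mo_ex`, iterate; the iteration `a ↦ δ (2 √R + 21 a)` converges to its fixed point
`2 δ √R/(1 - 21 δ) ≤ 4 δ √R` (`21 δ ≤ 1/2`); `mo_lim` (and a larger constant is also fine).
`apr_est`: `rep0` for `D`, the constant is `0` as `D → 0` and `Ct f → 0` at infinity (`ct_inf`), so `F = id + Ct f`. `ct_sup0`: `‖F z - z‖ ≤ 4 * 4 δ √R * √R = 16 δ R`.
`ct_hol`: `‖F z - F w‖ ≤ ‖z - w‖ + 10 * 4 δ √R √‖z-w‖`, `√R ≤ R`. -/

namespace H73.BR

open MeasureTheory Complex Filter Topology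
open scoped ContDiff

/-- the area of the intersection of two discs -/
theorem apr_vol {R : ℝ} (hR : 0 < R) (x : ℂ) {r : ℝ} (hr : 0 < r) :
    ∫ _w in Metric.ball x r ∩ Metric.ball (0 : ℂ) R, (1 : ℝ) ≤ 4 * (r * R) := by
  have hpi := Real.pi_le_four
  have hpi0 := Real.pi_pos
  have hrR : 0 < r * R := mul_pos hr hR
  have key : ∀ (y : ℂ) (s : ℝ), 0 < s → Metric.ball x r ∩ Metric.ball (0 : ℂ) R ⊆ Metric.ball y s →
      ∫ _w in Metric.ball x r ∩ Metric.ball (0 : ℂ) R, (1 : ℝ) ≤ Real.pi * s ^ 2 := by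
    intro y s hs hsub
    rw [← lay_vol y hs]
    exact setIntegral_mono_set (lay_iob continuous_const y s)
      (Eventually.of_forall fun _ => zero_le_one) (LE.le.eventuallyLE hsub)
  rcases le_total r R with h | h
  · refine (key x r hr Set.inter_subset_left).trans ?_
    have h1 : r ^ 2 ≤ r * R := by nlinarith
    calc Real.pi * r ^ 2 ≤ Real.pi * (r * R) := mul_le_mul_of_nonneg_left h1 hpi0.le
      _ ≤ 4 * (r * R) := mul_le_mul_of_nonneg_right hpi hrR.le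
  · refine (key 0 R hR Set.inter_subset_right).trans ?_
    have h1 : R ^ 2 ≤ r * R := by nlinarith
    calc Real.pi * R ^ 2 ≤ Real.pi * (r * R) := mul_le_mul_of_nonneg_left h1 hpi0.le
      _ ≤ 4 * (r * R) := mul_le_mul_of_nonneg_right hpi hrR.le

/-- one step of the improvement -/
theorem apr_step {R δ : ℝ} (hR : 0 < R) (hδ : 0 ≤ δ) {F : ℂ → ℂ}
    (hF : ContDiff ℝ 1 F) {M : ℝ} (hM : ∀ z, ‖F z - z‖ ≤ M) (hs : ∀ z, R ≤ ‖z‖ → db F z = 0)
    (hb : ∀ z, ‖db F z‖ ≤ δ * ‖dz F z‖) {a : ℝ} (h : Mo (db F) a) :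
    Mo (db F) (δ * (2 * √R + 21 * a)) := by
  have ha := h.1
  have hD : ContDiff ℝ 1 (fun z => F z - z) := hF.sub contDiff_id
  have hFd : Differentiable ℝ F := hF.differentiable (by norm_num)
  have hdb : db (fun z => F z - z) = db F := by
    funext z
    rw [db_sub (hFd z) differentiableAt_fun_id, db_id, sub_zero]
  have hdz : ∀ z, dz F z = 1 + dz (fun z => F z - z) z := by
    intro z
    rw [dz_sub (hFd z) differentiableAt_fun_id, dz_id]
    ring
  have hmo : Mo (dz (fun z => F z - z)) (21 * a) := by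
    refine btc_mo hD (R := R) (fun z hz => ?_) hM ?_
    · rw [hdb]
      exact hs z hz
    · rw [hdb]
      exact h
  have hcf : Continuous (db F) := cont_db hF
  have hcD : Continuous (dz (fun z => F z - z)) := cont_dz hD
  have hcF : Continuous (dz F) := cont_dz hF
  have hsR : 0 ≤ √R := Real.sqrt_nonneg R
  refine ⟨by positivity, fun x r hr => ?_⟩
  obtain ⟨S, hS⟩ : ∃ S : Set ℂ, S = Metric.ball x r ∩ Metric.ball (0 : ℂ) R := ⟨_, rfl⟩
  have hSm : MeasurableSet S := by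
    rw [hS]
    exact Metric.isOpen_ball.measurableSet.inter Metric.isOpen_ball.measurableSet
  have hSi : ∀ g : ℂ → ℝ, Continuous g → IntegrableOn g S := fun g hg => by
    rw [hS]
    exact (lay_iob hg x r).mono_set Set.inter_subset_left
  -- reduction to `S`
  have e1 : ∫ w in Metric.ball x r, ‖db F w‖ ^ 2 = ∫ w in S, ‖db F w‖ ^ 2 := by
    refine setIntegral_eq_of_subset_of_forall_sdiff_eq_zero Metric.isOpen_ball.measurableSet
      (by rw [hS]; exact Set.inter_subset_left) fun w hw => ?_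
    have h1 : w ∉ Metric.ball (0 : ℂ) R := fun h2 => hw.2 (by rw [hS]; exact ⟨hw.1, h2⟩)
    rw [Metric.mem_ball, dist_zero_right, not_lt] at h1
    rw [hs w h1, norm_zero]
    norm_num
  have e2 : ∫ w in S, ‖db F w‖ ^ 2 ≤
      ∫ w in S, δ ^ 2 * (1 + ‖dz (fun z => F z - z) w‖) ^ 2 := by
    refine setIntegral_mono_on (hSi _ (hcf.norm.pow 2))
      (hSi _ (continuous_const.mul ((continuous_const.add hcD.norm).pow 2))) hSm fun w _ => ?_
    have h1 : ‖db F w‖ ≤ δ * (1 + ‖dz (fun z => F z - z) w‖) := by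
      refine (hb w).trans (mul_le_mul_of_nonneg_left ?_ hδ)
      rw [hdz w]
      refine (norm_add_le _ _).trans ?_
      rw [norm_one]
    rw [← mul_pow]
    exact pow_le_pow_left₀ (norm_nonneg _) h1 2
  obtain ⟨V, hV⟩ : ∃ V : ℝ, V = ∫ _w in S, (1 : ℝ) := ⟨_, rfl⟩
  obtain ⟨W, hW⟩ : ∃ W : ℝ, W = ∫ w in S, ‖dz (fun z => F z - z) w‖ := ⟨_, rfl⟩
  obtain ⟨U, hU⟩ : ∃ U : ℝ, U = ∫ w in S, ‖dz (fun z => F z - z) w‖ ^ 2 := ⟨_, rfl⟩
  have e3 : ∫ w in S, δ ^ 2 * (1 + ‖dz (fun z => F z - z) w‖) ^ 2 =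
      δ ^ 2 * (V + 2 * W + U) := by
    rw [integral_const_mul, hV, hW, hU]
    congr 1
    have i1 : IntegrableOn (fun _ : ℂ => (1 : ℝ)) S := hSi _ continuous_const
    have i2 : IntegrableOn (fun w => 2 * ‖dz (fun z => F z - z) w‖) S :=
      hSi _ (continuous_const.mul hcD.norm)
    have i3 : IntegrableOn (fun w => ‖dz (fun z => F z - z) w‖ ^ 2) S := hSi _ (hcD.norm.pow 2)
    have i4 : IntegrableOn (fun w => 1 + 2 * ‖dz (fun z => F z - z) w‖) S := i1.add i2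
    rw [← integral_const_mul 2 (fun w => ‖dz (fun z => F z - z) w‖),
      ← integral_add i1 i2, ← integral_add i4 i3]
    refine integral_congr_ae (Eventually.of_forall fun w => ?_)
    show (1 + ‖dz (fun z => F z - z) w‖) ^ 2 = _
    ring
  have hV1 : V ≤ 4 * (r * R) := by
    rw [hV, hS]
    exact apr_vol hR x hr
  have hV0 : 0 ≤ V := by
    rw [hV]
    exact integral_nonneg fun _ => zero_le_one
  have hW0 : 0 ≤ W := by
    rw [hW]
    exact integral_nonneg fun _ => norm_nonneg _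
  have hU0 : 0 ≤ U := by
    rw [hU]
    exact integral_nonneg fun _ => by positivity
  have hU1 : U ≤ (21 * a) ^ 2 * r := by
    rw [hU]
    refine le_trans (setIntegral_mono_set (lay_iob (hcD.norm.pow 2) x r)
      (Eventually.of_forall fun w => by positivity) (LE.le.eventuallyLE ?_)) (hmo.2 x r hr)
    rw [hS]
    exact Set.inter_subset_left
  have hcs : W ^ 2 ≤ U * V := by
    have h1 := lay_cs (volume.restrict S) (a := fun w => ‖dz (fun z => F z - z) w‖)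
      (b := fun _ => (1 : ℝ)) (hSi _ (hcD.norm.pow 2)) (hSi _ (continuous_const.pow 2))
      (hSi _ (hcD.norm.mul continuous_const))
    simp only [mul_one, one_pow] at h1
    rw [hU, hV, hW]
    exact h1
  obtain ⟨ρ, hρ⟩ : ∃ ρ : ℝ, ρ = √r := ⟨_, rfl⟩
  obtain ⟨P, hP⟩ : ∃ P : ℝ, P = √R := ⟨_, rfl⟩
  have hρ0 : 0 ≤ ρ := by
    rw [hρ]
    exact Real.sqrt_nonneg r
  have hP0 : 0 ≤ P := by
    rw [hP]
    exact hsR
  have hρ2 : ρ ^ 2 = r := by
    rw [hρ]
    exact Real.sq_sqrt hr.le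
  have hP2 : P ^ 2 = R := by
    rw [hP]
    exact Real.sq_sqrt hR.le
  rw [← hP]
  have hV2 : V ≤ (2 * P * ρ) ^ 2 := by
    refine hV1.trans (le_of_eq ?_)
    rw [← hρ2, ← hP2]
    ring
  have hU2 : U ≤ (21 * a * ρ) ^ 2 := by
    refine hU1.trans (le_of_eq ?_)
    rw [← hρ2]
    ring
  have hW2 : W ≤ (2 * P * ρ) * (21 * a * ρ) := by
    refine abs_le_of_sq_le_sq' ?_ (by positivity) |>.2
    refine hcs.trans ?_
    calc U * V ≤ (21 * a * ρ) ^ 2 * (2 * P * ρ) ^ 2 := mul_le_mul hU2 hV2 hV0 (by positivity)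
      _ = ((2 * P * ρ) * (21 * a * ρ)) ^ 2 := by ring
  rw [e1]
  refine e2.trans ?_
  rw [e3]
  calc δ ^ 2 * (V + 2 * W + U)
      ≤ δ ^ 2 * ((2 * P * ρ) ^ 2 + 2 * ((2 * P * ρ) * (21 * a * ρ)) + (21 * a * ρ) ^ 2) := by
        refine mul_le_mul_of_nonneg_left ?_ (by positivity)
        linarith
    _ = (δ * (2 * P + 21 * a)) ^ 2 * ρ ^ 2 := by ring
    _ = (δ * (2 * P + 21 * a)) ^ 2 * r := by rw [hρ2]

theorem apr_mono {f : ℂ → ℂ} {a b : ℝ} (h : Mo f a) (hab : a ≤ b) : Mo f b := by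
  have ha := h.1
  refine ⟨ha.trans hab, fun x r hr => (h.2 x r hr).trans ?_⟩
  have h1 : a ^ 2 ≤ b ^ 2 := pow_le_pow_left₀ ha hab 2
  exact mul_le_mul_of_nonneg_right h1 hr.le

theorem apr_mo {R δ : ℝ} (hR : 1 ≤ R) (hδ : 0 ≤ δ) (hδ1 : 42 * δ ≤ 1) {F : ℂ → ℂ}
    (hF : ContDiff ℝ 1 F) {M : ℝ} (hM : ∀ z, ‖F z - z‖ ≤ M) (hs : ∀ z, R ≤ ‖z‖ → db F z = 0)
    (hb : ∀ z, ‖db F z‖ ≤ δ * ‖dz F z‖) : Mo (db F) (4 * δ * √R) := by
  have hR0 : 0 < R := by linarith
  obtain ⟨a, ha⟩ := mo_ex (⟨cont_db hF, hs⟩ : Cf R (db F))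
  obtain ⟨c, hc⟩ : ∃ c : ℝ, c = 2 * δ * √R / (1 - 21 * δ) := ⟨_, rfl⟩
  have h1 : 0 < 1 - 21 * δ := by linarith
  have hc1 : c * (1 - 21 * δ) = 2 * δ * √R := by
    rw [hc, div_mul_cancel₀ _ h1.ne']
  have hsR : 0 ≤ √R := Real.sqrt_nonneg R
  have hit : ∀ n : ℕ, Mo (db F) (c + (21 * δ) ^ n * (a - c)) := by
    intro n
    induction n with
    | zero =>
      have : c + (21 * δ) ^ 0 * (a - c) = a := by ring
      rw [this]
      exact ha
    | succ n ih =>
      have h2 := apr_step hR0 hδ hF hM hs hb ih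
      have h3 : c + (21 * δ) ^ (n + 1) * (a - c) =
          δ * (2 * √R + 21 * (c + (21 * δ) ^ n * (a - c))) := by
        rw [pow_succ]
        linear_combination hc1
      rw [h3]
      exact h2
  have hlim : Tendsto (fun n : ℕ => c + (21 * δ) ^ n * (a - c)) atTop (𝓝 c) := by
    have h2 := (tendsto_pow_atTop_nhds_zero_of_lt_one (r := 21 * δ) (by linarith)
      (by linarith)).mul_const (a - c)
    have h3 := h2.const_add c
    rw [zero_mul, add_zero] at h3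
    exact h3
  refine apr_mono (mo_lim hit hlim) ?_
  rw [hc, div_le_iff₀ h1]
  have h4 : 0 ≤ δ * √R := mul_nonneg hδ hsR
  nlinarith

theorem apr_est {R δ : ℝ} (hR : 1 ≤ R) (hδ : 0 ≤ δ) (hδ1 : 42 * δ ≤ 1) {F : ℂ → ℂ}
    (hF : ContDiff ℝ 1 F) (hi : Tendsto (fun z => F z - z) (cocompact ℂ) (𝓝 0))
    (hs : ∀ z, R ≤ ‖z‖ → db F z = 0) (hb : ∀ z, ‖db F z‖ ≤ δ * ‖dz F z‖) :
    (∀ z, F z = z + Ct (db F) z) ∧ Mo (db F) (4 * δ * √R) ∧ Est (40 * R * δ) F := by
  have hR0 : 0 < R := by linarith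
  have hD : ContDiff ℝ 1 (fun z => F z - z) := hF.sub contDiff_id
  have hFd : Differentiable ℝ F := hF.differentiable (by norm_num)
  have hdb : db (fun z => F z - z) = db F := by
    funext z
    rw [db_sub (hFd z) differentiableAt_fun_id, db_id, sub_zero]
  obtain ⟨M, hM⟩ := rep_bdd hD.continuous hi
  have hmo := apr_mo hR hδ hδ1 hF hM hs hb
  have hcf : Cf R (db F) := ⟨cont_db hF, hs⟩
  obtain ⟨c, hc⟩ := rep0 hD (R := R) (fun z hz => by rw [hdb]; exact hs z hz) hM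
  rw [hdb] at hc
  have hc0 : c = 0 := by
    have h1 : Tendsto (fun z => (F z - z) - Ct (db F) z) (cocompact ℂ) (𝓝 (0 - 0)) :=
      hi.sub (ct_inf hcf)
    have h2 : (fun z => (F z - z) - Ct (db F) z) = fun _ => c := by
      funext z
      rw [hc z]
      ring
    rw [h2, sub_zero] at h1
    exact tendsto_nhds_unique tendsto_const_nhds h1
  have hrep : ∀ z, F z = z + Ct (db F) z := by
    intro z
    have h1 := hc z
    rw [hc0, zero_add] at h1
    rw [← h1]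
    ring
  have hP0 : 0 ≤ √R := Real.sqrt_nonneg R
  have hP2 : √R * √R = R := Real.mul_self_sqrt hR0.le
  have hP1 : √R ≤ R := by
    rw [Real.sqrt_le_left hR0.le]
    nlinarith
  have hRδ : 0 ≤ R * δ := mul_nonneg hR0.le hδ
  refine ⟨hrep, hmo, fun z => ?_, fun z w => ?_⟩
  · have h1 : F z - z = Ct (db F) z := by
      rw [hrep z]
      ring
    rw [h1]
    refine (ct_sup0 hcf hR0 hmo z).trans ?_
    calc 4 * (4 * δ * √R) * √R = 16 * δ * (√R * √R) := by ring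
      _ = 16 * (R * δ) := by rw [hP2]; ring
      _ ≤ 40 * R * δ := by nlinarith
  · have h1 : F z - F w = (z - w) + (Ct (db F) z - Ct (db F) w) := by
      rw [hrep z, hrep w]
      ring
    have h2 := ct_hol hcf hmo z w
    rw [h1]
    refine (norm_add_le _ _).trans ?_
    have h3 : 10 * (4 * δ * √R) * √‖z - w‖ ≤ 40 * R * δ * √‖z - w‖ := by
      refine mul_le_mul_of_nonneg_right ?_ (Real.sqrt_nonneg _)
      nlinarith
    linarith

end H73.BR
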