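import Pool.Agent.H73.BR.Iso
import Pool.Agent.H73.BR.Lay

set_option autoImplicit false

/-! # [H73 BR MOB] The Beurling transform and the Morrey condition

Fix the disc `B(x,r)`. Let `χ` be a smooth real cutoff, `0 ≤ χ ≤ 1`, `χ = 1` on `B(x,2r)`, `χ = 0` outside of `B(x,3r)`
(`ContDiffBump x` with radii `2r`, `3r`), `f1 = χ f`, `f2 = (1-χ) f`: test functions (`Tf R`), `Bt f = Bt f1 + Bt f2`.
`∫_{B(x,r)} ‖Bt f1‖² ≤ ∫ ‖f1‖² ≤ ∫_{B(x,3r)} ‖f‖² ≤ 3 A² r` (`bt_int`). For `z ∈ B(x,r)` the function `f2` vanishes on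
`B(z,r)`, so `‖Bt f2 z‖ ≤ ∫ ‖f2‖/‖z-w‖² ≤ ∫_{B(z,r)ᶜ} ‖f‖/‖z-w‖² ≤ 8 A/√r` (`bt_off`, `lay_far`), and
`∫_{B(x,r)} ‖Bt f2‖² ≤ π r² 64 A²/r ≤ 202 A² r`. So the total is at most `2 (3 + 202) A² r ≤ 21² A² r`. -/

namespace H73.BR

open MeasureTheory Complex Filter Topology
open scoped ContDiff

private theorem mob_add {R : ℝ} {f g : ℂ → ℂ} (hf : Tf R f) (hg : Tf R g) (z : ℂ) :
    Bt (fun w => f w + g w) z = Bt f z + Bt g z := by
  have h1 : Ct (fun w => f w + g w) = fun w => Ct f w + Ct g w :=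
    funext fun w => ct_add hf.cf hg.cf w
  unfold Bt
  rw [h1]
  exact dz_add ((ct_smooth hf).differentiable (by simp) z)
    ((ct_smooth hg).differentiable (by simp) z)

private theorem mob_on {g : ℂ → ℂ} (hg : Continuous g) (x : ℂ) (r : ℝ) :
    IntegrableOn (fun w => ‖g w‖ ^ 2) (Metric.ball x r) :=
  ((hg.norm.pow 2).continuousOn.integrableOn_compact
    (isCompact_closedBall x r)).mono_set Metric.ball_subset_closedBall

private theorem mob_near {R : ℝ} {f f1 : ℂ → ℂ} (hf : Tf R f) (hf1 : Tf R f1) {A : ℝ} (h : Mo f A)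
    (x : ℂ) {r : ℝ} (hr : 0 < r) (h1 : ∀ w, ‖f1 w‖ ≤ ‖f w‖)
    (h2 : ∀ w, w ∉ Metric.ball x (3 * r) → f1 w = 0) :
    ∫ w in Metric.ball x r, ‖Bt f1 w‖ ^ 2 ≤ 3 * (A ^ 2 * r) := by
  obtain ⟨hi, he⟩ := bt_int hf1
  have h3 : ∫ w in Metric.ball x r, ‖Bt f1 w‖ ^ 2 ≤ ∫ w, ‖Bt f1 w‖ ^ 2 :=
    setIntegral_le_integral hi (Filter.Eventually.of_forall fun w => sq_nonneg _)
  have h4 : ∫ w, ‖f1 w‖ ^ 2 = ∫ w in Metric.ball x (3 * r), ‖f1 w‖ ^ 2 := by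
    rw [setIntegral_eq_integral_of_forall_compl_eq_zero]
    intro w hw
    rw [h2 w hw, norm_zero]
    norm_num
  have h5 : ∫ w in Metric.ball x (3 * r), ‖f1 w‖ ^ 2 ≤ ∫ w in Metric.ball x (3 * r), ‖f w‖ ^ 2 :=
    setIntegral_mono_on (mob_on hf1.cf.cont x _) (mob_on hf.cf.cont x _)
      Metric.isOpen_ball.measurableSet fun w _ => pow_le_pow_left₀ (norm_nonneg _) (h1 w) 2
  have h6 := h.2 x (3 * r) (by linarith)
  calc ∫ w in Metric.ball x r, ‖Bt f1 w‖ ^ 2 ≤ ∫ w, ‖Bt f1 w‖ ^ 2 := h3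
    _ = ∫ w in Metric.ball x (3 * r), ‖f1 w‖ ^ 2 := he.trans h4
    _ ≤ A ^ 2 * (3 * r) := h5.trans h6
    _ = 3 * (A ^ 2 * r) := by ring

private theorem mob_far {R : ℝ} {f f2 : ℂ → ℂ} (hf : Tf R f) (hf2 : Tf R f2) {A : ℝ} (h : Mo f A)
    (x : ℂ) {r : ℝ} (hr : 0 < r) (h1 : ∀ w, ‖f2 w‖ ≤ ‖f w‖)
    (h2 : ∀ w, w ∈ Metric.ball x (2 * r) → f2 w = 0) :
    ∫ w in Metric.ball x r, ‖Bt f2 w‖ ^ 2 ≤ 202 * (A ^ 2 * r) := by
  have hA := h.1
  have h3 : ∀ z ∈ Metric.ball x r, ‖Bt f2 z‖ ^ 2 ≤ 64 * A ^ 2 / r := by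
    intro z hz
    have h4 : ∀ w, ‖z - w‖ < r → f2 w = 0 := by
      intro w hw
      apply h2
      rw [Metric.mem_ball, dist_eq_norm] at hz ⊢
      have h5 : ‖w - x‖ ≤ ‖z - x‖ + ‖z - w‖ := by
        have e : w - x = (z - x) - (z - w) := by ring
        rw [e]
        exact norm_sub_le _ _
      linarith
    obtain ⟨hi, hb⟩ := bt_off hf2 hr h4
    obtain ⟨hi', hb'⟩ := lay_far hf.cf h z hr
    have h5 : ∫ w, ‖f2 w‖ / ‖z - w‖ ^ 2 = ∫ w in (Metric.ball z r)ᶜ, ‖f2 w‖ / ‖z - w‖ ^ 2 := by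
      rw [setIntegral_eq_integral_of_forall_compl_eq_zero]
      intro w hw
      rw [Set.mem_compl_iff, not_not, Metric.mem_ball, dist_comm, dist_eq_norm] at hw
      rw [h4 w hw, norm_zero, zero_div]
    have h6 : ∫ w in (Metric.ball z r)ᶜ, ‖f2 w‖ / ‖z - w‖ ^ 2 ≤
        ∫ w in (Metric.ball z r)ᶜ, ‖f w‖ / ‖z - w‖ ^ 2 :=
      setIntegral_mono_on hi.integrableOn hi' Metric.isOpen_ball.measurableSet.compl
        fun w _ => div_le_div_of_nonneg_right (h1 w) (by positivity)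
    have h7 : ‖Bt f2 z‖ ≤ 8 * A / √r := by linarith
    calc ‖Bt f2 z‖ ^ 2 ≤ (8 * A / √r) ^ 2 := pow_le_pow_left₀ (norm_nonneg _) h7 2
      _ = 64 * A ^ 2 / r := by
          rw [div_pow, Real.sq_sqrt hr.le]
          ring
  have hvol : (volume.real (Metric.ball x r)) = Real.pi * r ^ 2 := by
    rw [measureReal_def, Complex.volume_ball, ENNReal.toReal_mul, ENNReal.toReal_pow,
      ENNReal.toReal_ofReal hr.le]
    rw [mul_comm]
    rfl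
  have h4 : ∫ w in Metric.ball x r, ‖Bt f2 w‖ ^ 2 ≤ ∫ _w in Metric.ball x r, 64 * A ^ 2 / r := by
    refine setIntegral_mono_on (mob_on (bt_smooth hf2).continuous x r) ?_
      Metric.isOpen_ball.measurableSet h3
    exact integrableOn_const measure_ball_lt_top.ne (by simp)
  rw [setIntegral_const, hvol, smul_eq_mul] at h4
  have h5 : Real.pi * r ^ 2 * (64 * A ^ 2 / r) = 64 * Real.pi * (A ^ 2 * r) := by
    field_simp
  rw [h5] at h4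
  refine h4.trans ?_
  apply mul_le_mul_of_nonneg_right _ (by positivity)
  linarith [Real.pi_lt_d2]

theorem bt_mo {R : ℝ} {f : ℂ → ℂ} (hf : Tf R f) {A : ℝ} (h : Mo f A) : Mo (Bt f) (21 * A) := by
  have hA := h.1
  refine ⟨by linarith, fun x r hr => ?_⟩
  let χ : ContDiffBump x := ⟨2 * r, 3 * r, by linarith, by linarith⟩
  have hχ : ContDiff ℝ ∞ fun w : ℂ => ((χ w : ℝ) : ℂ) :=
    Complex.ofRealCLM.contDiff.comp χ.contDiff
  have hχ' : ContDiff ℝ ∞ fun w : ℂ => 1 - ((χ w : ℝ) : ℂ) := contDiff_const.sub hχ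
  obtain ⟨f1, hf1e⟩ : ∃ f1 : ℂ → ℂ, f1 = fun w => f w * ((χ w : ℝ) : ℂ) := ⟨_, rfl⟩
  obtain ⟨f2, hf2e⟩ : ∃ f2 : ℂ → ℂ, f2 = fun w => f w * (1 - ((χ w : ℝ) : ℂ)) := ⟨_, rfl⟩
  have hf1 : Tf R f1 := by rw [hf1e]; exact hf.mul hχ
  have hf2 : Tf R f2 := by rw [hf2e]; exact hf.mul hχ'
  have hsum : f = fun w => f1 w + f2 w := by
    funext w
    rw [hf1e, hf2e]
    ring
  have h1 : ∀ w, ‖f1 w‖ ≤ ‖f w‖ := by
    intro w
    rw [hf1e]
    change ‖f w * ((χ w : ℝ) : ℂ)‖ ≤ ‖f w‖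
    rw [norm_mul, Complex.norm_real, Real.norm_of_nonneg χ.nonneg]
    exact mul_le_of_le_one_right (norm_nonneg _) χ.le_one
  have h2 : ∀ w, ‖f2 w‖ ≤ ‖f w‖ := by
    intro w
    rw [hf2e]
    change ‖f w * (1 - ((χ w : ℝ) : ℂ))‖ ≤ ‖f w‖
    have e : (1 : ℂ) - ((χ w : ℝ) : ℂ) = ((1 - χ w : ℝ) : ℂ) := by push_cast; rfl
    rw [norm_mul, e, Complex.norm_real,
      Real.norm_of_nonneg (by linarith [χ.le_one (x := w)])]
    exact mul_le_of_le_one_right (norm_nonneg _) (by linarith [χ.nonneg (x := w)])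
  have h3 : ∀ w, w ∉ Metric.ball x (3 * r) → f1 w = 0 := by
    intro w hw
    have h4 : χ w = 0 := by
      apply χ.zero_of_le_dist
      rw [Metric.mem_ball, not_lt] at hw
      exact hw
    rw [hf1e]
    change f w * ((χ w : ℝ) : ℂ) = 0
    rw [h4]
    simp
  have h4 : ∀ w, w ∈ Metric.ball x (2 * r) → f2 w = 0 := by
    intro w hw
    have h5 : χ w = 1 := by
      apply χ.one_of_mem_closedBall
      exact Metric.ball_subset_closedBall hw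
    rw [hf2e]
    change f w * (1 - ((χ w : ℝ) : ℂ)) = 0
    rw [h5]
    simp
  have h5 := mob_near hf hf1 h x hr h1 h3
  have h6 := mob_far hf hf2 h x hr h2 h4
  have h7 : ∀ z, ‖Bt f z‖ ^ 2 ≤ 2 * ‖Bt f1 z‖ ^ 2 + 2 * ‖Bt f2 z‖ ^ 2 := by
    intro z
    have h8 : Bt f z = Bt f1 z + Bt f2 z := by
      rw [hsum]
      exact mob_add hf1 hf2 z
    rw [h8]
    have h9 := norm_add_le (Bt f1 z) (Bt f2 z)
    nlinarith [norm_nonneg (Bt f1 z + Bt f2 z), norm_nonneg (Bt f1 z), norm_nonneg (Bt f2 z),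
      sq_nonneg (‖Bt f1 z‖ - ‖Bt f2 z‖)]
  have i1 := mob_on (bt_smooth hf1).continuous x r
  have i2 := mob_on (bt_smooth hf2).continuous x r
  have i3 : IntegrableOn (fun w => 2 * ‖Bt f1 w‖ ^ 2 + 2 * ‖Bt f2 w‖ ^ 2) (Metric.ball x r) :=
    (i1.const_mul 2).add (i2.const_mul 2)
  have h8 : ∫ w in Metric.ball x r, ‖Bt f w‖ ^ 2 ≤
      ∫ w in Metric.ball x r, (2 * ‖Bt f1 w‖ ^ 2 + 2 * ‖Bt f2 w‖ ^ 2) :=
    setIntegral_mono_on (mob_on (bt_smooth hf).continuous x r) i3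
      Metric.isOpen_ball.measurableSet fun z _ => h7 z
  have h9 : ∫ w in Metric.ball x r, (2 * ‖Bt f1 w‖ ^ 2 + 2 * ‖Bt f2 w‖ ^ 2) =
      2 * (∫ w in Metric.ball x r, ‖Bt f1 w‖ ^ 2) +
        2 * (∫ w in Metric.ball x r, ‖Bt f2 w‖ ^ 2) := by
    rw [← integral_const_mul, ← integral_const_mul]
    exact integral_add (i1.const_mul 2) (i2.const_mul 2)
  have h10 : 0 ≤ A ^ 2 * r := by positivity
  have h11 : (21 * A) ^ 2 * r = 441 * (A ^ 2 * r) := by ring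
  rw [h11]
  linarith

end H73.BR
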