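import Pool.Agent.H73.BR.Rep
import Pool.Agent.H73.BR.MoB

set_option autoImplicit false

/-! # [H73 BR BTC] `L²` and Morrey bounds for `C^1` functions whose `db` has compact support

Let `f = db D` (`Cf R f`), `f_j = Ml j f` (test functions, `Tf (R+1)`). By `rep_j` `Ml j (dz D) = Bt f_j`. `btc_l2`:
`∫ ‖Ml j (dz D)‖² = ∫ ‖f_j‖² ≤ ∫ ‖f‖²` (`bt_int`, `ml_l2`); Fatou (`lintegral_liminf_le`, `ml_lim`) gives the claim, also the
integrability. `btc_mo`: `∫_B ‖Ml j (dz D)‖² ≤ (21 A)² r` (`bt_mo`, `ml_mo`) and Fatou (or dominated convergence on the ball `B`, `ml_loc`). -/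

namespace H73.BR

open MeasureTheory Complex Filter Topology
open scoped ContDiff

/-- Fatou for squares of norms of continuous functions -/
theorem btc_fatou {μ : Measure ℂ} {G : ℕ → ℂ → ℂ} {g : ℂ → ℂ} (hG : ∀ j, Continuous (G j))
    (hg : Continuous g) (hi : ∀ j, Integrable (fun z => ‖G j z‖ ^ 2) μ)
    (hl : ∀ z, Tendsto (fun j => G j z) atTop (𝓝 (g z))) {K : ℝ} (hK0 : 0 ≤ K)
    (hK : ∀ j, ∫ z, ‖G j z‖ ^ 2 ∂μ ≤ K) :
    Integrable (fun z => ‖g z‖ ^ 2) μ ∧ ∫ z, ‖g z‖ ^ 2 ∂μ ≤ K := by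
  have hm : ∀ j, Measurable fun z => ENNReal.ofReal (‖G j z‖ ^ 2) := fun j =>
    ENNReal.measurable_ofReal.comp ((hG j).norm.pow 2).measurable
  have h1 := lintegral_liminf_le (μ := μ) (u := (atTop : Filter ℕ)) hm
  have h2 : ∀ z, liminf (fun j => ENNReal.ofReal (‖G j z‖ ^ 2)) atTop =
      ENNReal.ofReal (‖g z‖ ^ 2) := fun z => by
    refine Tendsto.liminf_eq ?_
    exact ENNReal.tendsto_ofReal ((hl z).norm.pow 2)
  have h3 : ∀ j, ∫⁻ z, ENNReal.ofReal (‖G j z‖ ^ 2) ∂μ ≤ ENNReal.ofReal K := fun j => by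
    rw [← ofReal_integral_eq_lintegral_ofReal (hi j) (Filter.Eventually.of_forall fun z => by
      positivity)]
    exact ENNReal.ofReal_le_ofReal (hK j)
  have h4 : liminf (fun j => ∫⁻ z, ENNReal.ofReal (‖G j z‖ ^ 2) ∂μ) atTop ≤ ENNReal.ofReal K := by
    calc liminf (fun j => ∫⁻ z, ENNReal.ofReal (‖G j z‖ ^ 2) ∂μ) atTop
        ≤ liminf (fun _ : ℕ => ENNReal.ofReal K) atTop :=
          Filter.liminf_le_liminf (Filter.Eventually.of_forall h3)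
      _ = ENNReal.ofReal K := Filter.liminf_const _
  simp only [h2] at h1
  have h5 : ∫⁻ z, ENNReal.ofReal (‖g z‖ ^ 2) ∂μ ≤ ENNReal.ofReal K := h1.trans h4
  have hgm : AEStronglyMeasurable (fun z => ‖g z‖ ^ 2) μ :=
    (hg.norm.pow 2).measurable.aestronglyMeasurable
  refine ⟨⟨hgm, ?_⟩, ?_⟩
  · rw [hasFiniteIntegral_iff_ofReal (Filter.Eventually.of_forall fun z => by positivity)]
    exact lt_of_le_of_lt h5 ENNReal.ofReal_lt_top
  · rw [integral_eq_lintegral_of_nonneg_ae (Filter.Eventually.of_forall fun z => by positivity) hgm]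
    exact ENNReal.toReal_le_of_le_ofReal hK0 h5

theorem btc_l2 {D : ℂ → ℂ} (hD : ContDiff ℝ 1 D) {R : ℝ} (hs : ∀ z, R ≤ ‖z‖ → db D z = 0)
    {M : ℝ} (hM : ∀ z, ‖D z‖ ≤ M) :
    Integrable (fun z => ‖dz D z‖ ^ 2) ∧ ∫ z, ‖dz D z‖ ^ 2 ≤ ∫ z, ‖db D z‖ ^ 2 := by
  have hf : Cf R (db D) := ⟨cont_db hD, hs⟩
  have he : ∀ j, Ml j (dz D) = Bt (Ml j (db D)) := fun j => funext (rep_j hD hs hM j).2
  refine btc_fatou (G := fun j => Ml j (dz D)) (fun j => (ml_smooth (cont_dz hD) j).continuous)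
    (cont_dz hD) (fun j => ?_) (fun z => ml_lim (cont_dz hD) z)
    (integral_nonneg fun z => by positivity) (fun j => ?_)
  · show Integrable (fun z => ‖Ml j (dz D) z‖ ^ 2) volume
    rw [he]
    exact (bt_int (ml_tf hf j)).1
  · show ∫ z, ‖Ml j (dz D) z‖ ^ 2 ≤ _
    rw [he, (bt_int (ml_tf hf j)).2]
    exact ml_l2 hf j

theorem btc_mo {D : ℂ → ℂ} (hD : ContDiff ℝ 1 D) {R : ℝ} (hs : ∀ z, R ≤ ‖z‖ → db D z = 0)
    {M : ℝ} (hM : ∀ z, ‖D z‖ ≤ M) {A : ℝ} (h : Mo (db D) A) : Mo (dz D) (21 * A) := by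
  have hf : Cf R (db D) := ⟨cont_db hD, hs⟩
  have he : ∀ j, Ml j (dz D) = Bt (Ml j (db D)) := fun j => funext (rep_j hD hs hM j).2
  have hA := h.1
  refine ⟨by positivity, fun x r hr => ?_⟩
  refine (btc_fatou (μ := (volume : Measure ℂ).restrict (Metric.ball x r))
    (G := fun j => Ml j (dz D)) (fun j => (ml_smooth (cont_dz hD) j).continuous)
    (cont_dz hD) (fun j => ?_) (fun z => ml_lim (cont_dz hD) z) (by positivity) (fun j => ?_)).2
  · show Integrable (fun z => ‖Ml j (dz D) z‖ ^ 2) _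
    rw [he]
    exact (bt_int (ml_tf hf j)).1.integrableOn
  · show ∫ z in Metric.ball x r, ‖Ml j (dz D) z‖ ^ 2 ≤ _
    rw [he]
    exact (bt_mo (ml_tf hf j) (ml_mo hf j h)).2 x r hr

end H73.BR
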