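import Pool.Agent.H73.BR.CtA
import Pool.Agent.H73.BR.CtB

set_option autoImplicit false

/-! # [H73 BR BTO] The Beurling transform away from the support

`bt_off`: near `z` the smooth function `Ct f` has `db = f = 0`, so it is holomorphic with the derivative `dz (Ct f) z = Bt f z`
(`hol_of_db`); the difference quotient is, by `ct_eq`, `-(1/π) ∫ f w / ((z + h - w)(z - w))`, of norm at most
`(1/π) (1 - ‖h‖/s)⁻¹ ∫ ‖f w‖/‖z - w‖²` (`‖z + h - w‖ ≥ (1 - ‖h‖/s) ‖z - w‖` where `f w ≠ 0`, as `s ≤ ‖z - w‖`); let `h → 0`.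
The integrand `‖f w‖/‖z-w‖²` is bounded, measurable with compact support, hence integrable.
`bt_far`: `bt_off` with `s = ‖z‖ - R`, `‖z - w‖ ≥ ‖z‖ - R`. `bt_inf`: from `bt_far`. -/

namespace H73.BR

open MeasureTheory Complex Filter Topology
open scoped ContDiff

/-- integrability of the kernel away from the support -/
theorem bto_int {R s : ℝ} {f : ℂ → ℂ} (hf : Tf R f) {z : ℂ} (hs : 0 < s)
    (h : ∀ w, ‖z - w‖ < s → f w = 0) : Integrable (fun w => ‖f w‖ / ‖z - w‖ ^ 2) := by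
  have hc : Continuous f := hf.smooth.continuous
  have hm : Measurable (fun w : ℂ => ‖f w‖ / ‖z - w‖ ^ 2) :=
    hc.norm.measurable.div ((continuous_const.sub continuous_id).norm.pow 2).measurable
  refine Integrable.mono' (hf.cf.int.norm.div_const (s ^ 2)) hm.aestronglyMeasurable
    (Filter.Eventually.of_forall fun w => ?_)
  rw [Real.norm_of_nonneg (by positivity)]
  by_cases hw : f w = 0
  · rw [hw, norm_zero, zero_div, zero_div]
  · have h1 : s ≤ ‖z - w‖ := by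
      by_contra h2
      exact hw (h w (not_le.1 h2))
    have h3 : s ^ 2 ≤ ‖z - w‖ ^ 2 := pow_le_pow_left₀ hs.le h1 2
    exact div_le_div_of_nonneg_left (norm_nonneg _) (by positivity) h3

/-- the difference quotient -/
theorem bto_slope {R s : ℝ} {f : ℂ → ℂ} (hf : Tf R f) {z : ℂ} (hs : 0 < s)
    (h : ∀ w, ‖z - w‖ < s → f w = 0) {t : ℂ} (ht : t ≠ 0) (hts : ‖t‖ < s) :
    ‖t⁻¹ • (Ct f (z + t) - Ct f z)‖ ≤ (1 - ‖t‖ / s)⁻¹ * ∫ w, ‖f w‖ / ‖z - w‖ ^ 2 := by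
  have hq : 0 < 1 - ‖t‖ / s := by
    rw [sub_pos, div_lt_one hs]; exact hts
  obtain ⟨i1, e1⟩ := ct_eq hf.cf (z + t)
  obtain ⟨i2, e2⟩ := ct_eq hf.cf z
  have e3 : Ct f (z + t) - Ct f z
      = (1 / (Real.pi : ℂ)) * ∫ w : ℂ, (f w / (z + t - w) - f w / (z - w)) := by
    rw [integral_sub i1 i2, e1, e2]; ring
  have hb : ‖∫ w : ℂ, (f w / (z + t - w) - f w / (z - w))‖
      ≤ ∫ w : ℂ, (‖t‖ * (1 - ‖t‖ / s)⁻¹) * (‖f w‖ / ‖z - w‖ ^ 2) := by
    refine norm_integral_le_of_norm_le ((bto_int hf hs h).const_mul _)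
      (Filter.Eventually.of_forall fun w => ?_)
    by_cases hw : f w = 0
    · simp [hw]
    · have h1 : s ≤ ‖z - w‖ := by
        by_contra h2
        exact hw (h w (not_le.1 h2))
      have hpos : 0 < ‖z - w‖ := lt_of_lt_of_le hs h1
      have hzw : z - w ≠ 0 := norm_pos_iff.1 hpos
      have h2 : (1 - ‖t‖ / s) * ‖z - w‖ ≤ ‖z + t - w‖ := by
        have h3 : ‖z - w‖ ≤ ‖z + t - w‖ + ‖t‖ := by
          have h4 : z - w = (z + t - w) - t := by ring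
          calc ‖z - w‖ = ‖(z + t - w) - t‖ := by rw [← h4]
            _ ≤ _ := norm_sub_le _ _
        have h5 : ‖t‖ ≤ ‖t‖ / s * ‖z - w‖ := by
          rw [div_mul_eq_mul_div, le_div_iff₀ hs]
          exact mul_le_mul_of_nonneg_left h1 (norm_nonneg _)
        nlinarith
      have hpos2 : 0 < ‖z + t - w‖ := lt_of_lt_of_le (mul_pos hq hpos) h2
      have hztw : z + t - w ≠ 0 := norm_pos_iff.1 hpos2
      have e4 : f w / (z + t - w) - f w / (z - w) = -(t * f w) / ((z + t - w) * (z - w)) := by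
        field_simp
        ring
      rw [e4, norm_div, norm_neg, norm_mul, norm_mul, div_le_iff₀ (mul_pos hpos2 hpos)]
      have h6 : (1 - ‖t‖ / s)⁻¹ * ‖z + t - w‖ ≥ ‖z - w‖ := by
        rw [ge_iff_le, ← div_eq_inv_mul, le_div_iff₀ hq]
        linarith
      have h7 : ‖t‖ * (1 - ‖t‖ / s)⁻¹ * (‖f w‖ / ‖z - w‖ ^ 2) * (‖z + t - w‖ * ‖z - w‖)
          = ‖t‖ * ‖f w‖ * (((1 - ‖t‖ / s)⁻¹ * ‖z + t - w‖) / ‖z - w‖) := by
        field_simp
      rw [h7]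
      have h8 : 1 ≤ ((1 - ‖t‖ / s)⁻¹ * ‖z + t - w‖) / ‖z - w‖ := by
        rw [le_div_iff₀ hpos]; linarith
      calc ‖t‖ * ‖f w‖ = ‖t‖ * ‖f w‖ * 1 := by ring
        _ ≤ _ := mul_le_mul_of_nonneg_left h8 (by positivity)
  have hI : 0 ≤ ∫ w, ‖f w‖ / ‖z - w‖ ^ 2 := integral_nonneg fun w => by positivity
  rw [integral_const_mul] at hb
  have hpi : ‖(1 / (Real.pi : ℂ))‖ ≤ 1 := by
    rw [norm_div, norm_one, Complex.norm_real, Real.norm_of_nonneg Real.pi_pos.le,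
      div_le_one Real.pi_pos]
    linarith [Real.pi_gt_three]
  have htp : 0 < ‖t‖ := norm_pos_iff.2 ht
  rw [e3, smul_eq_mul, norm_mul, norm_mul, norm_inv]
  calc ‖t‖⁻¹ * (‖(1 / (Real.pi : ℂ))‖ * ‖∫ w : ℂ, (f w / (z + t - w) - f w / (z - w))‖)
      ≤ ‖t‖⁻¹ * (1 * (‖t‖ * (1 - ‖t‖ / s)⁻¹ * ∫ w, ‖f w‖ / ‖z - w‖ ^ 2)) := by
        apply mul_le_mul_of_nonneg_left _ (by positivity)
        exact mul_le_mul hpi hb (norm_nonneg _) zero_le_one
    _ = (1 - ‖t‖ / s)⁻¹ * ∫ w, ‖f w‖ / ‖z - w‖ ^ 2 := by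
        field_simp

theorem bt_off {R s : ℝ} {f : ℂ → ℂ} (hf : Tf R f) {z : ℂ} (hs : 0 < s)
    (h : ∀ w, ‖z - w‖ < s → f w = 0) :
    Integrable (fun w => ‖f w‖ / ‖z - w‖ ^ 2) ∧ ‖Bt f z‖ ≤ ∫ w, ‖f w‖ / ‖z - w‖ ^ 2 := by
  refine ⟨bto_int hf hs h, ?_⟩
  have hz : f z = 0 := h z (by rw [sub_self, norm_zero]; exact hs)
  have hd : DifferentiableAt ℝ (Ct f) z :=
    (ct_smooth hf).differentiable (by simp) z
  have hder : HasDerivAt (Ct f) (dz (Ct f) z) z :=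
    hol_of_db hd (by rw [db_ct hf z, hz])
  have hsl := (hasDerivAt_iff_tendsto_slope_zero.1 hder).norm
  have hlim : Tendsto (fun t : ℂ => (1 - ‖t‖ / s)⁻¹ * ∫ w, ‖f w‖ / ‖z - w‖ ^ 2) (𝓝[≠] 0)
      (𝓝 (∫ w, ‖f w‖ / ‖z - w‖ ^ 2)) := by
    have h1 : Tendsto (fun t : ℂ => (1 - ‖t‖ / s)⁻¹ * ∫ w, ‖f w‖ / ‖z - w‖ ^ 2) (𝓝 0)
        (𝓝 ((1 - ‖(0 : ℂ)‖ / s)⁻¹ * ∫ w, ‖f w‖ / ‖z - w‖ ^ 2)) := by
      have h2 : ContinuousAt (fun t : ℂ => (1 - ‖t‖ / s)⁻¹ * ∫ w, ‖f w‖ / ‖z - w‖ ^ 2) 0 := by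
        refine ContinuousAt.mul (ContinuousAt.inv₀ ?_ ?_) continuousAt_const
        · exact (continuous_const.sub (continuous_norm.div_const s)).continuousAt
        · simp
      exact h2
    have e0 : (1 - ‖(0 : ℂ)‖ / s)⁻¹ * ∫ w, ‖f w‖ / ‖z - w‖ ^ 2 = ∫ w, ‖f w‖ / ‖z - w‖ ^ 2 := by
      simp
    rw [e0] at h1
    exact h1.mono_left nhdsWithin_le_nhds
  refine le_of_tendsto_of_tendsto hsl hlim ?_
  have hev : ∀ᶠ t : ℂ in 𝓝[≠] 0, ‖t‖ < s := by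
    have : ∀ᶠ t : ℂ in 𝓝 0, ‖t‖ < s := by
      have h3 := Metric.ball_mem_nhds (0 : ℂ) hs
      filter_upwards [h3] with t ht
      rwa [Metric.mem_ball, dist_zero_right] at ht
    exact this.filter_mono nhdsWithin_le_nhds
  filter_upwards [hev, self_mem_nhdsWithin] with t ht1 ht2
  exact bto_slope hf hs h ht2 ht1

theorem bt_far {R : ℝ} {f : ℂ → ℂ} (hf : Tf R f) {z : ℂ} (hz : R < ‖z‖) :
    ‖Bt f z‖ ≤ (∫ w, ‖f w‖) / (‖z‖ - R) ^ 2 := by
  have hs : 0 < ‖z‖ - R := by linarith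
  have h : ∀ w, ‖z - w‖ < ‖z‖ - R → f w = 0 := by
    intro w hw
    apply hf.supp
    have h1 : ‖z‖ ≤ ‖z - w‖ + ‖w‖ := by
      calc ‖z‖ = ‖(z - w) + w‖ := by rw [sub_add_cancel]
        _ ≤ _ := norm_add_le _ _
    linarith
  obtain ⟨h1, h2⟩ := bt_off hf hs h
  refine h2.trans ?_
  rw [← integral_div]
  refine integral_mono h1 (hf.cf.int.norm.div_const _) fun w => ?_
  show ‖f w‖ / ‖z - w‖ ^ 2 ≤ ‖f w‖ / (‖z‖ - R) ^ 2
  by_cases hw : f w = 0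
  · rw [hw, norm_zero, zero_div, zero_div]
  · have h3 : ‖z‖ - R ≤ ‖z - w‖ := by
      by_contra h4
      exact hw (h w (not_le.1 h4))
    exact div_le_div_of_nonneg_left (norm_nonneg _) (by positivity)
      (pow_le_pow_left₀ hs.le h3 2)

theorem bt_inf {R : ℝ} {f : ℂ → ℂ} (hf : Tf R f) : Tendsto (Bt f) (cocompact ℂ) (𝓝 0) := by
  rw [tendsto_zero_iff_norm_tendsto_zero]
  have hn : Tendsto (fun z : ℂ => ‖z‖) (cocompact ℂ) atTop := tendsto_norm_cocompact_atTop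
  have h1 : Tendsto (fun z : ℂ => (∫ w, ‖f w‖) / (‖z‖ - R) ^ 2) (cocompact ℂ) (𝓝 0) := by
    apply Tendsto.div_atTop tendsto_const_nhds
    have h2 : Tendsto (fun z : ℂ => ‖z‖ - R) (cocompact ℂ) atTop :=
      tendsto_atTop_add_const_right _ (-R) hn
    exact (tendsto_pow_atTop two_ne_zero).comp h2
  refine tendsto_of_tendsto_of_tendsto_of_le_of_le' tendsto_const_nhds h1
    (Filter.Eventually.of_forall fun z => norm_nonneg _) ?_
  filter_upwards [hn.eventually_gt_atTop R] with z hz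
  exact bt_far hf hz

end H73.BR
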