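import Pool.Agent.H73.BR.Def

set_option autoImplicit false

/-! # [H73 BR CAL] Calculus of the Wirtinger derivatives

`fd_eq`: `h = h.re • 1 + h.im • I` and real linearity (true also if `F` is not differentiable). The rules follow from
`fderiv_add`, `fderiv_mul`, `fderiv_comp`, `fd_eq`. `db_exp`: chain rule with `HasDerivAt.comp_hasFDerivAt`-type
lemma for `Complex.exp` restricted to real scalars. `hol_of_db`: by `fd_eq` `fderiv ℝ F z` is the multiplication by `dz F z`, so
`F` has the complex derivative `dz F z` (`HasDerivAt`, `hasFDerivAt_iff...`, restrict scalars). `cd_dz`: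
`ContDiff ℝ ∞` of `z ↦ fderiv ℝ F z v`. `supp_dz`: `F = 0` near `z` for `R < ‖z‖`, for `‖z‖ = R` by continuity of
`fderiv ℝ F` (`z` is a limit of points of larger norm; if `R < 0` everything vanishes, `R = 0`: `z = 0` is a limit of other points,
all fine), or use `F = 0` on `{R ≤ ‖w‖}` and that both directions `1`, `I`... (the first argument is simplest). -/

namespace H73.BR

open MeasureTheory Complex Filter Topology
open scoped ContDiff

private theorem dz_of {F : ℂ → ℂ} {z : ℂ} {L : ℂ →L[ℝ] ℂ} (h : HasFDerivAt F L z) :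
    dz F z = (1 / 2 : ℂ) * (L 1 - Complex.I * L Complex.I) := by
  unfold dz
  rw [h.fderiv]

private theorem db_of {F : ℂ → ℂ} {z : ℂ} {L : ℂ →L[ℝ] ℂ} (h : HasFDerivAt F L z) :
    db F z = (1 / 2 : ℂ) * (L 1 + Complex.I * L Complex.I) := by
  unfold db
  rw [h.fderiv]

private theorem hadd {F G : ℂ → ℂ} {z : ℂ} (hF : DifferentiableAt ℝ F z) (hG : DifferentiableAt ℝ G z) :
    HasFDerivAt (fun w => F w + G w) (fderiv ℝ F z + fderiv ℝ G z) z := hF.hasFDerivAt.add hG.hasFDerivAt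

private theorem hsub {F G : ℂ → ℂ} {z : ℂ} (hF : DifferentiableAt ℝ F z) (hG : DifferentiableAt ℝ G z) :
    HasFDerivAt (fun w => F w - G w) (fderiv ℝ F z - fderiv ℝ G z) z := hF.hasFDerivAt.sub hG.hasFDerivAt

private theorem hmul {F G : ℂ → ℂ} {z : ℂ} (hF : DifferentiableAt ℝ F z) (hG : DifferentiableAt ℝ G z) :
    HasFDerivAt (fun w => F w * G w) (F z • fderiv ℝ G z + G z • fderiv ℝ F z) z :=
  hF.hasFDerivAt.mul hG.hasFDerivAt

private theorem hconj {F : ℂ → ℂ} {z : ℂ} (hF : DifferentiableAt ℝ F z) :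
    HasFDerivAt (fun w => (starRingEnd ℂ) (F w))
      ((Complex.conjCLE : ℂ →L[ℝ] ℂ).comp (fderiv ℝ F z)) z :=
  (Complex.conjCLE : ℂ →L[ℝ] ℂ).hasFDerivAt.comp z hF.hasFDerivAt

private theorem hexp {F : ℂ → ℂ} {z : ℂ} (hF : DifferentiableAt ℝ F z) :
    HasFDerivAt (fun w => Complex.exp (F w)) (Complex.exp (F z) • fderiv ℝ F z) z :=
  hF.hasFDerivAt.cexp

private theorem hcomp {F G : ℂ → ℂ} {z : ℂ} (hF : DifferentiableAt ℝ F (G z)) (hG : DifferentiableAt ℝ G z) :
    HasFDerivAt (fun w => F (G w)) ((fderiv ℝ F (G z)).comp (fderiv ℝ G z)) z :=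
  hF.hasFDerivAt.comp z hG.hasFDerivAt

private theorem I2 : Complex.I * Complex.I = -1 := Complex.I_mul_I

theorem fd_eq (F : ℂ → ℂ) (z h : ℂ) :
    fderiv ℝ F z h = dz F z * h + db F z * (starRingEnd ℂ) h := by
  have h1 : fderiv ℝ F z h = (h.re : ℂ) * fderiv ℝ F z 1 + (h.im : ℂ) * fderiv ℝ F z Complex.I := by
    have h2 : h = h.re • (1 : ℂ) + h.im • Complex.I := by
      rw [Complex.real_smul, Complex.real_smul, mul_one, Complex.re_add_im]
    conv_lhs => rw [h2]
    rw [map_add, map_smul, map_smul, Complex.real_smul, Complex.real_smul]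
  have h3 : (starRingEnd ℂ) h = (h.re : ℂ) - (h.im : ℂ) * Complex.I := by
    apply Complex.ext <;> simp
  have h4 : h = (h.re : ℂ) + (h.im : ℂ) * Complex.I := (Complex.re_add_im h).symm
  rw [h1, h3]
  unfold dz db
  generalize fderiv ℝ F z 1 = a
  generalize fderiv ℝ F z Complex.I = b
  generalize hx : (h.re : ℂ) = x at *
  generalize hy : (h.im : ℂ) = y at *
  rw [h4]
  linear_combination (b * y) * I2

theorem fd_one (F : ℂ → ℂ) (z : ℂ) : fderiv ℝ F z 1 = dz F z + db F z := by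
  unfold dz db
  ring

theorem fd_I (F : ℂ → ℂ) (z : ℂ) : fderiv ℝ F z Complex.I = Complex.I * (dz F z - db F z) := by
  unfold dz db
  linear_combination (fderiv ℝ F z Complex.I) * I2

/-- a function with a real linear derivative of this form -/
theorem of_fd {F : ℂ → ℂ} {z a b : ℂ} (h1 : fderiv ℝ F z 1 = a + b)
    (h2 : fderiv ℝ F z Complex.I = Complex.I * (a - b)) : dz F z = a ∧ db F z = b := by
  unfold dz db
  rw [h1, h2]
  constructor
  · linear_combination (-(1 / 2 : ℂ) * (a - b)) * I2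
  · linear_combination ((1 / 2 : ℂ) * (a - b)) * I2

theorem dz_add {F G : ℂ → ℂ} {z : ℂ} (hF : DifferentiableAt ℝ F z) (hG : DifferentiableAt ℝ G z) :
    dz (fun w => F w + G w) z = dz F z + dz G z := by
  rw [dz_of (hadd hF hG)]
  unfold dz
  simp only [add_apply]
  ring

theorem db_add {F G : ℂ → ℂ} {z : ℂ} (hF : DifferentiableAt ℝ F z) (hG : DifferentiableAt ℝ G z) :
    db (fun w => F w + G w) z = db F z + db G z := by
  rw [db_of (hadd hF hG)]
  unfold db
  simp only [add_apply]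
  ring

theorem dz_sub {F G : ℂ → ℂ} {z : ℂ} (hF : DifferentiableAt ℝ F z) (hG : DifferentiableAt ℝ G z) :
    dz (fun w => F w - G w) z = dz F z - dz G z := by
  rw [dz_of (hsub hF hG)]
  unfold dz
  simp only [sub_apply]
  ring

theorem db_sub {F G : ℂ → ℂ} {z : ℂ} (hF : DifferentiableAt ℝ F z) (hG : DifferentiableAt ℝ G z) :
    db (fun w => F w - G w) z = db F z - db G z := by
  rw [db_of (hsub hF hG)]
  unfold db
  simp only [sub_apply]
  ring

theorem dz_mul {F G : ℂ → ℂ} {z : ℂ} (hF : DifferentiableAt ℝ F z) (hG : DifferentiableAt ℝ G z) :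
    dz (fun w => F w * G w) z = dz F z * G z + F z * dz G z := by
  rw [dz_of (hmul hF hG)]
  unfold dz
  simp only [add_apply, smul_apply, smul_eq_mul]
  ring

theorem db_mul {F G : ℂ → ℂ} {z : ℂ} (hF : DifferentiableAt ℝ F z) (hG : DifferentiableAt ℝ G z) :
    db (fun w => F w * G w) z = db F z * G z + F z * db G z := by
  rw [db_of (hmul hF hG)]
  unfold db
  simp only [add_apply, smul_apply, smul_eq_mul]
  ring

theorem dz_id (z : ℂ) : dz (fun w => w) z = 1 := by
  have h : HasFDerivAt (fun w : ℂ => w) (ContinuousLinearMap.id ℝ ℂ) z := hasFDerivAt_id z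
  rw [dz_of h]
  simp only [ContinuousLinearMap.id_apply]
  linear_combination -(1 / 2 : ℂ) * I2

theorem db_id (z : ℂ) : db (fun w => w) z = 0 := by
  have h : HasFDerivAt (fun w : ℂ => w) (ContinuousLinearMap.id ℝ ℂ) z := hasFDerivAt_id z
  rw [db_of h]
  simp only [ContinuousLinearMap.id_apply]
  linear_combination (1 / 2 : ℂ) * I2

theorem dz_const (c z : ℂ) : dz (fun _ => c) z = 0 := by
  rw [dz_of (hasFDerivAt_const c z)]
  simp

theorem db_const (c z : ℂ) : db (fun _ => c) z = 0 := by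
  rw [db_of (hasFDerivAt_const c z)]
  simp

theorem dz_conj {F : ℂ → ℂ} {z : ℂ} (hF : DifferentiableAt ℝ F z) :
    dz (fun w => (starRingEnd ℂ) (F w)) z = (starRingEnd ℂ) (db F z) := by
  rw [dz_of (hconj hF)]
  unfold db
  simp only [ContinuousLinearMap.comp_apply, ContinuousLinearEquiv.coe_coe, Complex.conjCLE_apply, map_mul,
    map_add, Complex.conj_I, map_div₀, map_one, map_ofNat]
  ring

theorem db_conj {F : ℂ → ℂ} {z : ℂ} (hF : DifferentiableAt ℝ F z) :
    db (fun w => (starRingEnd ℂ) (F w)) z = (starRingEnd ℂ) (dz F z) := by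
  rw [db_of (hconj hF)]
  unfold dz
  simp only [ContinuousLinearMap.comp_apply, ContinuousLinearEquiv.coe_coe, Complex.conjCLE_apply, map_mul,
    map_sub, Complex.conj_I, map_div₀, map_one, map_ofNat]
  ring

theorem dz_exp {F : ℂ → ℂ} {z : ℂ} (hF : DifferentiableAt ℝ F z) :
    dz (fun w => Complex.exp (F w)) z = Complex.exp (F z) * dz F z := by
  rw [dz_of (hexp hF)]
  unfold dz
  simp only [smul_apply, smul_eq_mul]
  ring

theorem db_exp {F : ℂ → ℂ} {z : ℂ} (hF : DifferentiableAt ℝ F z) :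
    db (fun w => Complex.exp (F w)) z = Complex.exp (F z) * db F z := by
  rw [db_of (hexp hF)]
  unfold db
  simp only [smul_apply, smul_eq_mul]
  ring

theorem dz_comp {F G : ℂ → ℂ} {z : ℂ} (hF : DifferentiableAt ℝ F (G z))
    (hG : DifferentiableAt ℝ G z) :
    dz (fun w => F (G w)) z =
      dz F (G z) * dz G z + db F (G z) * (starRingEnd ℂ) (db G z) := by
  rw [dz_of (hcomp hF hG)]
  simp only [ContinuousLinearMap.comp_apply]
  rw [fd_one G, fd_I G, fd_eq F, fd_eq F]
  simp only [map_add, map_mul, map_sub, Complex.conj_I]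
  generalize dz F (G z) = p
  generalize db F (G z) = q
  generalize dz G z = a
  generalize db G z = b
  generalize (starRingEnd ℂ) a = a'
  generalize (starRingEnd ℂ) b = b'
  linear_combination (-(1 / 2 : ℂ) * p * (a - b) + (1 / 2 : ℂ) * q * (a' - b')) * I2

theorem db_comp {F G : ℂ → ℂ} {z : ℂ} (hF : DifferentiableAt ℝ F (G z))
    (hG : DifferentiableAt ℝ G z) :
    db (fun w => F (G w)) z =
      dz F (G z) * db G z + db F (G z) * (starRingEnd ℂ) (dz G z) := by
  rw [db_of (hcomp hF hG)]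
  simp only [ContinuousLinearMap.comp_apply]
  rw [fd_one G, fd_I G, fd_eq F, fd_eq F]
  simp only [map_add, map_mul, map_sub, Complex.conj_I]
  generalize dz F (G z) = p
  generalize db F (G z) = q
  generalize dz G z = a
  generalize db G z = b
  generalize (starRingEnd ℂ) a = a'
  generalize (starRingEnd ℂ) b = b'
  linear_combination ((1 / 2 : ℂ) * p * (a - b) - (1 / 2 : ℂ) * q * (a' - b')) * I2

theorem hol_of_db {F : ℂ → ℂ} {z : ℂ} (hF : DifferentiableAt ℝ F z) (h : db F z = 0) :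
    HasDerivAt F (dz F z) z := by
  rw [hasDerivAt_iff_hasFDerivAt]
  refine hasFDerivAt_of_restrictScalars ℝ hF.hasFDerivAt ?_
  ext v
  rw [fd_eq F z v, h, zero_mul, add_zero]
  simp [mul_comm]

theorem db_of_hol {F : ℂ → ℂ} {z F' : ℂ} (h : HasDerivAt F F' z) : db F z = 0 ∧ dz F z = F' := by
  have h1 := (hasDerivAt_iff_hasFDerivAt.1 h).restrictScalars ℝ
  have h2 : fderiv ℝ F z 1 = F' + 0 := by
    rw [h1.fderiv]
    simp
  have h3 : fderiv ℝ F z Complex.I = Complex.I * (F' - 0) := by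
    rw [h1.fderiv]
    simp
  have h4 := of_fd h2 h3
  exact ⟨h4.2, h4.1⟩

theorem cont_dz {F : ℂ → ℂ} (hF : ContDiff ℝ 1 F) : Continuous (dz F) := by
  have hc : Continuous (fderiv ℝ F) := hF.continuous_fderiv (by simp)
  unfold dz
  exact continuous_const.mul ((hc.clm_apply continuous_const).sub (continuous_const.mul (hc.clm_apply continuous_const)))

theorem cont_db {F : ℂ → ℂ} (hF : ContDiff ℝ 1 F) : Continuous (db F) := by
  have hc : Continuous (fderiv ℝ F) := hF.continuous_fderiv (by simp)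
  unfold db
  exact continuous_const.mul ((hc.clm_apply continuous_const).add (continuous_const.mul (hc.clm_apply continuous_const)))

theorem cd_dz {F : ℂ → ℂ} (hF : ContDiff ℝ ∞ F) : ContDiff ℝ ∞ (dz F) := by
  have hc : ContDiff ℝ ∞ (fderiv ℝ F) := hF.fderiv_right (by simp)
  unfold dz
  exact contDiff_const.mul ((hc.clm_apply contDiff_const).sub (contDiff_const.mul (hc.clm_apply contDiff_const)))

theorem cd_db {F : ℂ → ℂ} (hF : ContDiff ℝ ∞ F) : ContDiff ℝ ∞ (db F) := by
  have hc : ContDiff ℝ ∞ (fderiv ℝ F) := hF.fderiv_right (by simp)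
  unfold db
  exact contDiff_const.mul ((hc.clm_apply contDiff_const).add (contDiff_const.mul (hc.clm_apply contDiff_const)))

private theorem fd_supp {R : ℝ} {f : ℂ → ℂ} (hf : Tf R f) (z : ℂ) (hz : R ≤ ‖z‖) : fderiv ℝ f z = 0 := by
  have hc : Continuous (fderiv ℝ f) := hf.smooth.continuous_fderiv (by simp)
  have h1 : ∀ w : ℂ, R < ‖w‖ → fderiv ℝ f w = 0 := by
    intro w hw
    have h2 : f =ᶠ[𝓝 w] fun _ => (0 : ℂ) := by
      have h3 : ∀ᶠ x in 𝓝 w, R < ‖x‖ := (isOpen_lt continuous_const continuous_norm).mem_nhds hw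
      exact h3.mono fun x hx => hf.supp x hx.le
    rw [h2.fderiv_eq]
    simp
  obtain ⟨u, hu, hzu⟩ : ∃ u : ℂ, ‖u‖ = 1 ∧ z = ‖z‖ • u := by
    by_cases h0 : z = 0
    · exact ⟨1, by simp, by simp [h0]⟩
    · refine ⟨(‖z‖)⁻¹ • z, ?_, ?_⟩
      · rw [norm_smul, norm_inv, norm_norm, inv_mul_cancel₀ (norm_ne_zero_iff.2 h0)]
      · rw [smul_smul, mul_inv_cancel₀ (norm_ne_zero_iff.2 h0), one_smul]
  have hg : Continuous (fun t : ℝ => fderiv ℝ f (z + t • u)) := hc.comp (by fun_prop)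
  have h4 : Tendsto (fun t : ℝ => fderiv ℝ f (z + t • u)) (𝓝[>] 0) (𝓝 (fderiv ℝ f z)) := by
    have h5 := hg.tendsto 0
    simp only [zero_smul, add_zero] at h5
    exact h5.mono_left nhdsWithin_le_nhds
  have h5 : Tendsto (fun t : ℝ => fderiv ℝ f (z + t • u)) (𝓝[>] 0) (𝓝 0) := by
    refine tendsto_const_nhds.congr' ?_
    filter_upwards [self_mem_nhdsWithin] with t ht
    have ht' : 0 < t := ht
    rw [h1]
    have h6 : z + t • u = (‖z‖ + t) • u := by rw [add_smul, ← hzu]
    rw [h6, norm_smul, hu, mul_one, Real.norm_of_nonneg (by positivity)]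
    linarith
  exact tendsto_nhds_unique h4 h5

private theorem dz_supp {R : ℝ} {f : ℂ → ℂ} (hf : Tf R f) (z : ℂ) (hz : R ≤ ‖z‖) : dz f z = 0 := by
  unfold dz
  rw [fd_supp hf z hz]
  simp

private theorem db_supp {R : ℝ} {f : ℂ → ℂ} (hf : Tf R f) (z : ℂ) (hz : R ≤ ‖z‖) : db f z = 0 := by
  unfold db
  rw [fd_supp hf z hz]
  simp

theorem Tf.dz {R : ℝ} {f : ℂ → ℂ} (hf : Tf R f) : Tf R (dz f) := by
  refine ⟨cd_dz hf.smooth, fun z hz => ?_⟩
  exact dz_supp hf z hz

theorem Tf.db {R : ℝ} {f : ℂ → ℂ} (hf : Tf R f) : Tf R (db f) := by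
  refine ⟨cd_db hf.smooth, fun z hz => ?_⟩
  exact db_supp hf z hz

theorem Tf.mul {R : ℝ} {f g : ℂ → ℂ} (hf : Tf R f) (hg : ContDiff ℝ ∞ g) :
    Tf R (fun z => f z * g z) := by
  refine ⟨hf.smooth.mul hg, fun z hz => ?_⟩
  show f z * g z = 0
  rw [hf.supp z hz, zero_mul]

theorem Tf.add {R : ℝ} {f g : ℂ → ℂ} (hf : Tf R f) (hg : Tf R g) :
    Tf R (fun z => f z + g z) := by
  refine ⟨hf.smooth.add hg.smooth, fun z hz => ?_⟩
  show f z + g z = 0
  rw [hf.supp z hz, hg.supp z hz, add_zero]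

theorem Tf.sub {R : ℝ} {f g : ℂ → ℂ} (hf : Tf R f) (hg : Tf R g) :
    Tf R (fun z => f z - g z) := by
  refine ⟨hf.smooth.sub hg.smooth, fun z hz => ?_⟩
  show f z - g z = 0
  rw [hf.supp z hz, hg.supp z hz, sub_zero]

end H73.BR
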