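import Pool.Agent.H73.BR.Neu

set_option autoImplicit false

/-! # [H73 BR CAUA] The terms of the Neumann series converge in `L²`

`Seq R δ μ`: test functions bounded by `δ` such that the measure of `S = {z | μ m z ≠ μ m' z}` (an open set) tends to `0` for `m, m' → ∞`.
Induction on `j`. `j = 0`: `μ m' - μ m` vanishes outside of `S` and is bounded by `2 δ`. Step: with `u = nt (μ m) (μ m) j`, `u' = nt (μ m') (μ m') j`:
`nt_(j+1)' - nt_(j+1) = μ m' Bt (u' - u) + (μ m' - μ m) Bt u`, so `‖..‖_2 ≤ δ ‖u' - u‖_2 + 2 δ (∫_S ‖Bt u‖²)^(1/2)` (`bt_int` for the test function `u' - u`; linearity of `Bt`,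
`bt_sub` below). For `ε > 0` take `m0` with `‖u^(m) - u^(m0)‖_2 ≤ ε` for `m ≥ m0` (induction), then `(∫_S ‖Bt u^(m)‖²)^(1/2) ≤ ε + (∫_S ‖Bt u^(m0)‖²)^(1/2)` and the last
term is at most `ε` if `volume S` is small (`‖Bt u^(m0)‖²` is integrable, absolute continuity of the integral: `exists_pos_setLIntegral_lt_of_measure_lt` or
`MemLp.eLpNorm_indicator_le`, `Integrable.exists..`). Instead of Minkowski one may use `‖a + b‖² ≤ 2 ‖a‖² + 2 ‖b‖²` everywhere. -/

namespace H73.BR

open MeasureTheory Complex Filter Topology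
open scoped ContDiff

/-- a sequence of coefficients which stabilises in measure -/
structure Seq (R δ : ℝ) (μ : ℕ → ℂ → ℂ) : Prop where
  tf : ∀ m, Tf R (μ m)
  bd : ∀ m z, ‖μ m z‖ ≤ δ
  vol : ∀ ε : ENNReal, 0 < ε → ∃ m0 : ℕ, ∀ m, m0 ≤ m → ∀ m', m0 ≤ m' →
    volume {z | μ m z ≠ μ m' z} ≤ ε

theorem bt_sub {R : ℝ} {f g : ℂ → ℂ} (hf : Tf R f) (hg : Tf R g) (z : ℂ) :
    Bt (fun w => f w - g w) z = Bt f z - Bt g z := by
  unfold Bt
  have h1 : Ct (fun w => f w - g w) = fun z => Ct f z - Ct g z :=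
    funext fun z => ct_sub hf.cf hg.cf z
  rw [h1]
  exact dz_sub ((ct_smooth hf).differentiable (by simp) z) ((ct_smooth hg).differentiable (by simp) z)


theorem cau_ac {g : ℂ → ℝ} (hg : Integrable g) {ε : ℝ} (hε : 0 < ε) :
    ∃ d : ENNReal, 0 < d ∧ ∀ S : Set ℂ, volume S ≤ d → ∫ z in S, g z ≤ ε := by
  have h1 := hg.tendsto_setIntegral_nhds_zero (μ := volume)
    (l := comap (fun S : Set ℂ => volume S) (𝓝 0)) (s := id) tendsto_comap
  have h2 := h1.eventually (eventually_le_nhds hε)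
  rw [(ENNReal.nhds_zero_basis_Iic.comap _).eventually_iff] at h2
  obtain ⟨d, hd, hd'⟩ := h2
  exact ⟨d, hd, fun S hS => hd' hS⟩

theorem cau_ne {f g : ℂ → ℂ} (hf : Continuous f) (hg : Continuous g) :
    MeasurableSet {z | f z ≠ g z} :=
  (isOpen_ne_fun hf hg).measurableSet

theorem cau_sub2 {R : ℝ} {f g : ℂ → ℂ} (hf : Tf R f) (hg : Tf R g) :
    Integrable (fun z => ‖Bt f z - Bt g z‖ ^ 2) ∧
      ∫ z, ‖Bt f z - Bt g z‖ ^ 2 = ∫ z, ‖f z - g z‖ ^ 2 := by
  have h1 := bt_int (hf.sub hg)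
  simp_rw [bt_sub hf hg] at h1
  exact h1

theorem cau_nt {R δ : ℝ} (hδ : 0 ≤ δ) (hδ1 : δ ≤ 1) {μ : ℕ → ℂ → ℂ}
    (h : Seq R δ μ) (j : ℕ) : ∀ ε : ℝ, 0 < ε → ∃ m0 : ℕ, ∀ m, m0 ≤ m → ∀ m', m0 ≤ m' →
      ∫ z, ‖nt (μ m') (μ m') j z - nt (μ m) (μ m) j z‖ ^ 2 ≤ ε := by
  induction j with
  | zero =>
    intro ε hε
    obtain ⟨m0, h0⟩ := h.vol (ENNReal.ofReal (ε / 4)) (ENNReal.ofReal_pos.2 (by positivity))
    refine ⟨m0, fun m hm m' hm' => ?_⟩
    have hS : MeasurableSet {z | μ m z ≠ μ m' z} :=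
      cau_ne (h.tf m).smooth.continuous (h.tf m').smooth.continuous
    have hv := h0 m hm m' hm'
    set S : Set ℂ := {z | μ m z ≠ μ m' z} with hSd
    have hvt : volume S ≠ ⊤ := ne_top_of_le_ne_top ENNReal.ofReal_ne_top hv
    have hint : Integrable (S.indicator fun _ => (4 : ℝ)) :=
      (integrableOn_const hvt).integrable_indicator hS
    have h1 : ∫ z, ‖nt (μ m') (μ m') 0 z - nt (μ m) (μ m) 0 z‖ ^ 2 ≤
        ∫ z, S.indicator (fun _ => (4 : ℝ)) z := by
      refine integral_mono ?_ hint fun z => ?_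
      · exact (((h.tf m').sub (h.tf m)).cf).int2
      · show ‖μ m' z - μ m z‖ ^ 2 ≤ S.indicator (fun _ => (4 : ℝ)) z
        by_cases hz : z ∈ S
        · rw [Set.indicator_of_mem hz]
          have h2 : ‖μ m' z - μ m z‖ ≤ 2 := by
            have a1 := h.bd m' z
            have a2 := h.bd m z
            have := norm_sub_le (μ m' z) (μ m z)
            linarith
          have := norm_nonneg (μ m' z - μ m z)
          nlinarith
        · rw [Set.indicator_of_notMem hz]
          have h2 : μ m z = μ m' z := by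
            by_contra h3
            exact hz h3
          rw [h2, sub_self]
          simp
    refine h1.trans ?_
    rw [integral_indicator hS, setIntegral_const, smul_eq_mul]
    have h3 : volume.real S ≤ ε / 4 := by
      rw [Measure.real]
      exact ENNReal.toReal_le_of_le_ofReal (by positivity) hv
    linarith
  | succ j ih =>
    intro ε hε
    obtain ⟨m0, h0⟩ := ih (ε / 34) (by positivity)
    have htf : ∀ m, Tf R (nt (μ m) (μ m) j) := fun m => nt_tf (h.tf m) (h.tf m) j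
    obtain ⟨d, hd, hd'⟩ := cau_ac (bt_int (htf m0)).1 (ε := ε / 34) (by positivity)
    obtain ⟨m1, h1⟩ := h.vol d hd
    refine ⟨max m0 m1, fun m hm m' hm' => ?_⟩
    have hm0 : m0 ≤ m := (le_max_left _ _).trans hm
    have hm1 : m1 ≤ m := (le_max_right _ _).trans hm
    have hm0' : m0 ≤ m' := (le_max_left _ _).trans hm'
    have hm1' : m1 ≤ m' := (le_max_right _ _).trans hm'
    have hS : MeasurableSet {z | μ m z ≠ μ m' z} :=
      cau_ne (h.tf m).smooth.continuous (h.tf m').smooth.continuous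
    have hv := h1 m hm1 m' hm1'
    set S : Set ℂ := {z | μ m z ≠ μ m' z} with hSd
    obtain ⟨ia, ea⟩ := cau_sub2 (htf m') (htf m)
    obtain ⟨ib, eb⟩ := cau_sub2 (htf m) (htf m0)
    have ic := (bt_int (htf m0)).1
    have qa := h0 m hm0 m' hm0'
    have qb := h0 m0 le_rfl m hm0
    have qc := hd' S hv
    rw [← ea] at qa
    rw [← eb] at qb
    have h2 : ∫ z, ‖nt (μ m') (μ m') (j + 1) z - nt (μ m) (μ m) (j + 1) z‖ ^ 2 ≤
        ∫ z, (2 * ‖Bt (nt (μ m') (μ m') j) z - Bt (nt (μ m) (μ m) j) z‖ ^ 2 +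
          16 * ‖Bt (nt (μ m) (μ m) j) z - Bt (nt (μ m0) (μ m0) j) z‖ ^ 2 +
          16 * S.indicator (fun z => ‖Bt (nt (μ m0) (μ m0) j) z‖ ^ 2) z) := by
      refine integral_mono ?_ (((ia.const_mul 2).add (ib.const_mul 16)).add
        ((ic.indicator hS).const_mul 16)) fun z => ?_
      · exact (((nt_tf (h.tf m') (h.tf m') (j + 1)).sub (nt_tf (h.tf m) (h.tf m) (j + 1))).cf).int2
      · show ‖μ m' z * Bt (nt (μ m') (μ m') j) z - μ m z * Bt (nt (μ m) (μ m) j) z‖ ^ 2 ≤ _
        generalize Bt (nt (μ m') (μ m') j) z = X'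
        generalize Bt (nt (μ m) (μ m) j) z = X
        have hb1 := h.bd m' z
        have hb2 := h.bd m z
        have hp := norm_nonneg (X' - X)
        by_cases hz : z ∈ S
        · rw [Set.indicator_of_mem hz]
          generalize Bt (nt (μ m0) (μ m0) j) z = Y
          have hq := norm_nonneg (X - Y)
          have hr := norm_nonneg Y
          have e1 : μ m' z * X' - μ m z * X = μ m' z * (X' - X) + (μ m' z - μ m z) * X := by ring
          have e2 : ‖μ m' z * X' - μ m z * X‖ ≤ ‖X' - X‖ + 2 * (‖X - Y‖ + ‖Y‖) := by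
            rw [e1]
            refine (norm_add_le _ _).trans ?_
            rw [norm_mul, norm_mul]
            have e3 : ‖μ m' z‖ * ‖X' - X‖ ≤ 1 * ‖X' - X‖ :=
              mul_le_mul_of_nonneg_right (by linarith) hp
            have e4 : ‖μ m' z - μ m z‖ ≤ 2 := by
              have := norm_sub_le (μ m' z) (μ m z)
              linarith
            have e5 : ‖X‖ ≤ ‖X - Y‖ + ‖Y‖ := by
              have := norm_add_le (X - Y) Y
              rwa [sub_add_cancel] at this
            have e6 : ‖μ m' z - μ m z‖ * ‖X‖ ≤ 2 * (‖X - Y‖ + ‖Y‖) :=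
              mul_le_mul e4 e5 (norm_nonneg _) (by norm_num)
            linarith
          have e7 : ‖μ m' z * X' - μ m z * X‖ ^ 2 ≤ (‖X' - X‖ + 2 * (‖X - Y‖ + ‖Y‖)) ^ 2 :=
            pow_le_pow_left₀ (norm_nonneg _) e2 2
          nlinarith [sq_nonneg (‖X' - X‖ - 2 * (‖X - Y‖ + ‖Y‖)), sq_nonneg (‖X - Y‖ - ‖Y‖)]
        · rw [Set.indicator_of_notMem hz]
          have e0 : μ m z = μ m' z := by
            by_contra h3
            exact hz h3
          have e1 : μ m' z * X' - μ m z * X = μ m' z * (X' - X) := by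
            rw [e0]
            ring
          rw [e1, norm_mul]
          have e3 : ‖μ m' z‖ * ‖X' - X‖ ≤ ‖X' - X‖ := by
            have : ‖μ m' z‖ * ‖X' - X‖ ≤ 1 * ‖X' - X‖ :=
              mul_le_mul_of_nonneg_right (by linarith) hp
            linarith
          have e7 : (‖μ m' z‖ * ‖X' - X‖) ^ 2 ≤ ‖X' - X‖ ^ 2 :=
            pow_le_pow_left₀ (by positivity) e3 2
          have e8 : 0 ≤ ‖X - Bt (nt (μ m0) (μ m0) j) z‖ ^ 2 := by positivity
          have e9 : 0 ≤ ‖X' - X‖ ^ 2 := by positivity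
          linarith
    refine h2.trans ?_
    have i12 : Integrable fun z =>
        2 * ‖Bt (nt (μ m') (μ m') j) z - Bt (nt (μ m) (μ m) j) z‖ ^ 2 +
          16 * ‖Bt (nt (μ m) (μ m) j) z - Bt (nt (μ m0) (μ m0) j) z‖ ^ 2 :=
      (ia.const_mul 2).add (ib.const_mul 16)
    rw [integral_add i12 ((ic.indicator hS).const_mul 16),
      integral_add (ia.const_mul 2) (ib.const_mul 16), integral_const_mul, integral_const_mul,
      integral_const_mul, integral_indicator hS]
    linarith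

end H73.BR
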