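import Pool.Agent.H73.BR.Apr

set_option autoImplicit false

/-! # [H73 BR INV] Uniform estimates for the solution and its inverse

`sol_db`: `‖db φ z‖ ≤ δ ‖dz φ z‖` and `db φ z = 0` for `R ≤ ‖z‖`. `sol_est`: `apr_est`. `inv_d`: let `w = φ z`, `ψ = φ.symm`; differentiate `ψ (φ z) = z` (`dz_comp`, `db_comp`):
`dz ψ w * dz φ z + db ψ w * conj (db φ z) = 1`, `dz ψ w * db φ z + db ψ w * conj (dz φ z) = 0`, so
`db ψ w = -(dz ψ w) * db φ z / conj (dz φ z)`, in particular `‖db ψ w‖ ≤ δ ‖dz ψ w‖`, `db ψ w = 0` if `R ≤ ‖z‖`, and `dz ψ w ≠ 0`.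
`sol_est'`: `‖φ z - z‖ ≤ 40 R δ ≤ 1`, so `R + 1 ≤ ‖w‖` implies `R ≤ ‖φ.symm w‖`; `ψ w - w = -(φ z - z)` with `z = ψ w`, it tends to `0` at infinity (`ψ` is proper).
`apr_est` with `R + 1`.
`sol_mo`: part of `apr_est`. -/

namespace H73.BR

open MeasureTheory Complex Filter Topology
open scoped ContDiff

theorem sol_db {R δ : ℝ} {μ : ℂ → ℂ} (hμ : Tf R μ) (hb : ∀ z, ‖μ z‖ ≤ δ) {φ : ℂ ≃ₜ ℂ}
    (h : Sol μ φ) : (∀ z, ‖db φ z‖ ≤ δ * ‖dz φ z‖) ∧ ∀ z, R ≤ ‖z‖ → db φ z = 0 := by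
  refine ⟨fun z => ?_, fun z hz => ?_⟩
  · rw [h.eq z, norm_mul]
    exact mul_le_mul_of_nonneg_right (hb z) (norm_nonneg _)
  · rw [h.eq z, hμ.supp z hz, zero_mul]

theorem sol_est {R δ : ℝ} (hR : 1 ≤ R) (hδ : 0 ≤ δ) (hδ1 : 42 * δ ≤ 1) {μ : ℂ → ℂ}
    (hμ : Tf R μ) (hb : ∀ z, ‖μ z‖ ≤ δ) {φ : ℂ ≃ₜ ℂ} (h : Sol μ φ) :
    (∀ z, φ z = z + Ct (db φ) z) ∧ Mo (db φ) (4 * δ * √R) ∧ Est (40 * R * δ) φ := by
  obtain ⟨h1, h2⟩ := sol_db hμ hb h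
  exact apr_est hR hδ hδ1 h.c1 h.inf h2 h1

theorem inv_d {μ : ℂ → ℂ} {φ : ℂ ≃ₜ ℂ} (h : Sol μ φ) (z : ℂ) :
    dz φ.symm (φ z) ≠ 0 ∧
      db φ.symm (φ z) * (starRingEnd ℂ) (dz φ z) = -(dz φ.symm (φ z) * db φ z) := by
  have hφ : DifferentiableAt ℝ φ z := h.c1.differentiable (by norm_num) z
  have hψ : DifferentiableAt ℝ φ.symm (φ z) := h.c1s.differentiable (by norm_num) _
  have hid : (fun w => φ.symm (φ w)) = fun w => w := by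
    funext w
    exact φ.symm_apply_apply w
  have h1 := dz_comp hψ hφ
  have h2 := db_comp hψ hφ
  rw [hid, dz_id] at h1
  rw [hid, db_id] at h2
  have h3 : db φ.symm (φ z) * (starRingEnd ℂ) (dz φ z) = -(dz φ.symm (φ z) * db φ z) := by
    linear_combination -h2
  refine ⟨fun h0 => ?_, h3⟩
  rw [h0, zero_mul, neg_zero, mul_eq_zero] at h3
  have h4 : (starRingEnd ℂ) (dz φ z) ≠ 0 := by
    rw [Ne, map_eq_zero]
    exact h.ne z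
  have h5 : db φ.symm (φ z) = 0 := h3.resolve_right h4
  rw [h0, h5, zero_mul, zero_mul, add_zero] at h1
  exact one_ne_zero h1

theorem sol_est' {R δ : ℝ} (hR : 1 ≤ R) (hδ : 0 ≤ δ) (hδ1 : 42 * δ ≤ 1) (hδ2 : 40 * R * δ ≤ 1)
    {μ : ℂ → ℂ} (hμ : Tf R μ) (hb : ∀ z, ‖μ z‖ ≤ δ) {φ : ℂ ≃ₜ ℂ} (h : Sol μ φ) :
    Est (40 * (R + 1) * δ) φ.symm := by
  obtain ⟨hd1, hd2⟩ := sol_db hμ hb h
  obtain ⟨-, -, hest, -⟩ := sol_est hR hδ hδ1 hμ hb h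
  have hrel : ∀ w, db φ.symm w * (starRingEnd ℂ) (dz φ (φ.symm w)) =
      -(dz φ.symm w * db φ (φ.symm w)) := by
    intro w
    have h1 := (inv_d h (φ.symm w)).2
    rw [φ.apply_symm_apply] at h1
    exact h1
  have hne : ∀ w, (starRingEnd ℂ) (dz φ (φ.symm w)) ≠ 0 := by
    intro w
    rw [Ne, map_eq_zero]
    exact h.ne _
  refine (apr_est (R := R + 1) (by linarith) hδ hδ1 h.c1s ?_ ?_ ?_).2.2
  · have h1 : Tendsto φ.symm (cocompact ℂ) (cocompact ℂ) :=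
      φ.symm.isClosedEmbedding.tendsto_cocompact
    have h2 := (h.inf.comp h1).neg
    rw [neg_zero] at h2
    refine h2.congr fun w => ?_
    show -(φ (φ.symm w) - φ.symm w) = _
    rw [φ.apply_symm_apply]
    ring
  · intro w hw
    have h1 : R ≤ ‖φ.symm w‖ := by
      have h2 := hest (φ.symm w)
      rw [φ.apply_symm_apply] at h2
      have h3 : ‖w‖ ≤ ‖w - φ.symm w‖ + ‖φ.symm w‖ := by
        calc ‖w‖ = ‖(w - φ.symm w) + φ.symm w‖ := by rw [sub_add_cancel]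
          _ ≤ _ := norm_add_le _ _
      linarith
    have h4 := hrel w
    rw [hd2 _ h1, mul_zero, neg_zero, mul_eq_zero] at h4
    exact h4.resolve_right (hne w)
  · intro w
    have h1 := congrArg norm (hrel w)
    rw [norm_mul, norm_neg, norm_mul, Complex.norm_conj] at h1
    have h2 := hd1 (φ.symm w)
    have h3 : 0 < ‖dz φ (φ.symm w)‖ := norm_pos_iff.2 (h.ne _)
    have h4 : ‖db φ.symm w‖ * ‖dz φ (φ.symm w)‖ ≤ δ * ‖dz φ.symm w‖ * ‖dz φ (φ.symm w)‖ := by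
      rw [h1]
      calc ‖dz φ.symm w‖ * ‖db φ (φ.symm w)‖ ≤ ‖dz φ.symm w‖ * (δ * ‖dz φ (φ.symm w)‖) :=
            mul_le_mul_of_nonneg_left h2 (norm_nonneg _)
        _ = δ * ‖dz φ.symm w‖ * ‖dz φ (φ.symm w)‖ := by ring
    exact le_of_mul_le_mul_right h4 h3

end H73.BR
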