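import Pool.Agent.H73.BR.CauA
import Pool.Agent.H73.BR.Inv

set_option autoImplicit false

/-! # [H73 BR CAUB] The functions `db φ_m` converge in `L²`

`tail`: let `f = db φ`, `e_J = f - ns μ μ J`. `e_J = μ (dz D_J)` with `D_J = φ - id - Ct (ns μ μ (J-1))` (`C^1`, bounded, `db D_J = e_(J-1)`), as
`f = μ dz φ = μ (1 + dz (φ - id))` and `ns J = μ + μ Bt (ns (J-1))` (`ns_rec`); for `J = 0`: `e_0 = μ dz (φ - id)`. So `∫ ‖e_J‖² ≤ δ² ∫ ‖e_(J-1)‖²` (`btc_l2`), with `e_(-1) = f`: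
`∫ ‖e_J‖² ≤ (δ²)^(J+1) ∫ ‖f‖²`. And `∫ ‖f‖² ≤ 16 δ² R²`: `Mo f (4 δ √R)` on the ball of radius `R`.
`cau_f`: `‖f_m' - f_m‖_2 ≤ ‖e_J^(m')‖_2 + ‖e_J^(m)‖_2 + ∑_{j ≤ J} ‖nt_j' - nt_j‖_2`. -/

namespace H73.BR

open MeasureTheory Complex Filter Topology
open scoped ContDiff

private theorem caub_bd {R : ℝ} {f : ℂ → ℂ} (hR : 0 < R) (hf : Cf R f) :
    ∃ M, ∀ z, ‖Ct f z‖ ≤ M := by
  obtain ⟨A, hA⟩ := mo_ex hf
  exact ⟨4 * A * √R, fun z => ct_sup0 hf hR hA z⟩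

private theorem caub_step {R δ : ℝ} {μ : ℂ → ℂ} (hb : ∀ z, ‖μ z‖ ≤ δ)
    {D : ℂ → ℂ} (hD : ContDiff ℝ 1 D) (hs : ∀ z, R ≤ ‖z‖ → db D z = 0) {M : ℝ}
    (hM : ∀ z, ‖D z‖ ≤ M) :
    ∫ z, ‖μ z * dz D z‖ ^ 2 ≤ δ ^ 2 * ∫ z, ‖db D z‖ ^ 2 := by
  obtain ⟨hi, hl⟩ := btc_l2 hD hs hM
  calc ∫ z, ‖μ z * dz D z‖ ^ 2 ≤ ∫ z, δ ^ 2 * ‖dz D z‖ ^ 2 := by
        refine integral_mono_of_nonneg (Eventually.of_forall fun z => ?_) (hi.const_mul _)
          (Eventually.of_forall fun z => ?_)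
        · show (0 : ℝ) ≤ ‖μ z * dz D z‖ ^ 2
          positivity
        · show ‖μ z * dz D z‖ ^ 2 ≤ δ ^ 2 * ‖dz D z‖ ^ 2
          rw [norm_mul, mul_pow]
          exact mul_le_mul_of_nonneg_right (pow_le_pow_left₀ (norm_nonneg _) (hb z) 2)
            (by positivity)
    _ = δ ^ 2 * ∫ z, ‖dz D z‖ ^ 2 := integral_const_mul _ _
    _ ≤ _ := mul_le_mul_of_nonneg_left hl (by positivity)

theorem tail {R δ : ℝ} (hR : 1 ≤ R) (hδ : 0 ≤ δ) (hδ1 : 42 * δ ≤ 1) {μ : ℂ → ℂ}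
    (hμ : Tf R μ) (hb : ∀ z, ‖μ z‖ ≤ δ) {φ : ℂ ≃ₜ ℂ} (h : Sol μ φ) (J : ℕ) :
    ∫ z, ‖db φ z - ns μ μ J z‖ ^ 2 ≤ (δ ^ 2) ^ (J + 1) * (16 * δ ^ 2 * R ^ 2) := by
  have hR0 : 0 < R := by linarith
  obtain ⟨hdb1, hdb2⟩ := sol_db hμ hb h
  obtain ⟨hct, hmo, hest⟩ := sol_est hR hδ hδ1 hμ hb h
  have hD0 : ContDiff ℝ 1 (fun z => φ z - z) := h.c1.sub contDiff_id
  have hφd : ∀ z, DifferentiableAt ℝ φ z := fun z => h.c1.differentiable (by simp) z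
  have hidd : ∀ z : ℂ, DifferentiableAt ℝ (fun w : ℂ => w) z := fun z => differentiableAt_id
  have hD0d : ∀ z, DifferentiableAt ℝ (fun z => φ z - z) z := fun z => (hφd z).sub (hidd z)
  have hdz0 : ∀ z, dz (fun w => φ w - w) z = dz φ z - 1 := by
    intro z
    rw [dz_sub (hφd z) (hidd z), dz_id]
  have hdb0 : ∀ z, db (fun w => φ w - w) z = db φ z := by
    intro z
    rw [db_sub (hφd z) (hidd z), db_id, sub_zero]
  have hf2 : ∫ z, ‖db φ z‖ ^ 2 ≤ 16 * δ ^ 2 * R ^ 2 := by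
    have h1 := hmo.2 0 R hR0
    have h2 : ∫ w in Metric.ball (0 : ℂ) R, ‖db φ w‖ ^ 2 = ∫ w, ‖db φ w‖ ^ 2 := by
      apply setIntegral_eq_integral_of_forall_compl_eq_zero
      intro w hw
      rw [Metric.mem_ball, dist_zero_right, not_lt] at hw
      rw [hdb2 w hw, norm_zero]
      norm_num
    rw [h2] at h1
    have h3 : (4 * δ * √R) ^ 2 * R = 16 * δ ^ 2 * R ^ 2 := by
      rw [mul_pow, Real.sq_sqrt hR0.le]
      ring
    linarith
  induction J with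
  | zero =>
    have e : ∀ z, db φ z - ns μ μ 0 z = μ z * dz (fun w => φ w - w) z := by
      intro z
      have h0 : ns μ μ 0 z = μ z := by simp [ns, nt]
      rw [h0, h.eq z, hdz0 z]
      ring
    simp_rw [e]
    have h1 := caub_step (R := R) hb hD0 (fun z hz => by rw [hdb0 z]; exact hdb2 z hz) hest.1
    simp_rw [hdb0] at h1
    calc ∫ z, ‖μ z * dz (fun w => φ w - w) z‖ ^ 2 ≤ δ ^ 2 * ∫ z, ‖db φ z‖ ^ 2 := h1
      _ ≤ δ ^ 2 * (16 * δ ^ 2 * R ^ 2) := mul_le_mul_of_nonneg_left hf2 (by positivity)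
      _ = _ := by ring
  | succ J ih =>
    have hn := ns_tf hμ hμ J
    have hcs : ContDiff ℝ 1 (Ct (ns μ μ J)) := (ct_smooth hn).of_le (by simp)
    have hcd : ∀ z, DifferentiableAt ℝ (Ct (ns μ μ J)) z :=
      fun z => hcs.differentiable (by simp) z
    have hD : ContDiff ℝ 1 (fun z => (φ z - z) - Ct (ns μ μ J) z) := hD0.sub hcs
    have hdzD : ∀ z, dz (fun z => (φ z - z) - Ct (ns μ μ J) z) z =
        dz φ z - 1 - Bt (ns μ μ J) z := by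
      intro z
      rw [dz_sub (hD0d z) (hcd z), hdz0 z]
      rfl
    have hdbD : ∀ z, db (fun z => (φ z - z) - Ct (ns μ μ J) z) z = db φ z - ns μ μ J z := by
      intro z
      rw [db_sub (hD0d z) (hcd z), hdb0 z, db_ct hn z]
    obtain ⟨M, hM⟩ := caub_bd hR0 hn.cf
    have hMD : ∀ z, ‖(φ z - z) - Ct (ns μ μ J) z‖ ≤ 40 * R * δ + M := fun z =>
      (norm_sub_le _ _).trans (add_le_add (hest.1 z) (hM z))
    have h1 := caub_step (R := R) hb hD (fun z hz => by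
      rw [hdbD z, hdb2 z hz, hn.supp z hz, sub_zero]) hMD
    simp_rw [hdbD, hdzD] at h1
    have e : ∀ z, db φ z - ns μ μ (J + 1) z = μ z * (dz φ z - 1 - Bt (ns μ μ J) z) := by
      intro z
      have h2 := ns_rec hμ hμ J z
      have h3 : ns μ μ (J + 1) z = ns μ μ J z + nt μ μ (J + 1) z := by
        unfold ns
        rw [Finset.sum_range_succ]
      rw [h3, h2, h.eq z]
      ring
    simp_rw [e]
    calc ∫ z, ‖μ z * (dz φ z - 1 - Bt (ns μ μ J) z)‖ ^ 2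
        ≤ δ ^ 2 * ∫ z, ‖db φ z - ns μ μ J z‖ ^ 2 := h1
      _ ≤ δ ^ 2 * ((δ ^ 2) ^ (J + 1) * (16 * δ ^ 2 * R ^ 2)) :=
          mul_le_mul_of_nonneg_left ih (by positivity)
      _ = _ := by ring

private theorem caub_sq (a b : ℂ) : ‖a + b‖ ^ 2 ≤ 2 * ‖a‖ ^ 2 + 2 * ‖b‖ ^ 2 := by
  have h1 := norm_add_le a b
  have h2 : ‖a + b‖ ^ 2 ≤ (‖a‖ + ‖b‖) ^ 2 := pow_le_pow_left₀ (norm_nonneg _) h1 2
  nlinarith [sq_nonneg (‖a‖ - ‖b‖)]

private theorem caub_sum (n : ℕ) (c : ℕ → ℂ) :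
    ‖∑ j ∈ Finset.range n, c j‖ ^ 2 ≤ n * ∑ j ∈ Finset.range n, ‖c j‖ ^ 2 := by
  have h1 : ‖∑ j ∈ Finset.range n, c j‖ ≤ ∑ j ∈ Finset.range n, ‖c j‖ := norm_sum_le _ _
  have h2 := sq_sum_le_card_mul_sum_sq (s := Finset.range n) (f := fun j => ‖c j‖)
  rw [Finset.card_range] at h2
  exact (pow_le_pow_left₀ (norm_nonneg _) h1 2).trans h2

theorem cau_f {R δ : ℝ} (hR : 1 ≤ R) (hδ : 0 ≤ δ) (hδ1 : 42 * δ ≤ 1) {μ : ℕ → ℂ → ℂ}
    (h : Seq R δ μ) {φ : ℕ → ℂ ≃ₜ ℂ} (hφ : ∀ m, Sol (μ m) (φ m)) :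
    ∀ ε : ℝ, 0 < ε → ∃ m0 : ℕ, ∀ m, m0 ≤ m → ∀ m', m0 ≤ m' →
      ∫ z, ‖db (φ m') z - db (φ m) z‖ ^ 2 ≤ ε := by
  intro ε hε
  -- the number of terms
  obtain ⟨J, hJ⟩ : ∃ J : ℕ, (δ ^ 2) ^ (J + 1) * (16 * δ ^ 2 * R ^ 2) ≤ ε / 16 := by
    have hd : δ ^ 2 < 1 := by nlinarith
    have h1 := tendsto_pow_atTop_nhds_zero_of_lt_one (sq_nonneg δ) hd
    have h2 : Tendsto (fun J : ℕ => (δ ^ 2) ^ (J + 1) * (16 * δ ^ 2 * R ^ 2)) atTop (𝓝 0) := by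
      have h3 := ((tendsto_add_atTop_iff_nat 1).2 h1).mul_const (16 * δ ^ 2 * R ^ 2)
      rw [zero_mul] at h3
      exact h3
    obtain ⟨J, hJ⟩ := (h2.eventually (ge_mem_nhds (by positivity : (0 : ℝ) < ε / 16))).exists
    exact ⟨J, hJ⟩
  have hn : (0 : ℝ) < (J : ℝ) + 1 := by positivity
  set η : ℝ := ε / (4 * ((J : ℝ) + 1) ^ 2) with hη
  have hη0 : 0 < η := by positivity
  choose m0 hm0 using fun j => cau_nt hδ (by linarith) h j η hη0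
  refine ⟨∑ j ∈ Finset.range (J + 1), m0 j, fun m hm m' hm' => ?_⟩
  have hle : ∀ j ∈ Finset.range (J + 1), m0 j ≤ ∑ j ∈ Finset.range (J + 1), m0 j :=
    fun j hj => Finset.single_le_sum (fun _ _ => Nat.zero_le _) hj
  have hcf : ∀ m, Cf R (fun z => db (φ m) z - ns (μ m) (μ m) J z) := by
    intro m
    have h1 := ns_tf (h.tf m) (h.tf m) J
    refine ⟨(cont_db (hφ m).c1).sub h1.cf.cont, fun z hz => ?_⟩
    show db (φ m) z - ns (μ m) (μ m) J z = 0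
    rw [(sol_db (h.tf m) (h.bd m) (hφ m)).2 z hz, h1.supp z hz, sub_zero]
  have hcn : ∀ j, Cf R (fun z => nt (μ m') (μ m') j z - nt (μ m) (μ m) j z) := by
    intro j
    exact ((nt_tf (h.tf m') (h.tf m') j).sub (nt_tf (h.tf m) (h.tf m) j)).cf
  have ht : ∀ m, ∫ z, ‖db (φ m) z - ns (μ m) (μ m) J z‖ ^ 2 ≤ ε / 16 := fun m =>
    (tail hR hδ hδ1 (h.tf m) (h.bd m) (hφ m) J).trans hJ
  have hpt : ∀ z, ‖db (φ m') z - db (φ m) z‖ ^ 2 ≤
      (4 * ‖db (φ m') z - ns (μ m') (μ m') J z‖ ^ 2 +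
        4 * ‖db (φ m) z - ns (μ m) (μ m) J z‖ ^ 2) +
      2 * (((J : ℝ) + 1) * ∑ j ∈ Finset.range (J + 1),
        ‖nt (μ m') (μ m') j z - nt (μ m) (μ m) j z‖ ^ 2) := by
    intro z
    have e : db (φ m') z - db (φ m) z =
        ((db (φ m') z - ns (μ m') (μ m') J z) + -(db (φ m) z - ns (μ m) (μ m) J z)) +
        ∑ j ∈ Finset.range (J + 1), (nt (μ m') (μ m') j z - nt (μ m) (μ m) j z) := by
      rw [Finset.sum_sub_distrib]
      unfold ns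
      ring
    rw [e]
    have h1 := caub_sq ((db (φ m') z - ns (μ m') (μ m') J z) +
      -(db (φ m) z - ns (μ m) (μ m) J z))
      (∑ j ∈ Finset.range (J + 1), (nt (μ m') (μ m') j z - nt (μ m) (μ m) j z))
    have h2 := caub_sq (db (φ m') z - ns (μ m') (μ m') J z)
      (-(db (φ m) z - ns (μ m) (μ m) J z))
    have h3 := caub_sum (J + 1) (fun j => nt (μ m') (μ m') j z - nt (μ m) (μ m) j z)
    rw [norm_neg] at h2
    push_cast at h3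
    linarith
  have hi1 := (hcf m').int2
  have hi2 := (hcf m).int2
  have hi3 : ∀ j ∈ Finset.range (J + 1), Integrable
      (fun z => ‖nt (μ m') (μ m') j z - nt (μ m) (μ m) j z‖ ^ 2) := fun j _ => (hcn j).int2
  have hi4 := integrable_finsetSum (Finset.range (J + 1)) hi3
  have ia : Integrable (fun z => 4 * ‖db (φ m') z - ns (μ m') (μ m') J z‖ ^ 2 +
      4 * ‖db (φ m) z - ns (μ m) (μ m) J z‖ ^ 2) := (hi1.const_mul 4).add (hi2.const_mul 4)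
  have ib : Integrable (fun z => 2 * (((J : ℝ) + 1) * ∑ j ∈ Finset.range (J + 1),
      ‖nt (μ m') (μ m') j z - nt (μ m) (μ m) j z‖ ^ 2)) := (hi4.const_mul _).const_mul 2
  calc ∫ z, ‖db (φ m') z - db (φ m) z‖ ^ 2
      ≤ ∫ z, ((4 * ‖db (φ m') z - ns (μ m') (μ m') J z‖ ^ 2 +
        4 * ‖db (φ m) z - ns (μ m) (μ m) J z‖ ^ 2) +
      2 * (((J : ℝ) + 1) * ∑ j ∈ Finset.range (J + 1),
        ‖nt (μ m') (μ m') j z - nt (μ m) (μ m) j z‖ ^ 2)) := by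
        refine integral_mono_of_nonneg (Eventually.of_forall fun z => ?_)
          (ia.add ib)
          (Eventually.of_forall hpt)
        show (0 : ℝ) ≤ ‖db (φ m') z - db (φ m) z‖ ^ 2
        positivity
    _ = (4 * ∫ z, ‖db (φ m') z - ns (μ m') (μ m') J z‖ ^ 2) +
        (4 * ∫ z, ‖db (φ m) z - ns (μ m) (μ m) J z‖ ^ 2) +
        2 * (((J : ℝ) + 1) * ∑ j ∈ Finset.range (J + 1),
          ∫ z, ‖nt (μ m') (μ m') j z - nt (μ m) (μ m) j z‖ ^ 2) := by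
        rw [integral_add ia ib,
          integral_add (hi1.const_mul 4) (hi2.const_mul 4), integral_const_mul,
          integral_const_mul, integral_const_mul, integral_const_mul,
          integral_finsetSum _ hi3]
    _ ≤ (4 * (ε / 16)) + (4 * (ε / 16)) + 2 * (((J : ℝ) + 1) * (((J : ℝ) + 1) * η)) := by
        have h1 : ∑ j ∈ Finset.range (J + 1),
            ∫ z, ‖nt (μ m') (μ m') j z - nt (μ m) (μ m) j z‖ ^ 2 ≤ ((J : ℝ) + 1) * η := by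
          have h2 := Finset.sum_le_card_nsmul (Finset.range (J + 1)) (fun j =>
            ∫ z, ‖nt (μ m') (μ m') j z - nt (μ m) (μ m) j z‖ ^ 2) η (fun j hj =>
              hm0 j m ((hle j hj).trans hm) m' ((hle j hj).trans hm'))
          rw [Finset.card_range, nsmul_eq_mul] at h2
          push_cast at h2
          exact h2
        have h3 := mul_le_mul_of_nonneg_left h1 hn.le
        have h4 := ht m
        have h5 := ht m'
        linarith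
    _ = ε := by
        rw [hη]
        field_simp
        ring

end H73.BR
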