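import Pool.Agent.H73.BR.Cal

set_option autoImplicit false

/-! # [H73 BR GRN] Green formula for `a dz + b dzbar` on rectangles

`P = a + b`, `Q = I (a - b)`. Apply `Complex.integral_boundary_rect_of_differentiableOn_real` (or
`Complex.integral_boundary_rect_of_hasFDerivAt_real_off_countable` with `s = ∅`) to `a` and to `conj b`: for a `C^1` function `f` the combination of the four
integrals of `f dz` is `∫∫ (I • fderiv f 1 - fderiv f I) = 2 I ∫∫ db f`. The integrals of `b dzbar` are the conjugates of those of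
`(conj b) dz`, so they give the conjugate of `2 I ∫∫ db (conj b) = 2 I ∫∫ conj (dz b)`, i.e. `-2 I ∫∫ dz b`. (Or apply the two dimensional
divergence theorem, or the theorem for `f = a + conj..` directly.) All functions are continuous on the closed rectangle. -/

namespace H73.BR

open MeasureTheory Complex Filter Topology
open scoped ContDiff

private theorem grn_one {f : ℂ → ℂ} (hf : ContDiff ℝ 1 f) (x1 x2 y1 y2 : ℝ) :
    (∫ x : ℝ in x1..x2, f (x + y1 * Complex.I)) - (∫ x : ℝ in x1..x2, f (x + y2 * Complex.I)) +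
      Complex.I * (∫ y : ℝ in y1..y2, f (x2 + y * Complex.I)) -
      Complex.I * (∫ y : ℝ in y1..y2, f (x1 + y * Complex.I)) =
    ∫ x : ℝ in x1..x2, ∫ y : ℝ in y1..y2, 2 * Complex.I * db f (x + y * Complex.I) := by
  have hfd : ∀ x, HasFDerivAt f (fderiv ℝ f x) x := fun x =>
    (hf.differentiable (by norm_num) x).hasFDerivAt
  have hcf : Continuous (fderiv ℝ f) := hf.continuous_fderiv (by norm_num)
  have hc : Continuous fun z => Complex.I • fderiv ℝ f z 1 - fderiv ℝ f z Complex.I :=
    Continuous.sub (Continuous.const_smul (hcf.clm_apply continuous_const) Complex.I)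
      (hcf.clm_apply continuous_const)
  have h := integral_boundary_rect_of_hasFDerivAt_real_off_countable f (fderiv ℝ f)
    (x1 + y1 * Complex.I) (x2 + y2 * Complex.I) ∅ Set.countable_empty
    hf.continuous.continuousOn (fun x _ => hfd x)
    (hc.continuousOn.integrableOn_compact (isCompact_uIcc.reProdIm isCompact_uIcc))
  have e1 : ((x1 : ℂ) + y1 * Complex.I).re = x1 := by simp
  have e2 : ((x1 : ℂ) + y1 * Complex.I).im = y1 := by simp
  have e3 : ((x2 : ℂ) + y2 * Complex.I).re = x2 := by simp
  have e4 : ((x2 : ℂ) + y2 * Complex.I).im = y2 := by simp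
  rw [e1, e2, e3, e4] at h
  simp only [smul_eq_mul] at h
  rw [h]
  congr 1
  funext x
  congr 1
  funext y
  rw [fd_one, fd_I]
  ring

private theorem cont_line1 {f : ℂ → ℂ} (hf : Continuous f) (y : ℝ) :
    Continuous fun x : ℝ => f (x + y * Complex.I) :=
  hf.comp (by fun_prop)

private theorem cont_line2 {f : ℂ → ℂ} (hf : Continuous f) (x : ℝ) :
    Continuous fun y : ℝ => f (x + y * Complex.I) :=
  hf.comp (by fun_prop)

private theorem cont_inner {f : ℂ → ℂ} (hf : Continuous f) (y1 y2 : ℝ) :
    Continuous fun x : ℝ => ∫ y : ℝ in y1..y2, f (x + y * Complex.I) := by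
  refine intervalIntegral.continuous_parametric_intervalIntegral_of_continuous' ?_ y1 y2
  exact hf.comp (by fun_prop)

theorem grn {a b : ℂ → ℂ} (ha : ContDiff ℝ 1 a) (hb : ContDiff ℝ 1 b) (x1 x2 y1 y2 : ℝ) :
    (∫ x in x1..x2, (a (x + y1 * Complex.I) + b (x + y1 * Complex.I))) +
      (∫ y in y1..y2, Complex.I * (a (x2 + y * Complex.I) - b (x2 + y * Complex.I))) -
      (∫ x in x1..x2, (a (x + y2 * Complex.I) + b (x + y2 * Complex.I))) -
      (∫ y in y1..y2, Complex.I * (a (x1 + y * Complex.I) - b (x1 + y * Complex.I))) =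
    2 * Complex.I * ∫ x in x1..x2, ∫ y in y1..y2,
      (db a (x + y * Complex.I) - dz b (x + y * Complex.I)) := by
  have ha' := ha.continuous
  have hb' := hb.continuous
  have hbd : ∀ z, DifferentiableAt ℝ b z := fun z => hb.differentiable (by norm_num) z
  have hg : ContDiff ℝ 1 fun z => (starRingEnd ℂ) (b z) :=
    (Complex.conjCLE.contDiff).comp hb
  have h1 := grn_one ha x1 x2 y1 y2
  have h2 := congrArg (starRingEnd ℂ) (grn_one hg x1 x2 y1 y2)
  have hcj' : ∀ (f : ℝ → ℂ) (u v : ℝ),
      (starRingEnd ℂ) (∫ x in u..v, f x) = ∫ x in u..v, (starRingEnd ℂ) (f x) := by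
    intro f u v
    simp only [intervalIntegral, map_sub, integral_conj]
  have hcj : ∀ (f : ℝ → ℂ) (u v : ℝ),
      (starRingEnd ℂ) (∫ x in u..v, (starRingEnd ℂ) (f x)) = ∫ x in u..v, f x := by
    intro f u v
    rw [hcj']
    simp
  simp only [map_sub, map_add, map_mul, hcj, Complex.conj_I] at h2
  have h3 : (starRingEnd ℂ) (∫ x : ℝ in x1..x2, ∫ y : ℝ in y1..y2,
      2 * Complex.I * db (fun z => (starRingEnd ℂ) (b z)) (x + y * Complex.I)) =
      ∫ x : ℝ in x1..x2, ∫ y : ℝ in y1..y2, (-2 * Complex.I) * dz b (x + y * Complex.I) := by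
    rw [hcj']
    congr 1
    funext x
    rw [hcj']
    congr 1
    funext y
    rw [db_conj (hbd _), map_mul, map_mul, Complex.conj_I, Complex.conj_conj,
      Complex.conj_ofNat]
    ring
  rw [h3] at h2
  have hda := cont_db ha
  have hdb := cont_dz hb
  have i1 : ∀ (f : ℂ → ℂ), Continuous f → ∀ (y u v : ℝ),
      IntervalIntegrable (fun x : ℝ => f (x + y * Complex.I)) volume u v :=
    fun f hf y u v => (cont_line1 hf y).intervalIntegrable u v
  have i2 : ∀ (f : ℂ → ℂ), Continuous f → ∀ (x u v : ℝ),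
      IntervalIntegrable (fun y : ℝ => f (x + y * Complex.I)) volume u v :=
    fun f hf x u v => (cont_line2 hf x).intervalIntegrable u v
  have e1 : ∀ y : ℝ, (∫ x in x1..x2, (a (x + y * Complex.I) + b (x + y * Complex.I))) =
      (∫ x in x1..x2, a (x + y * Complex.I)) + ∫ x in x1..x2, b (x + y * Complex.I) :=
    fun y => intervalIntegral.integral_add (i1 a ha' y _ _) (i1 b hb' y _ _)
  have e2 : ∀ x : ℝ, (∫ y in y1..y2, Complex.I * (a (x + y * Complex.I) -
      b (x + y * Complex.I))) = Complex.I * ((∫ y in y1..y2, a (x + y * Complex.I)) -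
        ∫ y in y1..y2, b (x + y * Complex.I)) := by
    intro x
    rw [intervalIntegral.integral_const_mul,
      intervalIntegral.integral_sub (i2 a ha' x _ _) (i2 b hb' x _ _)]
  have e3 : (∫ x in x1..x2, ∫ y in y1..y2,
      (db a (x + y * Complex.I) - dz b (x + y * Complex.I))) =
      (∫ x in x1..x2, ∫ y in y1..y2, db a (x + y * Complex.I)) -
        ∫ x in x1..x2, ∫ y in y1..y2, dz b (x + y * Complex.I) := by
    rw [← intervalIntegral.integral_sub ((cont_inner hda y1 y2).intervalIntegrable _ _)
      ((cont_inner hdb y1 y2).intervalIntegrable _ _)]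
    congr 1
    funext x
    rw [intervalIntegral.integral_sub (i2 _ hda x _ _) (i2 _ hdb x _ _)]
  simp only [intervalIntegral.integral_const_mul] at h1 h2
  rw [e1, e1, e2, e2, e3]
  linear_combination h1 + h2

end H73.BR
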