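import Pool.Agent.H73.BR.Neu
import Pool.Agent.H73.BR.Grn

set_option autoImplicit false

/-! # [H73 BR CLO] The form `exp σ (dz + μ dzbar)` is closed

`σ` is the uniform limit of `σ_J = Ct (ns μ (dz μ) J)` (`neu` with `g = dz μ`). For fixed `J` apply `grn` to `a = exp σ_J`, `b = μ exp σ_J` (smooth):
`db a - dz b = exp σ_J (db σ_J - dz μ - μ dz σ_J) = exp σ_J (ns J - dz μ - μ Bt (ns J)) = - exp σ_J * nt μ (dz μ) (J+1)`
(`db_exp`, `dz_exp`, `dz_mul`, `db_ct`, `ns_rec`). `‖exp σ_J‖ ≤ M` for all `J` (uniform convergence, `σ` bounded) and the integral of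
`‖nt (J+1)‖` over the plane (it vanishes for `R ≤ ‖z‖`) is at most `2 R (∫ ‖nt (J+1)‖²)^(1/2) ≤ 2 R δ^(J+1) (∫ ‖dz μ‖²)^(1/2) → 0` (`l1_l2`, `nt_l2`); the
double integral over the rectangle is at most the integral over the plane (`‖∫∫ g‖ ≤ ∫ ‖g‖`; use the change of variables `ℝ × ℝ ≃ ℂ`, `Complex.volume_preserving_equiv_real_prod`).
So the right side tends to `0`; the left side converges to the left side for `exp σ`, `μ exp σ` (uniform convergence on compact segments). -/

namespace H73.BR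

open MeasureTheory Complex Filter Topology
open scoped ContDiff

private theorem clo_prod {R : ℝ} {g : ℂ → ℂ} (hg : Cf R g) (x1 x2 y1 y2 : ℝ) :
    ‖∫ x : ℝ in x1..x2, ∫ y : ℝ in y1..y2, g (x + y * Complex.I)‖ ≤ ∫ z, ‖g z‖ := by
  have hgi : Integrable (fun z => ‖g z‖) := hg.int.norm
  set G : ℝ × ℝ → ℝ := fun p => ‖g (p.1 + p.2 * Complex.I)‖ with hG
  have hcomp : (fun z : ℂ => G (Complex.measurableEquivRealProd z)) = fun z => ‖g z‖ := by
    funext z
    simp [hG, Complex.measurableEquivRealProd_apply, Complex.re_add_im]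
  have hme := Complex.measurableEquivRealProd.measurableEmbedding
  have hGi : Integrable G := by
    refine (Complex.volume_preserving_equiv_real_prod.integrable_comp_emb hme).1 ?_
    have h0 : (G ∘ Complex.measurableEquivRealProd) = fun z => ‖g z‖ := hcomp
    rw [h0]
    exact hgi
  have hGint : ∫ p, G p = ∫ z, ‖g z‖ := by
    rw [← Complex.volume_preserving_equiv_real_prod.integral_comp hme G, hcomp]
  have hprod : ∫ p, G p = ∫ x : ℝ, ∫ y : ℝ, G (x, y) := integral_prod G hGi
  have hcs : ∀ x : ℝ, Integrable fun y : ℝ => G (x, y) := by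
    intro x
    have hc : Continuous fun y : ℝ => G (x, y) := by
      refine Continuous.norm ?_
      exact hg.cont.comp (by fun_prop)
    refine hc.integrable_of_hasCompactSupport ?_
    refine HasCompactSupport.intro (isCompact_Icc (a := -R) (b := R)) fun y hy => ?_
    have h1 : R ≤ |y| := by
      by_contra h2
      rw [not_le, abs_lt] at h2
      exact hy ⟨h2.1.le, h2.2.le⟩
    have h3 : |y| ≤ ‖(x : ℂ) + y * Complex.I‖ := by
      have h4 := Complex.abs_im_le_norm ((x : ℂ) + y * Complex.I)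
      simpa using h4
    simp only [hG]
    rw [hg.supp _ (h1.trans h3), norm_zero]
  have hout : Integrable fun x : ℝ => ∫ y : ℝ, G (x, y) := hGi.integral_prod_left
  calc ‖∫ x : ℝ in x1..x2, ∫ y : ℝ in y1..y2, g (x + y * Complex.I)‖
      ≤ ∫ x : ℝ in Set.uIoc x1 x2, ‖∫ y : ℝ in y1..y2, g (x + y * Complex.I)‖ :=
        intervalIntegral.norm_integral_le_integral_norm_uIoc
    _ ≤ ∫ x : ℝ in Set.uIoc x1 x2, ∫ y : ℝ, G (x, y) := by
        refine integral_mono_of_nonneg (Eventually.of_forall fun x => norm_nonneg _)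
          hout.integrableOn (Eventually.of_forall fun x => ?_)
        refine (intervalIntegral.norm_integral_le_integral_norm_uIoc).trans ?_
        exact setIntegral_le_integral (hcs x) (Eventually.of_forall fun y => norm_nonneg _)
    _ ≤ ∫ x : ℝ, ∫ y : ℝ, G (x, y) :=
        setIntegral_le_integral hout (Eventually.of_forall fun x =>
          integral_nonneg fun y => norm_nonneg _)
    _ = ∫ z, ‖g z‖ := by rw [← hprod, hGint]

theorem clo {R δ : ℝ} {μ σ : ℂ → ℂ} (hR : 0 < R) (hμ : Tf R μ) (hδ : 0 ≤ δ) (hδ1 : 42 * δ ≤ 1)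
    (hb : ∀ z, ‖μ z‖ ≤ δ) (hσ : Continuous σ) (hσ0 : Tendsto σ (cocompact ℂ) (𝓝 0))
    (hu : TendstoUniformly (fun J => Ct (ns μ (dz μ) J)) σ atTop) (x1 x2 y1 y2 : ℝ) :
    (∫ x in x1..x2, Complex.exp (σ (x + y1 * Complex.I)) * (1 + μ (x + y1 * Complex.I))) +
      (∫ y in y1..y2, Complex.I * (Complex.exp (σ (x2 + y * Complex.I)) *
        (1 - μ (x2 + y * Complex.I)))) -
      (∫ x in x1..x2, Complex.exp (σ (x + y2 * Complex.I)) * (1 + μ (x + y2 * Complex.I))) -
      (∫ y in y1..y2, Complex.I * (Complex.exp (σ (x1 + y * Complex.I)) *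
        (1 - μ (x1 + y * Complex.I)))) = 0 := by
  -- a global bound of σ
  obtain ⟨S, hS⟩ : ∃ S : ℝ, ∀ z, ‖σ z‖ ≤ S := by
    have h1 := hσ0.eventually (Metric.ball_mem_nhds (0 : ℂ) one_pos)
    obtain ⟨K, hK, hK2⟩ := mem_cocompact.1 h1
    obtain ⟨C, hC⟩ := hK.exists_bound_of_continuousOn hσ.continuousOn
    refine ⟨max C 1, fun z => ?_⟩
    by_cases hz : z ∈ K
    · exact (hC z hz).trans (le_max_left _ _)
    · have h2 : σ z ∈ Metric.ball (0 : ℂ) 1 := hK2 hz
      rw [mem_ball_zero_iff] at h2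
      exact h2.le.trans (le_max_right _ _)
  have hg0 : Tf R (dz μ) := hμ.dz
  set sg : ℕ → ℂ → ℂ := fun J => Ct (ns μ (dz μ) J) with hsg
  have hns : ∀ J, Tf R (ns μ (dz μ) J) := fun J => ns_tf hμ hg0 J
  have hsm : ∀ J, ContDiff ℝ ∞ (sg J) := fun J => ct_smooth (hns J)
  have hclose : ∀ᶠ J in atTop, ∀ z, ‖Complex.exp (sg J z)‖ ≤ Real.exp (S + 1) := by
    have h1 := Metric.tendstoUniformly_iff.1 hu 1 one_pos
    refine h1.mono fun J hJ z => ?_
    rw [Complex.norm_exp]
    refine Real.exp_le_exp.2 ?_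
    have h2 := hJ z
    rw [dist_eq_norm] at h2
    have h3 : (sg J z).re ≤ ‖sg J z‖ := Complex.re_le_norm _
    have h4 : ‖sg J z‖ ≤ ‖σ z‖ + ‖σ z - sg J z‖ := by
      have h5 := norm_sub_le (σ z) (σ z - sg J z)
      rwa [sub_sub_cancel] at h5
    linarith [hS z]
  have hpt : ∀ z, Tendsto (fun J => Complex.exp (sg J z)) atTop (𝓝 (Complex.exp (σ z))) :=
    fun z => (Complex.continuous_exp.tendsto _).comp (hu.tendsto_at z)
  -- convergence of one integral
  have hconv : ∀ (q w : ℝ → ℂ) (u v : ℝ), Continuous q → Continuous w →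
      Tendsto (fun J => ∫ x in u..v, Complex.exp (sg J (q x)) * w x) atTop
        (𝓝 (∫ x in u..v, Complex.exp (σ (q x)) * w x)) := by
    intro q w u v hq hw
    refine intervalIntegral.tendsto_integral_filter_of_dominated_convergence
      (fun x => Real.exp (S + 1) * ‖w x‖) ?_ ?_ ?_ ?_
    · refine Eventually.of_forall fun J => ?_
      have : Continuous fun x => Complex.exp (sg J (q x)) * w x :=
        (Complex.continuous_exp.comp ((hsm J).continuous.comp hq)).mul hw
      exact this.aestronglyMeasurable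
    · refine hclose.mono fun J hJ => Eventually.of_forall fun x _ => ?_
      rw [norm_mul]
      exact mul_le_mul_of_nonneg_right (hJ _) (norm_nonneg _)
    · exact (continuous_const.mul hw.norm).intervalIntegrable _ _
    · refine Eventually.of_forall fun x _ => ?_
      exact (hpt (q x)).mul_const _
  have hμc : Continuous μ := hμ.smooth.continuous
  -- the left side for J
  have hA : ∀ (s : ℂ → ℂ) (y : ℝ), (∫ x in x1..x2, Complex.exp (s (x + y * Complex.I)) *
      (1 + μ (x + y * Complex.I))) = ∫ x : ℝ in x1..x2,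
        Complex.exp (s ((fun x : ℝ => (x : ℂ) + y * Complex.I) x)) *
          (fun x : ℝ => 1 + μ (x + y * Complex.I)) x := fun s y => rfl
  have hB : ∀ (s : ℂ → ℂ) (x : ℝ), (∫ y in y1..y2, Complex.I *
      (Complex.exp (s (x + y * Complex.I)) * (1 - μ (x + y * Complex.I)))) =
      ∫ y : ℝ in y1..y2,
        Complex.exp (s ((fun y : ℝ => (x : ℂ) + y * Complex.I) y)) *
          (fun y : ℝ => Complex.I * (1 - μ (x + y * Complex.I))) y := by
    intro s x
    congr 1
    funext y
    ring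
  have hcA : ∀ y : ℝ, Continuous fun x : ℝ => (x : ℂ) + y * Complex.I := fun y => by fun_prop
  have hcB : ∀ x : ℝ, Continuous fun y : ℝ => (x : ℂ) + y * Complex.I := fun x => by fun_prop
  have hlim : Tendsto (fun J => (∫ x in x1..x2, Complex.exp (sg J (x + y1 * Complex.I)) *
        (1 + μ (x + y1 * Complex.I))) +
      (∫ y in y1..y2, Complex.I * (Complex.exp (sg J (x2 + y * Complex.I)) *
        (1 - μ (x2 + y * Complex.I)))) -
      (∫ x in x1..x2, Complex.exp (sg J (x + y2 * Complex.I)) * (1 + μ (x + y2 * Complex.I))) -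
      (∫ y in y1..y2, Complex.I * (Complex.exp (sg J (x1 + y * Complex.I)) *
        (1 - μ (x1 + y * Complex.I))))) atTop
      (𝓝 ((∫ x in x1..x2, Complex.exp (σ (x + y1 * Complex.I)) * (1 + μ (x + y1 * Complex.I))) +
      (∫ y in y1..y2, Complex.I * (Complex.exp (σ (x2 + y * Complex.I)) *
        (1 - μ (x2 + y * Complex.I)))) -
      (∫ x in x1..x2, Complex.exp (σ (x + y2 * Complex.I)) * (1 + μ (x + y2 * Complex.I))) -
      (∫ y in y1..y2, Complex.I * (Complex.exp (σ (x1 + y * Complex.I)) *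
        (1 - μ (x1 + y * Complex.I)))))) := by
    simp only [hA, hB]
    have hw1 : ∀ y : ℝ, Continuous fun x : ℝ => 1 + μ (x + y * Complex.I) := fun y =>
      continuous_const.add (hμc.comp (hcA y))
    have hw2 : ∀ x : ℝ, Continuous fun y : ℝ => Complex.I * (1 - μ (x + y * Complex.I)) :=
      fun x => continuous_const.mul (continuous_const.sub (hμc.comp (hcB x)))
    exact (((hconv _ _ x1 x2 (hcA y1) (hw1 y1)).add (hconv _ _ y1 y2 (hcB x2) (hw2 x2))).sub
      (hconv _ _ x1 x2 (hcA y2) (hw1 y2))).sub (hconv _ _ y1 y2 (hcB x1) (hw2 x1))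
  refine tendsto_nhds_unique hlim ?_
  -- the left side tends to zero
  set Q : ℝ := ∫ z, ‖dz μ z‖ ^ 2 with hQ
  have hQ0 : 0 ≤ Q := integral_nonneg fun z => by positivity
  have hbound : ∀ᶠ J in atTop, ‖(∫ x in x1..x2, Complex.exp (sg J (x + y1 * Complex.I)) *
        (1 + μ (x + y1 * Complex.I))) +
      (∫ y in y1..y2, Complex.I * (Complex.exp (sg J (x2 + y * Complex.I)) *
        (1 - μ (x2 + y * Complex.I)))) -
      (∫ x in x1..x2, Complex.exp (sg J (x + y2 * Complex.I)) * (1 + μ (x + y2 * Complex.I))) -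
      (∫ y in y1..y2, Complex.I * (Complex.exp (sg J (x1 + y * Complex.I)) *
        (1 - μ (x1 + y * Complex.I))))‖ ≤
      (4 * Real.exp (S + 1) * R * √Q) * δ ^ (J + 1) := by
    refine hclose.mono fun J hJ => ?_
    have ha : ContDiff ℝ 1 fun z => Complex.exp (sg J z) :=
      ((hsm J).of_le (by simp)).cexp
    have hbb : ContDiff ℝ 1 fun z => μ z * Complex.exp (sg J z) :=
      (hμ.smooth.of_le (by simp)).mul ha
    have h1 := grn ha hbb x1 x2 y1 y2
    have h2 : ∀ z : ℂ, Complex.exp (sg J z) + μ z * Complex.exp (sg J z) =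
        Complex.exp (sg J z) * (1 + μ z) := fun z => by ring
    have h3 : ∀ z : ℂ, Complex.exp (sg J z) - μ z * Complex.exp (sg J z) =
        Complex.exp (sg J z) * (1 - μ z) := fun z => by ring
    simp only [h2, h3] at h1
    rw [h1]
    have hds : ∀ z, DifferentiableAt ℝ (sg J) z := fun z =>
      (hsm J).differentiable (by simp) z
    have hde : ∀ z, DifferentiableAt ℝ (fun w => Complex.exp (sg J w)) z := fun z =>
      ha.differentiable (by norm_num) z
    have hdm : ∀ z, DifferentiableAt ℝ μ z := fun z => hμ.smooth.differentiable (by simp) z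
    have h4 : ∀ z : ℂ, db (fun w => Complex.exp (sg J w)) z -
        dz (fun w => μ w * Complex.exp (sg J w)) z =
        -(Complex.exp (sg J z) * nt μ (dz μ) (J + 1) z) := by
      intro z
      rw [db_exp (hds z), dz_mul (hdm z) (hde z), dz_exp (hds z)]
      have h5 : db (sg J) z = ns μ (dz μ) J z := db_ct (hns J) z
      have h6 : dz (sg J) z = Bt (ns μ (dz μ) J) z := rfl
      have h7 := ns_rec hμ hg0 J z
      rw [h5, h6]
      linear_combination Complex.exp (sg J z) * h7
    simp only [h4]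
    have hntf : Tf R (nt μ (dz μ) (J + 1)) := nt_tf hμ hg0 (J + 1)
    have hcf : Cf R fun z => -(Complex.exp (sg J z) * nt μ (dz μ) (J + 1) z) := by
      refine ⟨(ha.continuous.mul hntf.smooth.continuous).neg, fun z hz => ?_⟩
      rw [hntf.supp z hz, mul_zero, neg_zero]
    have h8 := clo_prod hcf x1 x2 y1 y2
    have h9 : ∫ z, ‖-(Complex.exp (sg J z) * nt μ (dz μ) (J + 1) z)‖ ≤
        ∫ z, Real.exp (S + 1) * ‖nt μ (dz μ) (J + 1) z‖ := by
      refine integral_mono hcf.int.norm (hntf.cf.int.norm.const_mul _) fun z => ?_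
      simp only [norm_neg, norm_mul]
      exact mul_le_mul_of_nonneg_right (hJ z) (norm_nonneg _)
    rw [integral_const_mul] at h9
    have h10 := l1_l2 hntf.cf hR
    have h11 := nt_l2 hμ hg0 hδ hb (J + 1)
    have h12 : √(∫ w, ‖nt μ (dz μ) (J + 1) w‖ ^ 2) ≤ δ ^ (J + 1) * √Q := by
      refine (Real.sqrt_le_sqrt h11).trans ?_
      rw [Real.sqrt_mul (by positivity), ← pow_mul, mul_comm 2 (J + 1), pow_mul,
        Real.sqrt_sq (by positivity)]
    have h13 : 0 ≤ Real.exp (S + 1) := (Real.exp_pos _).le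
    rw [norm_mul, norm_mul, Complex.norm_I, mul_one]
    have h14 : ‖(2 : ℂ)‖ = 2 := by simp
    rw [h14]
    calc 2 * ‖∫ x : ℝ in x1..x2, ∫ y : ℝ in y1..y2,
          -(Complex.exp (sg J (x + y * Complex.I)) * nt μ (dz μ) (J + 1) (x + y * Complex.I))‖
        ≤ 2 * (Real.exp (S + 1) * (2 * R * (δ ^ (J + 1) * √Q))) := by
          refine mul_le_mul_of_nonneg_left (h8.trans (h9.trans ?_)) (by norm_num)
          refine mul_le_mul_of_nonneg_left (h10.trans ?_) h13
          exact mul_le_mul_of_nonneg_left h12 (by positivity)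
      _ = (4 * Real.exp (S + 1) * R * √Q) * δ ^ (J + 1) := by ring
  have hz : Tendsto (fun J : ℕ => (4 * Real.exp (S + 1) * R * √Q) * δ ^ (J + 1)) atTop (𝓝 0) := by
    have h1 : Tendsto (fun J : ℕ => δ ^ (J + 1)) atTop (𝓝 0) :=
      (tendsto_pow_atTop_nhds_zero_of_lt_one hδ (by linarith)).comp (tendsto_add_atTop_nat 1)
    simpa using h1.const_mul (4 * Real.exp (S + 1) * R * √Q)
  exact squeeze_zero_norm' hbound hz

end H73.BR
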