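import Pool.Agent.H73.BR.Cal

set_option autoImplicit false

/-! # [H73 BR CPX] Quotients are holomorphic

Let `w = φ z`, `ψ = φ.symm`, `H = F ∘ ψ`. `H` is real differentiable at `w` and `F = H ∘ φ` (near `z`): by the chain rule
`db F z = dz H w * db φ z + db H w * conj (dz φ z)`, `dz F z = dz H w * dz φ z + db H w * conj (db φ z)`. With `db φ z = ν dz φ z` and `db F z = ν dz F z`:
`0 = db F z - ν dz F z = db H w * (conj (dz φ z) - ν conj (db φ z)) = db H w * conj (dz φ z) * (1 - ‖ν‖²)`, so `db H w = 0`; `hol_of_db`. -/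

namespace H73.BR

open MeasureTheory Complex Filter Topology
open scoped ContDiff

theorem cpx {μ : ℂ → ℂ} {φ : ℂ ≃ₜ ℂ} (h : Sol μ φ) {F : ℂ → ℂ} {z : ℂ}
    (hF : DifferentiableAt ℝ F z) (hν : ‖μ z‖ < 1) (hb : db F z = μ z * dz F z) :
    DifferentiableAt ℂ (fun w => F (φ.symm w)) (φ z) := by
  have hφ : DifferentiableAt ℝ φ z := h.c1.differentiable (by norm_num) z
  have hψ : DifferentiableAt ℝ φ.symm (φ z) := h.c1s.differentiable (by norm_num) _
  have hH : DifferentiableAt ℝ (fun w => F (φ.symm w)) (φ z) := by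
    have h1 : DifferentiableAt ℝ F (φ.symm (φ z)) := by
      rw [φ.symm_apply_apply]
      exact hF
    exact h1.comp (φ z) hψ
  set H : ℂ → ℂ := fun w => F (φ.symm w) with hHdef
  have hcomp : (fun w => H (φ w)) = F := by
    funext w
    simp [hHdef]
  have h1 := dz_comp (F := H) (G := φ) hH hφ
  have h2 := db_comp (F := H) (G := φ) hH hφ
  rw [hcomp] at h1 h2
  have h3 := h.eq z
  have h4 := h.ne z
  have h5 : (starRingEnd ℂ) (db φ z) = (starRingEnd ℂ) (μ z) * (starRingEnd ℂ) (dz φ z) := by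
    rw [h3, map_mul]
  have h6 : db H (φ z) * ((starRingEnd ℂ) (dz φ z) * (1 - μ z * (starRingEnd ℂ) (μ z))) = 0 := by
    rw [h1, h2, h5, h3] at hb
    linear_combination hb
  have h7 : (starRingEnd ℂ) (dz φ z) ≠ 0 := by
    intro h0
    apply h4
    rwa [map_eq_zero] at h0
  have h8 : (1 : ℂ) - μ z * (starRingEnd ℂ) (μ z) ≠ 0 := by
    intro h0
    rw [Complex.mul_conj, Complex.normSq_eq_norm_sq] at h0
    have h9 : (1 : ℝ) - ‖μ z‖ ^ 2 = 0 := by
      exact_mod_cast h0
    nlinarith [norm_nonneg (μ z)]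
  have h10 : db H (φ z) = 0 := by
    rcases mul_eq_zero.1 h6 with h0 | h0
    · exact h0
    · exact absurd h0 (mul_ne_zero h7 h8)
  exact (hol_of_db hH h10).differentiableAt

end H73.BR
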