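import Mathlib

set_option autoImplicit false

/-! # [H73 BR] Beltrami equation with smooth small coefficients: definitions (MP_8f2e1c_an, BARRIER)

`dz`, `db`: the Wirtinger derivatives. `Ct f = (1/π) ∫ f(z-w)/w`: the Cauchy transform, `Bt f = dz (Ct f)`:
the Beurling transform. `Mo f A`: `∫_B ‖f‖² ≤ A² r` for all discs `B` of radius `r`. All functions are
continuous; the test functions `Tf R` are smooth and vanish for `R ≤ ‖z‖`. -/

namespace H73.BR

open MeasureTheory Complex Filter Topology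
open scoped ContDiff

/-- the Wirtinger derivative with respect to `z` -/
noncomputable def dz (F : ℂ → ℂ) (z : ℂ) : ℂ :=
  (1 / 2 : ℂ) * (fderiv ℝ F z 1 - Complex.I * fderiv ℝ F z Complex.I)

/-- the Wirtinger derivative with respect to the conjugate of `z` -/
noncomputable def db (F : ℂ → ℂ) (z : ℂ) : ℂ :=
  (1 / 2 : ℂ) * (fderiv ℝ F z 1 + Complex.I * fderiv ℝ F z Complex.I)

/-- continuous functions which vanish for `R ≤ ‖z‖` -/
structure Cf (R : ℝ) (f : ℂ → ℂ) : Prop where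
  cont : Continuous f
  supp : ∀ z, R ≤ ‖z‖ → f z = 0

/-- smooth functions which vanish for `R ≤ ‖z‖` -/
structure Tf (R : ℝ) (f : ℂ → ℂ) : Prop where
  smooth : ContDiff ℝ ∞ f
  supp : ∀ z, R ≤ ‖z‖ → f z = 0

/-- the Cauchy transform -/
noncomputable def Ct (f : ℂ → ℂ) (z : ℂ) : ℂ :=
  (1 / (Real.pi : ℂ)) * ∫ w : ℂ, w⁻¹ * f (z - w)

/-- the Beurling transform -/
noncomputable def Bt (f : ℂ → ℂ) (z : ℂ) : ℂ := dz (Ct f) z

/-- the Morrey condition -/
def Mo (f : ℂ → ℂ) (A : ℝ) : Prop :=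
  0 ≤ A ∧ ∀ (x : ℂ) (r : ℝ), 0 < r → ∫ w in Metric.ball x r, ‖f w‖ ^ 2 ≤ A ^ 2 * r

/-- distance to the identity and Hoelder condition with the constant `B` -/
def Est (B : ℝ) (F : ℂ → ℂ) : Prop :=
  (∀ z, ‖F z - z‖ ≤ B) ∧ ∀ z w, ‖F z - F w‖ ≤ ‖z - w‖ + B * √‖z - w‖

/-- terms of the Neumann series: `nt μ g j = (μ Bt)^j g` -/
noncomputable def nt (μ g : ℂ → ℂ) : ℕ → ℂ → ℂ
  | 0 => g
  | j + 1 => fun z => μ z * Bt (nt μ g j) z

/-- partial sums of the Neumann series -/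
noncomputable def ns (μ g : ℂ → ℂ) (J : ℕ) (z : ℂ) : ℂ := ∑ j ∈ Finset.range (J + 1), nt μ g j z

/-- normalised diffeomorphisms of class `C^1` of the plane with the coefficient `μ` -/
structure Sol (μ : ℂ → ℂ) (φ : ℂ ≃ₜ ℂ) : Prop where
  c1 : ContDiff ℝ 1 φ
  c1s : ContDiff ℝ 1 φ.symm
  eq : ∀ z, db φ z = μ z * dz φ z
  ne : ∀ z, dz φ z ≠ 0
  inf : Tendsto (fun z => φ z - z) (cocompact ℂ) (𝓝 0)

/-- the mollifiers -/
noncomputable def bmp (j : ℕ) : ContDiffBump (0 : ℂ) where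
  rIn := 1 / (2 * ((j : ℝ) + 1))
  rOut := 1 / ((j : ℝ) + 1)
  rIn_pos := by positivity
  rIn_lt_rOut := by
    apply one_div_lt_one_div_of_lt (by positivity)
    have : (0 : ℝ) < (j : ℝ) + 1 := by positivity
    linarith

/-- mollification -/
noncomputable def Ml (j : ℕ) (F : ℂ → ℂ) (z : ℂ) : ℂ :=
  ∫ t : ℂ, ((bmp j).normed volume t) • F (z - t)

theorem Tf.cf {R : ℝ} {f : ℂ → ℂ} (h : Tf R f) : Cf R f := ⟨h.smooth.continuous, h.supp⟩

theorem Cf.mono {R R' : ℝ} {f : ℂ → ℂ} (h : Cf R f) (hR : R ≤ R') : Cf R' f :=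
  ⟨h.cont, fun z hz => h.supp z (hR.trans hz)⟩

theorem Tf.mono {R R' : ℝ} {f : ℂ → ℂ} (h : Tf R f) (hR : R ≤ R') : Tf R' f :=
  ⟨h.smooth, fun z hz => h.supp z (hR.trans hz)⟩

theorem Cf.cpt {R : ℝ} {f : ℂ → ℂ} (h : Cf R f) : HasCompactSupport f := by
  refine HasCompactSupport.intro (isCompact_closedBall (0 : ℂ) R) fun z hz => h.supp z ?_
  rw [Metric.mem_closedBall, dist_zero_right, not_le] at hz
  exact hz.le

theorem Tf.cpt {R : ℝ} {f : ℂ → ℂ} (h : Tf R f) : HasCompactSupport f := h.cf.cpt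

theorem Cf.int {R : ℝ} {f : ℂ → ℂ} (h : Cf R f) : Integrable f :=
  h.cont.integrable_of_hasCompactSupport h.cpt

theorem Cf.int2 {R : ℝ} {f : ℂ → ℂ} (h : Cf R f) : Integrable fun z => ‖f z‖ ^ 2 := by
  refine (h.cont.norm.pow 2).integrable_of_hasCompactSupport ?_
  refine HasCompactSupport.intro (isCompact_closedBall (0 : ℂ) R) fun z hz => ?_
  rw [Metric.mem_closedBall, dist_zero_right, not_le] at hz
  show ‖f z‖ ^ 2 = 0
  rw [h.supp z hz.le, norm_zero]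
  norm_num

end H73.BR
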