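import Pool.Agent.H73.BR.CtB
import Pool.Agent.H73.BR.Cal

set_option autoImplicit false

/-! # [H73 BR INJ] Global injectivity and surjectivity

Let `f = db φ` (`Cf R f`). The real derivative of `φ` at `z` is `h ↦ dz φ z * h + db φ z * conj h` (`fd_eq`), which is injective (`‖db φ z‖ ≤ δ ‖dz φ z‖`,
`δ < 1`, `dz φ z ≠ 0`), so an isomorphism; `φ` is a local homeomorphism (`HasStrictFDerivAt` from `ContDiff ℝ 1`,
`HasStrictFDerivAt.toOpenPartialHomeomorph`), so open and locally injective (`loc_inj`, `op_map`).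
`inj`: let `D = {(z,z') : z ≠ z', φ z = φ z'}`. Closed: a limit `(z,z')` of points of `D` has `φ z = φ z'`, and `z = z'` contradicts local
injectivity. Bounded: `φ - id` is bounded by some `M`, so `‖z - z'‖ ≤ 2 M` on `D`; if both `‖z‖, ‖z'‖ ≥ R + L` with
`∫ ‖f‖ < L²` then `ct_dif` gives `‖z - z'‖ = ‖Ct f z' - Ct f z‖ < ‖z - z'‖`, impossible. So `D` is compact. If it is not empty let `(z,z') ∈ D` with `‖φ z‖`
maximal. Let `U ∋ z`, `U' ∋ z'` be disjoint neighbourhoods; `φ '' U` and `φ '' U'` are neighbourhoods of `w = φ z` (open map), so they contain a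
point `w'` with `‖w'‖ > ‖w‖` (`w' = (1 + ε) w`, or `w' = ε` if `w = 0`); this gives a point of `D` with larger norm.
`surj`: the range is open (`op_map`) and closed (`φ - id` bounded: `φ` is proper, `‖φ z‖ → ∞`), the plane is connected. -/

namespace H73.BR

open MeasureTheory Complex Filter Topology
open scoped ContDiff

/-- the hypotheses on `φ` -/
structure Pre (R δ : ℝ) (φ : ℂ → ℂ) : Prop where
  c1 : ContDiff ℝ 1 φ
  bel : ∀ z, ‖db φ z‖ ≤ δ * ‖dz φ z‖
  ne : ∀ z, dz φ z ≠ 0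
  supp : ∀ z, R ≤ ‖z‖ → db φ z = 0
  rep : ∀ z, φ z = z + Ct (db φ) z

theorem fd_equiv {R δ : ℝ} (hδ1 : δ < 1) {φ : ℂ → ℂ} (h : Pre R δ φ) (z : ℂ) :
    ∃ e : ℂ ≃L[ℝ] ℂ, HasStrictFDerivAt φ (e : ℂ →L[ℝ] ℂ) z := by
  have hs : HasStrictFDerivAt φ (fderiv ℝ φ z) z :=
    h.c1.contDiffAt.hasStrictFDerivAt (by simp)
  have hinj : Function.Injective (fderiv ℝ φ z) := by
    rw [injective_iff_map_eq_zero]
    intro v hv
    rw [fd_eq] at hv
    have h1 : dz φ z * v = -(db φ z * (starRingEnd ℂ) v) := eq_neg_of_add_eq_zero_left hv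
    have h2 : ‖dz φ z‖ * ‖v‖ = ‖db φ z‖ * ‖v‖ := by
      have := congrArg norm h1
      rwa [norm_neg, norm_mul, norm_mul, Complex.norm_conj] at this
    by_contra hne
    have hv0 : 0 < ‖v‖ := norm_pos_iff.2 hne
    have h3 : ‖dz φ z‖ = ‖db φ z‖ := mul_right_cancel₀ hv0.ne' h2
    have h4 := h.bel z
    have h5 : 0 < ‖dz φ z‖ := norm_pos_iff.2 (h.ne z)
    rw [← h3] at h4
    nlinarith
  have hsurj : Function.Surjective (fderiv ℝ φ z) :=
    LinearMap.injective_iff_surjective.1 hinj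
  refine ⟨ContinuousLinearEquiv.ofBijective (fderiv ℝ φ z)
    (LinearMap.ker_eq_bot.2 hinj) (LinearMap.range_eq_top.2 hsurj), ?_⟩
  rw [ContinuousLinearEquiv.coe_ofBijective]
  exact hs

theorem op_map {R δ : ℝ} (hδ1 : δ < 1) {φ : ℂ → ℂ} (h : Pre R δ φ) : IsOpenMap φ := by
  rw [isOpenMap_iff_nhds_le]
  intro z
  obtain ⟨e, he⟩ := fd_equiv hδ1 h z
  rw [he.map_nhds_eq_of_equiv]

theorem loc_inj {R δ : ℝ} (hδ1 : δ < 1) {φ : ℂ → ℂ} (h : Pre R δ φ) (z : ℂ) :
    ∃ U ∈ 𝓝 z, Set.InjOn φ U := by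
  obtain ⟨e, he⟩ := fd_equiv hδ1 h z
  refine ⟨(he.toOpenPartialHomeomorph φ).source,
    (he.toOpenPartialHomeomorph φ).open_source.mem_nhds he.mem_toOpenPartialHomeomorph_source, ?_⟩
  have := (he.toOpenPartialHomeomorph φ).injOn
  rwa [he.toOpenPartialHomeomorph_coe] at this

theorem pre_cf {R δ : ℝ} {φ : ℂ → ℂ} (h : Pre R δ φ) : Cf R (db φ) := ⟨cont_db h.c1, h.supp⟩

theorem pre_bd {R δ : ℝ} {φ : ℂ → ℂ} (h : Pre R δ φ) : ∃ M, ∀ z, ‖φ z - z‖ ≤ M := by
  have h1 := ct_cont (pre_cf h)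
  have h2 := ct_inf (pre_cf h)
  have h3 : ∀ᶠ z in cocompact ℂ, ‖Ct (db φ) z‖ < 1 := by
    have := h2.norm
    rw [norm_zero] at this
    exact this.eventually (gt_mem_nhds one_pos)
  obtain ⟨K, hK, hK2⟩ := mem_cocompact.1 h3
  obtain ⟨C, hC⟩ := hK.exists_bound_of_continuousOn h1.continuousOn
  refine ⟨max C 1, fun z => ?_⟩
  have h4 : φ z - z = Ct (db φ) z := by rw [h.rep z]; ring
  rw [h4]
  by_cases hz : z ∈ K
  · exact (hC z hz).trans (le_max_left _ _)
  · exact (le_of_lt (hK2 hz)).trans (le_max_right _ _)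

theorem exists_larger {w : ℂ} {V : Set ℂ} (hV : V ∈ 𝓝 w) : ∃ w' ∈ V, ‖w‖ < ‖w'‖ := by
  obtain ⟨u, hu⟩ : ∃ u : ℂ, ∀ t : ℝ, 0 < t → ‖w‖ < ‖w + (t : ℂ) * u‖ := by
    by_cases hw : w = 0
    · refine ⟨1, fun t ht => ?_⟩
      rw [hw, zero_add, mul_one, norm_zero, Complex.norm_real, Real.norm_eq_abs]
      exact abs_pos.2 ht.ne'
    · refine ⟨w, fun t ht => ?_⟩
      have h1 : w + (t : ℂ) * w = ((1 + t : ℝ) : ℂ) * w := by push_cast; ring
      rw [h1, norm_mul, Complex.norm_real, Real.norm_eq_abs, abs_of_pos (by linarith)]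
      have := norm_pos_iff.2 hw
      nlinarith
  have h1 : Tendsto (fun t : ℝ => w + (t : ℂ) * u) (𝓝[>] 0) (𝓝 w) := by
    have h2 : Continuous (fun t : ℝ => w + (t : ℂ) * u) := by fun_prop
    have h3 := h2.tendsto 0
    simp only [Complex.ofReal_zero, zero_mul, add_zero] at h3
    exact h3.mono_left nhdsWithin_le_nhds
  obtain ⟨t, ht1, ht2⟩ := ((h1.eventually hV).and self_mem_nhdsWithin).exists
  exact ⟨_, ht1, hu t ht2⟩

theorem inj {R δ : ℝ} (hδ1 : δ < 1) {φ : ℂ → ℂ} (h : Pre R δ φ) : Function.Injective φ := by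
  by_contra hni
  have hc : Continuous φ := h.c1.continuous
  obtain ⟨M, hM⟩ := pre_bd h
  set D : Set (ℂ × ℂ) := {p | p.1 ≠ p.2 ∧ φ p.1 = φ p.2} with hD
  have hne : D.Nonempty := by
    rw [Function.Injective] at hni
    push Not at hni
    obtain ⟨a, b, h1, h2⟩ := hni
    exact ⟨(a, b), h2, h1⟩
  have hcl : IsClosed D := by
    rw [← isOpen_compl_iff, isOpen_iff_mem_nhds]
    rintro ⟨a, b⟩ hab
    by_cases h1 : φ a = φ b
    · have h2 : a = b := by
        by_contra h3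
        exact hab ⟨h3, h1⟩
      subst h2
      obtain ⟨U, hU, hU2⟩ := loc_inj hδ1 h a
      refine mem_of_superset (prod_mem_nhds hU hU) ?_
      rintro ⟨x, y⟩ ⟨hx, hy⟩ ⟨h3, h4⟩
      exact h3 (hU2 hx hy h4)
    · have h2 : IsOpen {p : ℂ × ℂ | φ p.1 ≠ φ p.2} :=
        isOpen_ne_fun (hc.comp continuous_fst) (hc.comp continuous_snd)
      refine mem_of_superset (h2.mem_nhds h1) ?_
      intro p hp hp2
      exact hp hp2.2
  have hI : 0 ≤ ∫ w, ‖db φ w‖ := integral_nonneg fun _ => norm_nonneg _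
  set I := ∫ w, ‖db φ w‖ with hIdef
  set L := √I + 1 with hL
  have hL0 : 0 < L := by positivity
  have hLI : I < L * L := by
    have := Real.mul_self_sqrt hI
    have h2 := Real.sqrt_nonneg I
    nlinarith
  have hdist : ∀ a b, φ a = φ b → ‖a - b‖ ≤ 2 * M := by
    intro a b hab
    have h1 : a - b = (φ b - b) - (φ a - a) := by rw [hab]; ring
    rw [h1]
    calc _ ≤ ‖φ b - b‖ + ‖φ a - a‖ := norm_sub_le _ _
      _ ≤ M + M := add_le_add (hM b) (hM a)
      _ = 2 * M := by ring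
  have hM0 : 0 ≤ M := (norm_nonneg _).trans (hM 0)
  have hsmall : ∀ a b, a ≠ b → φ a = φ b → ‖a‖ < R + L ∨ ‖b‖ < R + L := by
    intro a b hab h1
    by_contra h2
    push Not at h2
    obtain ⟨h3, h4⟩ := h2
    have h5 := ct_dif (pre_cf h) (z := a) (z' := b) (by linarith) (by linarith)
    have h6 : Ct (db φ) a - Ct (db φ) b = -(a - b) := by
      have e1 := h.rep a
      have e2 := h.rep b
      have e3 : Ct (db φ) a = φ a - a := by rw [e1]; ring
      have e4 : Ct (db φ) b = φ b - b := by rw [e2]; ring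
      rw [e3, e4, h1]; ring
    rw [h6, norm_neg] at h5
    have h7 : 0 < ‖a - b‖ := norm_pos_iff.2 (sub_ne_zero.2 hab)
    have h8 : L * L ≤ (‖a‖ - R) * (‖b‖ - R) :=
      mul_le_mul (by linarith) (by linarith) hL0.le (by linarith)
    have h9 : (∫ w, ‖db φ w‖) / ((‖a‖ - R) * (‖b‖ - R)) < 1 := by
      rw [div_lt_one (lt_of_lt_of_le (mul_pos hL0 hL0) h8)]
      exact lt_of_lt_of_le hLI h8
    nlinarith
  have hbd : Bornology.IsBounded D := by
    refine (Metric.isBounded_closedBall (x := (0 : ℂ × ℂ)) (r := R + L + 2 * M)).subset ?_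
    rintro ⟨a, b⟩ ⟨h1, h2⟩
    have h3 := hdist a b h2
    have h4 := norm_sub_norm_le a b
    have h5 := norm_sub_norm_le b a
    rw [norm_sub_rev b a] at h5
    rw [mem_closedBall_zero_iff, Prod.norm_def]
    refine max_le ?_ ?_
    · show ‖a‖ ≤ _
      rcases hsmall a b h1 h2 with h6 | h6 <;> linarith
    · show ‖b‖ ≤ _
      rcases hsmall a b h1 h2 with h6 | h6 <;> linarith
  have hcomp : IsCompact D := Metric.isCompact_of_isClosed_isBounded hcl hbd
  obtain ⟨⟨a, b⟩, ⟨hab, hφ⟩, hmax⟩ := hcomp.exists_isMaxOn hne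
    (f := fun p : ℂ × ℂ => ‖φ p.1‖) (hc.comp continuous_fst).norm.continuousOn
  obtain ⟨U, V, hU, hV, haU, hbV, hUV⟩ := t2_separation hab
  have hO := op_map hδ1 h
  have h1 : φ '' U ∈ 𝓝 (φ a) := hO.image_mem_nhds (hU.mem_nhds haU)
  have h2 : φ '' V ∈ 𝓝 (φ a) := by
    simp only at hφ
    rw [hφ]
    exact hO.image_mem_nhds (hV.mem_nhds hbV)
  obtain ⟨w', ⟨⟨x, hx, hx2⟩, ⟨y, hy, hy2⟩⟩, h3⟩ := exists_larger (inter_mem h1 h2)
  have h4 : (x, y) ∈ D := by
    refine ⟨?_, by show φ x = φ y; rw [hx2, hy2]⟩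
    show x ≠ y
    rintro rfl
    exact Set.disjoint_left.1 hUV hx hy
  have h5 := hmax h4
  simp only [Set.mem_setOf_eq] at h5
  rw [hx2] at h5
  linarith

theorem surj {R δ : ℝ} (hδ1 : δ < 1) {φ : ℂ → ℂ} (h : Pre R δ φ) : Function.Surjective φ := by
  have hc : Continuous φ := h.c1.continuous
  obtain ⟨M, hM⟩ := pre_bd h
  have hO := op_map hδ1 h
  have h1 : Tendsto φ (cocompact ℂ) (cocompact ℂ) := by
    rw [← Metric.cobounded_eq_cocompact, ← tendsto_norm_atTop_iff_cobounded]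
    refine tendsto_atTop_mono (fun z => ?_)
      (tendsto_atTop_add_const_right _ (-M) tendsto_norm_cobounded_atTop)
    have h2 := hM z
    have h3 := norm_sub_norm_le z (φ z)
    rw [norm_sub_rev] at h3
    linarith
  have h2 : IsProperMap φ := isProperMap_iff_tendsto_cocompact.2 ⟨hc, h1⟩
  have h3 : IsClopen (Set.range φ) := ⟨h2.isClosedMap.isClosed_range, hO.isOpen_range⟩
  exact Set.range_eq_univ.1 (h3.eq_univ (Set.range_nonempty φ))

end H73.BR
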