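import Pool.Agent.H73.BR.Slv
import Pool.Agent.H73.BR.Inj

set_option autoImplicit false

/-! # [H73 BR EXI] Existence of the diffeomorphism

`slv` gives `φ` with `Pre R δ φ` (`δ ≤ 1/42 < 1`), `inj`, `surj`, `op_map` (`Equiv.toHomeomorphOfContinuousOpen` or similar) give a homeomorphism, the inverse is of class `C^1`
by `fd_equiv` (`Homeomorph.contDiff_symm` or `OpenPartialHomeomorph.contDiffAt_symm`). -/

namespace H73.BR

open MeasureTheory Complex Filter Topology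
open scoped ContDiff

theorem exi {R δ : ℝ} {μ : ℂ → ℂ} (hR : 0 < R) (hμ : Tf R μ) (hδ : 0 ≤ δ) (hδ1 : 42 * δ ≤ 1)
    (hb : ∀ z, ‖μ z‖ ≤ δ) : ∃ φ : ℂ ≃ₜ ℂ, Sol μ φ := by
  obtain ⟨φ, hc1, heq, hne, hrep, hinf⟩ := slv hR hμ hδ hδ1 hb
  have hδ2 : δ < 1 := by linarith
  have hP : Pre R δ φ := by
    refine ⟨hc1, fun z => ?_, hne, fun z hz => ?_, hrep⟩
    · rw [heq z, norm_mul]
      exact mul_le_mul_of_nonneg_right (hb z) (norm_nonneg _)
    · rw [heq z, hμ.supp z hz, zero_mul]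
  let e : ℂ ≃ₜ ℂ := (Equiv.ofBijective φ ⟨inj hδ2 hP, surj hδ2 hP⟩).toHomeomorphOfContinuousOpen
    hc1.continuous (op_map hδ2 hP)
  have he : (e : ℂ → ℂ) = φ := rfl
  choose d hd using fun z => fd_equiv hδ2 hP z
  refine ⟨e, ⟨by rw [he]; exact hc1, ?_, ?_, ?_, ?_⟩⟩
  · exact e.contDiff_symm (f₀' := d) (fun a => by rw [he]; exact (hd a).hasFDerivAt)
      (by rw [he]; exact hc1)
  · intro z
    rw [he]
    exact heq z
  · intro z
    rw [he]
    exact hne z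
  · rw [he]
    exact hinf

end H73.BR
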