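import Pool.Agent.H73.BR.Exq

/-! # [H73 BR EXP] Export for the straightening (helper84's interface), from `Exq.lean` -/

set_option autoImplicit false

open Filter Topology MeasureTheory ComplexConjugate Set
open scoped ContDiff ENNReal

namespace Pool.Agent.H73.BR

/-- Wirtinger derivatives -/
noncomputable def dz (f : ℂ → ℂ) (z : ℂ) : ℂ :=
  (fderiv ℝ f z 1 - Complex.I * fderiv ℝ f z Complex.I) / 2

noncomputable def dzb (f : ℂ → ℂ) (z : ℂ) : ℂ :=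
  (fderiv ℝ f z 1 + Complex.I * fderiv ℝ f z Complex.I) / 2

theorem beltrami_limit : ∃ K : ℝ, 0 < K ∧ ∀ δ R : ℝ, 0 < δ → K * δ ≤ 1 → 0 < R →
    ∀ μ : ℕ → ℂ → ℂ, (∀ m, ContDiff ℝ ∞ (μ m)) → (∀ m z, ‖μ m z‖ ≤ δ) → (∀ m z, R < ‖z‖ → μ m z = 0) →
    (∀ ε : ℝ≥0∞, 0 < ε → ∃ M, ∀ m ≥ M, ∀ m' ≥ M, volume {z | μ m z ≠ μ m' z} ≤ ε) →
    ∃ φ : ℂ ≃ₜ ℂ, (∀ z, ‖φ z - z‖ ≤ K * δ * R) ∧
      (∀ O : Set ℂ, IsOpen O → (∀ m, ∀ z ∈ O, μ m z = 0) → DifferentiableOn ℂ φ O) ∧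
      ∀ (O : Set ℂ) (G : ℂ → ℂ), IsOpen O → ContDiffOn ℝ 1 G O →
        (∀ m, ∀ z ∈ O, dzb G z + μ m (G z) * conj (dz G z) = μ (m + 1) z * (dz G z + μ m (G z) * conj (dzb G z))) →
        DifferentiableOn ℂ (fun w => φ (G (φ.symm w))) (φ '' O) := by
  have hdz : ∀ (f : ℂ → ℂ) (z : ℂ), _root_.H73.BR.dz f z = dz f z := by
    intro f z
    unfold _root_.H73.BR.dz dz
    ring
  have hdb : ∀ (f : ℂ → ℂ) (z : ℂ), _root_.H73.BR.db f z = dzb f z := by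
    intro f z
    unfold _root_.H73.BR.db dzb
    ring
  obtain ⟨K, hK, h⟩ := _root_.H73.BR.beltrami_limit
  refine ⟨K, hK, ?_⟩
  intro δ R hδ hδ1 hR μ h1 h2 h3 h4
  obtain ⟨φ, hφ1, hφ2, hφ3⟩ := h δ R hδ hδ1 hR μ h1 h2 h3 h4
  refine ⟨φ, hφ1, hφ3, ?_⟩
  intro O G hO hG hrel
  refine hφ2 O G hO hG fun m z hz => ?_
  rw [hdz, hdb]
  exact hrel m z hz

end Pool.Agent.H73.BR
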