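import Pool.Agent.H73.BR.LimB
import Pool.Agent.H73.BR.Exi
import Pool.Agent.H73.BR.Cpx

set_option autoImplicit false

/-! # [H73 BR EXQ] Export: the limit of the quasiconformal conjugacies

`K = 42`. `exp1`: the case `R = 1` (`Tf 1 (μ m)`: by continuity `μ m z = 0` also for `‖z‖ = 1`; `Seq 1 δ μ`). `exi` gives `φ m` with `Sol (μ m) (φ m)`; `lim` gives `Φ`. `‖Φ z - z‖ ≤ 40 δ`.
Let `F = φ m ∘ G` near `z ∈ O`: by `dz_comp`, `db_comp`, `Sol.eq`
`dz F z = dz (φ m) (G z) * (dz G z + μ m (G z) * conj (db G z))`, `db F z = dz (φ m) (G z) * (db G z + μ m (G z) * conj (dz G z))`, so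
`db F z = μ (m+1) z * dz F z` and `cpx` shows that `w ↦ φ m (G ((φ (m+1)).symm w))` is complex differentiable at `φ (m+1) z`; `limB`. The last claim: if `μ m = 0` on `O` for all `m` then `db (φ m) = 0`
on `O`, `φ m` is holomorphic on `O` (`hol_of_db`), so is the uniform limit `Φ` (`TendstoLocallyUniformlyOn.differentiableOn`).
`beltrami_limit`: scaling: apply `exp1` to `fun z => μ m (R z)` and put `φ z = R * Φ (z/R)`; for `O`, `G` use `O' = {z | R z ∈ O}`, `G' z = G (R z)/R`: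
`dz G' z = dz G (R z)`, `db G' z = db G (R z)`. (The volume of the preimage of a set under `z ↦ R z` is `R⁻²` times the volume: `Measure.addHaar_preimage_smul`.) -/

namespace H73.BR

open MeasureTheory Complex Filter Topology
open scoped ContDiff

theorem exp1 {δ : ℝ} (hδ : 0 ≤ δ) (hδ1 : 42 * δ ≤ 1) {μ : ℕ → ℂ → ℂ} (h : Seq 1 δ μ) :
    ∃ φ : ℂ ≃ₜ ℂ, (∀ z, ‖φ z - z‖ ≤ 42 * δ) ∧
      (∀ (O : Set ℂ) (G : ℂ → ℂ), IsOpen O → ContDiffOn ℝ 1 G O →
        (∀ m, ∀ z ∈ O, db G z + μ m (G z) * (starRingEnd ℂ) (dz G z) =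
          μ (m + 1) z * (dz G z + μ m (G z) * (starRingEnd ℂ) (db G z))) →
        DifferentiableOn ℂ (fun w => φ (G (φ.symm w))) (φ '' O)) ∧
      ∀ O : Set ℂ, IsOpen O → (∀ m, ∀ z ∈ O, μ m z = 0) → DifferentiableOn ℂ φ O := by
  have hex : ∀ m, ∃ φ : ℂ ≃ₜ ℂ, Sol (μ m) φ := fun m =>
    exi one_pos (h.tf m) hδ hδ1 (h.bd m)
  choose φ hφ using hex
  obtain ⟨Φ, h1, h2, h3, -⟩ := lim le_rfl hδ hδ1 (by linarith) h hφ
  refine ⟨Φ, fun z => (h3.1 z).trans (by linarith), ?_, ?_⟩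
  · intro O G hO hG hrel
    refine limB le_rfl hδ hδ1 h1 h2 h3 hO hG.continuousOn fun m => ?_
    rintro w ⟨z, hz, rfl⟩
    have hGz : DifferentiableAt ℝ G z :=
      (hG.differentiableOn one_ne_zero).differentiableAt (hO.mem_nhds hz)
    have hφd : DifferentiableAt ℝ (φ m) (G z) :=
      (hφ m).c1.differentiable one_ne_zero (G z)
    have hF : DifferentiableAt ℝ (fun w => φ m (G w)) z := hφd.comp z hGz
    have hlt : ‖μ (m + 1) z‖ < 1 := by
      have := h.bd (m + 1) z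
      linarith
    refine (cpx (hφ (m + 1)) (F := fun w => φ m (G w)) hF hlt ?_).differentiableWithinAt
    rw [dz_comp hφd hGz, db_comp hφd hGz, (hφ m).eq]
    linear_combination (dz (φ m) (G z)) * hrel m z hz
  · intro O hO hz
    refine (h1.tendstoUniformlyOn (s := O)).tendstoLocallyUniformlyOn.differentiableOn
      (Eventually.of_forall fun m z hzO => ?_) hO
    have hd : DifferentiableAt ℝ (φ m) z := (hφ m).c1.differentiable one_ne_zero z
    have h0 : db (φ m) z = 0 := by rw [(hφ m).eq, hz m z hzO, zero_mul]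
    exact (hol_of_db hd h0).differentiableAt.differentiableWithinAt

private theorem exq_zero {R : ℝ} (hR : 0 < R) {f : ℂ → ℂ} (hf : Continuous f)
    (h : ∀ z, R < ‖z‖ → f z = 0) (z : ℂ) (hz : R ≤ ‖z‖) : f z = 0 := by
  have hcl : IsClosed {w : ℂ | f w = 0} := isClosed_eq hf continuous_const
  have ht : Tendsto (fun t : ℝ => ((1 + t : ℝ) : ℂ) * z) (𝓝[>] 0) (𝓝 z) := by
    have h1 : Continuous fun t : ℝ => ((1 + t : ℝ) : ℂ) * z := by fun_prop
    have h2 := h1.tendsto 0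
    simp only [add_zero, Complex.ofReal_one, one_mul] at h2
    exact h2.mono_left nhdsWithin_le_nhds
  refine hcl.mem_of_tendsto ht ?_
  filter_upwards [self_mem_nhdsWithin] with t ht
  rw [Set.mem_Ioi] at ht
  refine h _ ?_
  rw [norm_mul, Complex.norm_real, Real.norm_eq_abs, abs_of_pos (by linarith)]
  nlinarith

private theorem exq_lin (c z : ℂ) : db (fun w => c * w) z = 0 ∧ dz (fun w => c * w) z = c := by
  refine db_of_hol ?_
  have h := (hasDerivAt_id z).const_mul c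
  rw [mul_one] at h
  exact h

theorem beltrami_limit : ∃ K : ℝ, 0 < K ∧ ∀ δ R : ℝ, 0 < δ → K * δ ≤ 1 → 0 < R →
    ∀ μ : ℕ → ℂ → ℂ, (∀ m, ContDiff ℝ ∞ (μ m)) → (∀ m z, ‖μ m z‖ ≤ δ) →
    (∀ m z, R < ‖z‖ → μ m z = 0) →
    (∀ ε : ENNReal, 0 < ε → ∃ M : ℕ, ∀ m, M ≤ m → ∀ m', M ≤ m' →
      volume {z | μ m z ≠ μ m' z} ≤ ε) →
    ∃ φ : ℂ ≃ₜ ℂ, (∀ z, ‖φ z - z‖ ≤ K * δ * R) ∧
      (∀ (O : Set ℂ) (G : ℂ → ℂ), IsOpen O → ContDiffOn ℝ 1 G O →
        (∀ m, ∀ z ∈ O, db G z + μ m (G z) * (starRingEnd ℂ) (dz G z) =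
          μ (m + 1) z * (dz G z + μ m (G z) * (starRingEnd ℂ) (db G z))) →
        DifferentiableOn ℂ (fun w => φ (G (φ.symm w))) (φ '' O)) ∧
      ∀ O : Set ℂ, IsOpen O → (∀ m, ∀ z ∈ O, μ m z = 0) → DifferentiableOn ℂ φ O := by
  refine ⟨42, by norm_num, ?_⟩
  intro δ R hδ hδ1 hR μ hsm hbd hsupp hvol
  have hRc : (R : ℂ) ≠ 0 := by exact_mod_cast hR.ne'
  obtain ⟨ν, hν⟩ : ∃ ν : ℕ → ℂ → ℂ, ν = fun m z => μ m ((R : ℂ) * z) := ⟨_, rfl⟩
  have hνe : ∀ m z, ν m z = μ m ((R : ℂ) * z) := fun m z => by rw [hν]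
  have hseq : Seq 1 δ ν := by
    refine ⟨fun m => ⟨?_, ?_⟩, ?_, ?_⟩
    · rw [hν]
      exact (hsm m).comp (contDiff_const.mul contDiff_id)
    · intro z hz
      rw [hνe]
      refine exq_zero hR (hsm m).continuous (hsupp m) _ ?_
      rw [norm_mul, Complex.norm_real, Real.norm_eq_abs, abs_of_pos hR]
      nlinarith
    · intro m z
      rw [hνe]
      exact hbd m _
    · intro ε hε
      obtain ⟨c, hc⟩ : ∃ c : ENNReal, c = ENNReal.ofReal |(R ^ Module.finrank ℝ ℂ)⁻¹| := ⟨_, rfl⟩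
      have hctop : c ≠ ⊤ := by
        rw [hc]
        exact ENNReal.ofReal_ne_top
      obtain ⟨M, hM⟩ := hvol (ε / c) (ENNReal.div_pos hε.ne' hctop)
      refine ⟨M, fun m hm m' hm' => ?_⟩
      have h1 : {z | ν m z ≠ ν m' z} = (R • ·) ⁻¹' {z | μ m z ≠ μ m' z} := by
        ext z
        simp only [Set.mem_preimage, Set.mem_ofPred_eq, hνe, Complex.real_smul]
      rw [h1, Measure.addHaar_preimage_smul _ hR.ne', ← hc]
      calc c * volume {z | μ m z ≠ μ m' z} ≤ c * (ε / c) := by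
            gcongr
            exact hM m hm m' hm'
        _ ≤ ε := ENNReal.mul_div_le
  obtain ⟨Φ, hΦ1, hΦ2, hΦ3⟩ := exp1 hδ.le hδ1 hseq
  obtain ⟨φ, hφ⟩ : ∃ φ : ℂ ≃ₜ ℂ, φ = (Homeomorph.mulLeft₀ (R : ℂ) hRc).symm.trans
    (Φ.trans (Homeomorph.mulLeft₀ (R : ℂ) hRc)) := ⟨_, rfl⟩
  have hφe : ∀ z, φ z = (R : ℂ) * Φ ((R : ℂ)⁻¹ * z) := by
    intro z
    rw [hφ]
    rfl
  have hφs : ∀ z, φ.symm z = (R : ℂ) * Φ.symm ((R : ℂ)⁻¹ * z) := by
    intro z
    rw [Homeomorph.symm_apply_eq, hφe, inv_mul_cancel_left₀ hRc, Homeomorph.apply_symm_apply,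
      mul_inv_cancel_left₀ hRc]
  refine ⟨φ, ?_, ?_, ?_⟩
  · intro z
    have h1 : φ z - z = (R : ℂ) * (Φ ((R : ℂ)⁻¹ * z) - (R : ℂ)⁻¹ * z) := by
      rw [hφe, mul_sub, mul_inv_cancel_left₀ hRc]
    rw [h1, norm_mul, Complex.norm_real, Real.norm_eq_abs, abs_of_pos hR, mul_comm]
    exact mul_le_mul_of_nonneg_right (hΦ1 _) hR.le
  · intro O G hO hG hrel
    obtain ⟨O', hO'⟩ : ∃ O' : Set ℂ, O' = (fun z => (R : ℂ) * z) ⁻¹' O := ⟨_, rfl⟩
    have hmem : ∀ z, z ∈ O' ↔ (R : ℂ) * z ∈ O := by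
      intro z
      rw [hO']
      exact Iff.rfl
    have hcont : Continuous fun z : ℂ => (R : ℂ) * z := continuous_const.mul continuous_id
    have hOo : IsOpen O' := by
      rw [hO']
      exact hO.preimage hcont
    obtain ⟨G', hG'⟩ : ∃ G' : ℂ → ℂ, G' = fun z => (R : ℂ)⁻¹ * G ((R : ℂ) * z) := ⟨_, rfl⟩
    have hGd : ContDiffOn ℝ 1 G' O' := by
      rw [hG']
      refine contDiffOn_const.mul (hG.comp (contDiff_const.mul contDiff_id).contDiffOn ?_)
      intro z hz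
      exact (hmem z).1 hz
    have hder : ∀ z ∈ O', dz G' z = dz G ((R : ℂ) * z) ∧ db G' z = db G ((R : ℂ) * z) := by
      intro z hz
      have hd1 : DifferentiableAt ℝ G ((R : ℂ) * z) :=
        (hG.differentiableOn one_ne_zero).differentiableAt (hO.mem_nhds ((hmem z).1 hz))
      have hd2 : DifferentiableAt ℝ (fun w : ℂ => (R : ℂ) * w) z :=
        (differentiableAt_id.const_mul (R : ℂ))
      have hd3 : DifferentiableAt ℝ (fun w : ℂ => G ((R : ℂ) * w)) z := hd1.comp z hd2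
      have hd4 : DifferentiableAt ℝ (fun w : ℂ => (R : ℂ)⁻¹ * w) (G ((R : ℂ) * z)) :=
        (differentiableAt_id.const_mul (R : ℂ)⁻¹)
      obtain ⟨e1, e2⟩ := exq_lin (R : ℂ) z
      obtain ⟨e3, e4⟩ := exq_lin (R : ℂ)⁻¹ (G ((R : ℂ) * z))
      have e5 : dz (fun w => G ((R : ℂ) * w)) z = dz G ((R : ℂ) * z) * R := by
        rw [dz_comp (G := fun w => (R : ℂ) * w) hd1 hd2, e1, e2, map_zero, mul_zero, add_zero]
      have e6 : db (fun w => G ((R : ℂ) * w)) z = db G ((R : ℂ) * z) * R := by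
        rw [db_comp (G := fun w => (R : ℂ) * w) hd1 hd2, e1, e2, mul_zero, zero_add,
          Complex.conj_ofReal]
      constructor
      · rw [hG']
        rw [dz_comp (F := fun w => (R : ℂ)⁻¹ * w) (G := fun w => G ((R : ℂ) * w)) hd4 hd3, e3, e4,
          zero_mul, add_zero, e5]
        field_simp
      · rw [hG']
        rw [db_comp (F := fun w => (R : ℂ)⁻¹ * w) (G := fun w => G ((R : ℂ) * w)) hd4 hd3, e3, e4,
          zero_mul, add_zero, e6]
        field_simp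
    have hΦG := hΦ2 O' G' hOo hGd (by
      intro m z hz
      obtain ⟨e1, e2⟩ := hder z hz
      have e3 : ν m (G' z) = μ m (G ((R : ℂ) * z)) := by
        rw [hνe, hG']
        change μ m ((R : ℂ) * ((R : ℂ)⁻¹ * G ((R : ℂ) * z))) = _
        rw [mul_inv_cancel_left₀ hRc]
      rw [e1, e2, e3, hνe]
      exact hrel m _ ((hmem z).1 hz))
    have hfun : (fun w => φ (G (φ.symm w))) =
        fun w => (R : ℂ) * (fun v => Φ (G' (Φ.symm v))) ((R : ℂ)⁻¹ * w) := by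
      funext w
      rw [hφe, hφs, hG']
    rw [hfun]
    have hmaps : Set.MapsTo (fun w : ℂ => (R : ℂ)⁻¹ * w) (φ '' O) (Φ '' O') := by
      rintro w ⟨z, hz, rfl⟩
      refine ⟨(R : ℂ)⁻¹ * z, ?_, ?_⟩
      · rw [hmem, mul_inv_cancel_left₀ hRc]
        exact hz
      · show Φ ((R : ℂ)⁻¹ * z) = (R : ℂ)⁻¹ * φ z
        rw [hφe, inv_mul_cancel_left₀ hRc]
    exact (hΦG.comp (differentiableOn_id.const_mul (R : ℂ)⁻¹) hmaps).const_mul (R : ℂ)
  · intro O hO hz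
    obtain ⟨O', hO'⟩ : ∃ O' : Set ℂ, O' = (fun z => (R : ℂ) * z) ⁻¹' O := ⟨_, rfl⟩
    have hmem : ∀ z, z ∈ O' ↔ (R : ℂ) * z ∈ O := by
      intro z
      rw [hO']
      exact Iff.rfl
    have hcont : Continuous fun z : ℂ => (R : ℂ) * z := continuous_const.mul continuous_id
    have hOo : IsOpen O' := by
      rw [hO']
      exact hO.preimage hcont
    have h1 := hΦ3 O' hOo (fun m z hz' => by
      rw [hνe]
      exact hz m _ ((hmem z).1 hz'))
    have hfun : (φ : ℂ → ℂ) = fun w => (R : ℂ) * Φ ((R : ℂ)⁻¹ * w) := by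
      funext w
      exact hφe w
    rw [hfun]
    have hmaps : Set.MapsTo (fun w : ℂ => (R : ℂ)⁻¹ * w) O O' := by
      intro z hz'
      show (R : ℂ)⁻¹ * z ∈ O'
      rw [hmem, mul_inv_cancel_left₀ hRc]
      exact hz'
    exact (h1.comp (differentiableOn_id.const_mul (R : ℂ)⁻¹) hmaps).const_mul (R : ℂ)

end H73.BR
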