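import Pool.Agent.H73.BR.BtO

set_option autoImplicit false

/-! # [H73 BR ISO] The Beurling transform in `L²`

Let `F = Ct f`: `F` is smooth, `‖F z‖ = O(1/‖z‖)` (`ct_far`), `‖dz F z‖ = ‖Bt f z‖ = O(1/‖z‖²)` (`bt_far`), `db F = f`, `dz F = Ct (dz f)`,
`db (dz F) = db (Ct (dz f)) = dz f`. Integration by parts (`integral_mul_fderiv_eq_neg_fderiv_mul_of_integrable` in the
directions `1` and `I`, or a version for `dz`, `db`: `∫ u * db v = - ∫ db u * v` for `C^1` functions with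
`u * v` and all products integrable; the functions are continuous and `O((1 + ‖z‖)^(-3))` or have compact support:
`integrable_one_add_norm`):
`∫ ‖dz F‖² = ∫ dz F * conj (dz F) = ∫ dz F * db (conj F) = -∫ db (dz F) * conj F = -∫ dz f * conj F = ∫ f * dz (conj F) = ∫ f * conj (db F) = ∫ ‖f‖²`.
(`dz F * conj F` is `O(‖z‖^(-3))`, integrable in the plane; `f * conj F` has compact support.)
`Integrable ‖Bt f‖²`: continuous and `O((1+‖z‖)^(-4))`. -/

namespace H73.BR

open MeasureTheory Complex Filter Topology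
open scoped ContDiff


/-- decay of order `k` -/
def isoD (k : ℕ) (H : ℂ → ℂ) : Prop := ∃ K : ℝ, 0 ≤ K ∧ ∀ z, ‖H z‖ ≤ K / (1 + ‖z‖) ^ k

theorem iso_mul {k l : ℕ} {H G : ℂ → ℂ} (h : isoD k H) (g : isoD l G) :
    isoD (k + l) fun z => H z * G z := by
  obtain ⟨K, hK, hK'⟩ := h
  obtain ⟨L, hL, hL'⟩ := g
  refine ⟨K * L, mul_nonneg hK hL, fun z => ?_⟩
  rw [norm_mul, pow_add, ← div_mul_div_comm]
  exact mul_le_mul (hK' z) (hL' z) (norm_nonneg _) (by positivity)

theorem iso_add {k : ℕ} {H G : ℂ → ℂ} (h : isoD k H) (g : isoD k G) :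
    isoD k fun z => H z + G z := by
  obtain ⟨K, hK, hK'⟩ := h
  obtain ⟨L, hL, hL'⟩ := g
  refine ⟨K + L, add_nonneg hK hL, fun z => ?_⟩
  rw [add_div]
  exact (norm_add_le _ _).trans (add_le_add (hK' z) (hL' z))

theorem iso_conj {k : ℕ} {H : ℂ → ℂ} (h : isoD k H) : isoD k fun z => (starRingEnd ℂ) (H z) := by
  obtain ⟨K, hK, hK'⟩ := h
  refine ⟨K, hK, fun z => ?_⟩
  rw [Complex.norm_conj]
  exact hK' z

theorem iso_const (c : ℂ) : isoD 0 fun _ => c := by
  refine ⟨‖c‖, norm_nonneg _, fun z => ?_⟩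
  simp

theorem iso_int {k : ℕ} {H : ℂ → ℂ} (hk : 3 ≤ k) (hc : Continuous H) (h : isoD k H) :
    Integrable H := by
  obtain ⟨K, hK, hK'⟩ := h
  have h1 := integrable_one_add_norm (E := ℂ) (μ := volume) (r := 3) (by
    rw [Complex.finrank_real_complex]
    norm_num)
  refine (h1.const_mul K).mono' hc.aestronglyMeasurable (Eventually.of_forall fun z => ?_)
  refine (hK' z).trans ?_
  have h2 : (1 + ‖z‖) ^ (-3 : ℝ) = ((1 + ‖z‖) ^ 3)⁻¹ := by
    rw [Real.rpow_neg (by positivity)]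
    congr 1
    exact_mod_cast Real.rpow_natCast (1 + ‖z‖) 3
  rw [h2, div_eq_mul_inv]
  refine mul_le_mul_of_nonneg_left ?_ hK
  refine inv_anti₀ (by positivity) ?_
  exact pow_le_pow_right₀ (by linarith [norm_nonneg z]) hk

theorem iso_far {k : ℕ} {H : ℂ → ℂ} (hc : Continuous H) {R C : ℝ} (hR : 1 ≤ R) (hC : 0 ≤ C)
    (h : ∀ z, R < ‖z‖ → ‖H z‖ ≤ C / (‖z‖ - R) ^ k) : isoD k H := by
  obtain ⟨M, hM⟩ := (isCompact_closedBall (0 : ℂ) (2 * R)).exists_bound_of_continuousOn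
    hc.continuousOn
  have hM0 : 0 ≤ M := (norm_nonneg _).trans (hM 0 (by
    rw [Metric.mem_closedBall, dist_self]
    linarith))
  refine ⟨M * (1 + 2 * R) ^ k + C * 4 ^ k, by positivity, fun z => ?_⟩
  rw [le_div_iff₀ (by positivity)]
  rcases le_or_gt ‖z‖ (2 * R) with hz | hz
  · have h1 : ‖H z‖ ≤ M := hM z (by rwa [Metric.mem_closedBall, dist_zero_right])
    have h2 : (1 + ‖z‖) ^ k ≤ (1 + 2 * R) ^ k := pow_le_pow_left₀ (by positivity) (by linarith) k
    have h3 : ‖H z‖ * (1 + ‖z‖) ^ k ≤ M * (1 + 2 * R) ^ k :=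
      mul_le_mul h1 h2 (by positivity) hM0
    have h4 : 0 ≤ C * 4 ^ k := by positivity
    linarith
  · have h1 := h z (by linarith)
    have hpos : 0 < ‖z‖ - R := by linarith
    rw [le_div_iff₀ (by positivity)] at h1
    have h2 : (1 + ‖z‖) ^ k ≤ (4 * (‖z‖ - R)) ^ k := pow_le_pow_left₀ (by positivity) (by linarith) k
    have h3 : ‖H z‖ * (1 + ‖z‖) ^ k ≤ C * 4 ^ k := by
      calc ‖H z‖ * (1 + ‖z‖) ^ k ≤ ‖H z‖ * (4 * (‖z‖ - R)) ^ k :=
            mul_le_mul_of_nonneg_left h2 (norm_nonneg _)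
        _ = (‖H z‖ * (‖z‖ - R) ^ k) * 4 ^ k := by
            rw [mul_pow]
            ring
        _ ≤ C * 4 ^ k := mul_le_mul_of_nonneg_right h1 (by positivity)
    have h4 : 0 ≤ M * (1 + 2 * R) ^ k := by positivity
    linarith

theorem iso_cf {k : ℕ} {R : ℝ} {H : ℂ → ℂ} (hR : 1 ≤ R) (h : Cf R H) : isoD k H := by
  refine iso_far h.cont hR le_rfl fun z hz => ?_
  rw [h.supp z hz.le]
  simp

theorem iso_fd {k : ℕ} {H : ℂ → ℂ} (h1 : isoD k (dz H)) (h2 : isoD k (db H)) (e : ℂ) :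
    isoD k fun z => fderiv ℝ H z e := by
  have h3 : (fun z => fderiv ℝ H z e) = fun z => dz H z * e + db H z * (starRingEnd ℂ) e := by
    funext z
    exact fd_eq H z e
  rw [h3]
  exact iso_add (iso_mul h1 (iso_const _)) (iso_mul h2 (iso_const _))

theorem iso_fc {H : ℂ → ℂ} (h : ContDiff ℝ ∞ H) (e : ℂ) : Continuous fun z => fderiv ℝ H z e :=
  (h.continuous_fderiv (by simp)).clm_apply continuous_const

/-- integration by parts -/
theorem iso_ibp {u v : ℂ → ℂ} (hu : ContDiff ℝ ∞ u) (hv : ContDiff ℝ ∞ v)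
    (h1 : Integrable fun z => u z * v z) (h2 : ∀ e, Integrable fun z => fderiv ℝ u z e * v z)
    (h3 : ∀ e, Integrable fun z => u z * fderiv ℝ v z e) :
    (∫ z, u z * db v z = - ∫ z, db u z * v z) ∧ (∫ z, u z * dz v z = - ∫ z, dz u z * v z) := by
  have k1 : ∀ e : ℂ, ∫ z, u z * fderiv ℝ v z e = - ∫ z, fderiv ℝ u z e * v z := fun e =>
    integral_mul_fderiv_eq_neg_fderiv_mul_of_integrable (h2 e) (h3 e) h1
      (fun x _ => hu.differentiable (by simp) x) (fun x _ => hv.differentiable (by simp) x)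
  have key : ∀ c : ℂ, ∫ z, u z * ((1 / 2 : ℂ) * (fderiv ℝ v z 1 + c * fderiv ℝ v z Complex.I)) =
      - ∫ z, ((1 / 2 : ℂ) * (fderiv ℝ u z 1 + c * fderiv ℝ u z Complex.I)) * v z := by
    intro c
    have e1 : ∀ z, u z * ((1 / 2 : ℂ) * (fderiv ℝ v z 1 + c * fderiv ℝ v z Complex.I)) =
        (1 / 2 : ℂ) * (u z * fderiv ℝ v z 1) + ((1 / 2 : ℂ) * c) * (u z * fderiv ℝ v z Complex.I) := by
      intro z
      ring
    have e2 : ∀ z, ((1 / 2 : ℂ) * (fderiv ℝ u z 1 + c * fderiv ℝ u z Complex.I)) * v z =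
        (1 / 2 : ℂ) * (fderiv ℝ u z 1 * v z) + ((1 / 2 : ℂ) * c) * (fderiv ℝ u z Complex.I * v z) := by
      intro z
      ring
    simp_rw [e1, e2]
    rw [integral_add ((h3 _).const_mul _) ((h3 _).const_mul _),
      integral_add ((h2 _).const_mul _) ((h2 _).const_mul _), integral_const_mul,
      integral_const_mul, integral_const_mul, integral_const_mul, k1, k1]
    ring
  constructor
  · exact key Complex.I
  · have := key (-Complex.I)
    simp only [neg_mul, ← sub_eq_add_neg] at this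
    exact this

theorem bt_int {R : ℝ} {f : ℂ → ℂ} (hf : Tf R f) :
    Integrable (fun z => ‖Bt f z‖ ^ 2) ∧ ∫ z, ‖Bt f z‖ ^ 2 = ∫ z, ‖f z‖ ^ 2 := by
  have hR : (1 : ℝ) ≤ max R 1 := le_max_right _ _
  have hf' : Tf (max R 1) f := hf.mono (le_max_left _ _)
  generalize max R 1 = R' at hR hf'
  clear hf
  -- the functions
  have sF : ContDiff ℝ ∞ (Ct f) := ct_smooth hf'
  have sG : ContDiff ℝ ∞ (Bt f) := bt_smooth hf'
  have hdb : db (Ct f) = f := funext fun z => db_ct hf' z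
  have hdz : dz (Ct f) = Bt f := rfl
  have hG : Bt f = Ct (dz f) := funext fun z => bt_eq hf' z
  have hdbG : db (Bt f) = dz f := by
    rw [hG]
    exact funext fun z => db_ct hf'.dz z
  have hdzG : dz (Bt f) = Bt (dz f) := by
    rw [hG]
    rfl
  have hint : ∀ g : ℂ → ℂ, 0 ≤ ∫ w, ‖g w‖ := fun g => integral_nonneg fun _ => norm_nonneg _
  have dF : isoD 1 (Ct f) := iso_far sF.continuous hR (hint f) fun z hz => by
    rw [pow_one]
    exact ct_far hf'.cf hz
  have dG : isoD 2 (Bt f) := iso_far sG.continuous hR (hint f) fun z hz => bt_far hf' hz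
  have dG' : isoD 2 (Bt (dz f)) := iso_far (bt_smooth hf'.dz).continuous hR (hint _)
    fun z hz => bt_far hf'.dz hz
  -- the conjugate of `F`
  have sC : ContDiff ℝ ∞ (fun z => (starRingEnd ℂ) (Ct f z)) :=
    Complex.conjCLE.contDiff.comp sF
  have dC : isoD 1 (fun z => (starRingEnd ℂ) (Ct f z)) := iso_conj dF
  have hdC : ∀ z, DifferentiableAt ℝ (Ct f) z := fun z => sF.differentiable (by simp) z
  have hdbC : db (fun z => (starRingEnd ℂ) (Ct f z)) = fun z => (starRingEnd ℂ) (Bt f z) := by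
    funext z
    rw [db_conj (hdC z), hdz]
  have hdzC : dz (fun z => (starRingEnd ℂ) (Ct f z)) = fun z => (starRingEnd ℂ) (f z) := by
    funext z
    rw [dz_conj (hdC z), hdb]
  have fG : ∀ e, isoD 2 fun z => fderiv ℝ (Bt f) z e := fun e => by
    refine iso_fd ?_ ?_ e
    · rw [hdzG]
      exact dG'
    · rw [hdbG]
      exact iso_cf hR hf'.dz.cf
  have fC : ∀ e, isoD 2 fun z => fderiv ℝ (fun z => (starRingEnd ℂ) (Ct f z)) z e := fun e => by
    refine iso_fd ?_ ?_ e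
    · rw [hdzC]
      exact iso_conj (iso_cf hR hf'.cf)
    · rw [hdbC]
      exact iso_conj dG
  have I1 := (iso_ibp sG sC
    (iso_int (k := 2 + 1) le_rfl (sG.continuous.mul sC.continuous) (iso_mul dG dC))
    (fun e => iso_int (k := 2 + 1) le_rfl ((iso_fc sG e).mul sC.continuous) (iso_mul (fG e) dC))
    (fun e => iso_int (k := 2 + 2) (by norm_num) (sG.continuous.mul (iso_fc sC e))
      (iso_mul dG (fC e)))).1
  have ff : ∀ e, isoD 2 fun z => fderiv ℝ f z e := fun e =>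
    iso_fd (iso_cf hR hf'.dz.cf) (iso_cf hR hf'.db.cf) e
  have I2 := (iso_ibp hf'.smooth sC
    (iso_int (k := 2 + 1) le_rfl (hf'.smooth.continuous.mul sC.continuous)
      (iso_mul (iso_cf hR hf'.cf) dC))
    (fun e => iso_int (k := 2 + 1) le_rfl ((iso_fc hf'.smooth e).mul sC.continuous)
      (iso_mul (ff e) dC))
    (fun e => iso_int (k := 2 + 2) (by norm_num) (hf'.smooth.continuous.mul (iso_fc sC e))
      (iso_mul (iso_cf hR hf'.cf) (fC e)))).2
  rw [hdbC, hdbG] at I1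
  rw [hdzC] at I2
  have I3 : ∫ z, Bt f z * (starRingEnd ℂ) (Bt f z) = ∫ z, f z * (starRingEnd ℂ) (f z) := by
    rw [I1, I2]
  have hn : ∀ g : ℂ → ℂ, (∫ z, g z * (starRingEnd ℂ) (g z)) = ((∫ z, ‖g z‖ ^ 2 : ℝ) : ℂ) := by
    intro g
    rw [← integral_complex_ofReal]
    congr 1
    funext z
    rw [Complex.mul_conj']
    push_cast
    rfl
  rw [hn, hn] at I3
  refine ⟨?_, by exact_mod_cast I3⟩
  have h5 : Integrable fun z => Bt f z * (starRingEnd ℂ) (Bt f z) :=
    iso_int (k := 2 + 2) (by norm_num)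
      (sG.continuous.mul (Complex.continuous_conj.comp sG.continuous)) (iso_mul dG (iso_conj dG))
  have h6 := h5.norm
  refine h6.congr (Eventually.of_forall fun z => ?_)
  simp only [norm_mul, Complex.norm_conj]
  rw [sq]

end H73.BR
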