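import Pool.Agent.H73.BR.CauB

set_option autoImplicit false

/-! # [H73 BR LIMA] The diffeomorphisms converge uniformly

`φ m' z - φ m z = Ct (f_m' - f_m) z` (`sol_est`, `ct_sub`); `Mo (f_m' - f_m) (8 δ √R)` (`mo_sub`). `ct_sup`: for every `s > 0`
`‖φ m' z - φ m z‖ ≤ 16 δ √R √s + (2 R/s) (∫ ‖f_m' - f_m‖²)^(1/2)` (`l1_l2`); choose `s` small, then `m, m'` large: `cau_u`.
`cau_i`: with `u = (φ m).symm w`: `(φ m').symm w - (φ m).symm w = (φ m').symm w - (φ m').symm (φ m' u)`, so by `sol_est'` its norm is at most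
`‖w - φ m' u‖ + B √‖w - φ m' u‖`, `w - φ m' u = φ m u - φ m' u`, uniformly small.
`lim`: the uniform limits `Φ`, `Ψ` (complete space, `UniformCauchySeqOn` or pointwise limits with uniform bounds) are continuous (uniform limits), `Ψ (Φ z) = z`: `‖(φ m).symm (φ m z) - (φ m).symm (Φ z)‖ → 0`; `Φ (Ψ w) = w` in the same way.
`Est` passes to the limit. -/

namespace H73.BR

open MeasureTheory Complex Filter Topology
open scoped ContDiff

theorem cau_u {R δ : ℝ} (hR : 1 ≤ R) (hδ : 0 ≤ δ) (hδ1 : 42 * δ ≤ 1) {μ : ℕ → ℂ → ℂ}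
    (h : Seq R δ μ) {φ : ℕ → ℂ ≃ₜ ℂ} (hφ : ∀ m, Sol (μ m) (φ m)) :
    ∀ ε : ℝ, 0 < ε → ∃ m0 : ℕ, ∀ m, m0 ≤ m → ∀ m', m0 ≤ m' → ∀ z, ‖φ m' z - φ m z‖ ≤ ε := by
  intro ε hε
  have hR0 : 0 < R := by linarith
  have hc0 : 0 ≤ 16 * δ * √R := by positivity
  set c : ℝ := 16 * δ * √R with hc
  set t : ℝ := ε / (2 * (c + 1)) with ht
  have ht0 : 0 < t := by positivity
  have hct : c * t ≤ ε / 2 := by
    rw [ht, ← mul_div_assoc, div_le_div_iff₀ (by positivity) (by norm_num)]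
    nlinarith
  set η : ℝ := (ε * t ^ 2 / (4 * R)) ^ 2 with hη
  have hη0 : 0 < η := by positivity
  obtain ⟨m0, hm0⟩ := cau_f hR hδ hδ1 h hφ η hη0
  refine ⟨m0, fun m hm m' hm' z => ?_⟩
  obtain ⟨a1, a2, -⟩ := sol_est hR hδ hδ1 (h.tf m) (h.bd m) (hφ m)
  obtain ⟨b1, b2, -⟩ := sol_est hR hδ hδ1 (h.tf m') (h.bd m') (hφ m')
  have hfm : Cf R (db (φ m)) := ⟨cont_db (hφ m).c1, (sol_db (h.tf m) (h.bd m) (hφ m)).2⟩
  have hfm' : Cf R (db (φ m')) := ⟨cont_db (hφ m').c1, (sol_db (h.tf m') (h.bd m') (hφ m')).2⟩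
  have hfd : Cf R (fun w => db (φ m') w - db (φ m) w) :=
    ⟨hfm'.cont.sub hfm.cont, fun w hw => by rw [hfm'.supp w hw, hfm.supp w hw, sub_zero]⟩
  have hmo := mo_sub hfm' hfm b2 a2
  have e1 : φ m' z - φ m z = Ct (fun w => db (φ m') w - db (φ m) w) z := by
    rw [ct_sub hfm' hfm, a1 z, b1 z]
    ring
  rw [e1]
  have e2 := ct_sup hfd hmo z (s := t ^ 2) (by positivity)
  rw [Real.sqrt_sq ht0.le] at e2
  have e3 := l1_l2 hfd hR0
  have e4 : √(∫ w, ‖db (φ m') w - db (φ m) w‖ ^ 2) ≤ ε * t ^ 2 / (4 * R) := by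
    refine Real.sqrt_le_iff.2 ⟨by positivity, ?_⟩
    exact hm0 m hm m' hm'
  have e5 : (∫ w, ‖db (φ m') w - db (φ m) w‖) / t ^ 2 ≤ ε / 2 := by
    rw [div_le_iff₀ (by positivity)]
    calc (∫ w, ‖db (φ m') w - db (φ m) w‖)
        ≤ 2 * R * √(∫ w, ‖db (φ m') w - db (φ m) w‖ ^ 2) := e3
      _ ≤ 2 * R * (ε * t ^ 2 / (4 * R)) := by gcongr
      _ = ε / 2 * t ^ 2 := by field_simp; ring
  have e6 : 2 * (4 * δ * √R + 4 * δ * √R) * t = c * t := by rw [hc]; ring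
  linarith

theorem cau_i {R δ : ℝ} (hR : 1 ≤ R) (hδ : 0 ≤ δ) (hδ1 : 42 * δ ≤ 1) (hδ2 : 40 * R * δ ≤ 1)
    {μ : ℕ → ℂ → ℂ} (h : Seq R δ μ) {φ : ℕ → ℂ ≃ₜ ℂ}
    (hφ : ∀ m, Sol (μ m) (φ m)) :
    ∀ ε : ℝ, 0 < ε → ∃ m0 : ℕ, ∀ m, m0 ≤ m → ∀ m', m0 ≤ m' → ∀ w,
      ‖(φ m').symm w - (φ m).symm w‖ ≤ ε := by
  intro ε hε
  have hR0 : 0 < R := by linarith
  set B : ℝ := 40 * (R + 1) * δ with hB
  have hB0 : 0 ≤ B := by positivity
  set t : ℝ := ε / (2 * (B + 1)) with ht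
  have ht0 : 0 < t := by positivity
  have hBt : B * t ≤ ε / 2 := by
    rw [ht, ← mul_div_assoc, div_le_div_iff₀ (by positivity) (by norm_num)]
    nlinarith
  obtain ⟨m0, hm0⟩ := cau_u hR hδ hδ1 h hφ (min (ε / 2) (t ^ 2)) (by positivity)
  refine ⟨m0, fun m hm m' hm' w => ?_⟩
  have h1 := hm0 m hm m' hm' ((φ m).symm w)
  rw [Homeomorph.apply_symm_apply] at h1
  obtain ⟨-, h2⟩ := sol_est' hR hδ hδ1 hδ2 (h.tf m') (h.bd m') (hφ m')
  have h3 := h2 w (φ m' ((φ m).symm w))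
  rw [Homeomorph.symm_apply_apply] at h3
  rw [norm_sub_rev] at h1
  have h4 : √‖w - φ m' ((φ m).symm w)‖ ≤ t := by
    refine Real.sqrt_le_iff.2 ⟨ht0.le, h1.trans (min_le_right _ _)⟩
  have h5 := h1.trans (min_le_left _ _)
  have h6 : 40 * (R + 1) * δ * √‖w - φ m' ((φ m).symm w)‖ ≤ B * t := by
    rw [← hB]; gcongr
  linarith

private theorem lim_aux {F : ℕ → ℂ → ℂ} (hF : ∀ m, Continuous (F m))
    (h : ∀ ε : ℝ, 0 < ε → ∃ m0 : ℕ, ∀ m, m0 ≤ m → ∀ m', m0 ≤ m' → ∀ z, ‖F m' z - F m z‖ ≤ ε) :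
    ∃ f : ℂ → ℂ, TendstoUniformly F f atTop ∧ Continuous f := by
  have hc : ∀ z, CauchySeq (fun m => F m z) := by
    intro z
    rw [Metric.cauchySeq_iff]
    intro ε hε
    obtain ⟨m0, hm0⟩ := h (ε / 2) (by linarith)
    refine ⟨m0, fun m hm n hn => ?_⟩
    rw [dist_eq_norm]
    have := hm0 n hn m hm z
    linarith
  choose f hf using fun z => cauchySeq_tendsto_of_complete (hc z)
  have hu : TendstoUniformly F f atTop := by
    rw [Metric.tendstoUniformly_iff]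
    intro ε hε
    obtain ⟨m0, hm0⟩ := h (ε / 2) (by linarith)
    filter_upwards [eventually_ge_atTop m0] with m hm z
    have h1 : Tendsto (fun m' => ‖F m' z - F m z‖) atTop (𝓝 ‖f z - F m z‖) :=
      ((hf z).sub_const _).norm
    have h2 : ‖f z - F m z‖ ≤ ε / 2 :=
      le_of_tendsto h1 ((eventually_ge_atTop m0).mono fun m' hm' => hm0 m hm m' hm' z)
    rw [dist_eq_norm]
    linarith
  exact ⟨f, hu, hu.continuous (Frequently.of_forall hF)⟩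

private theorem est_lim {B : ℝ} {F : ℕ → ℂ → ℂ} {f : ℂ → ℂ} (hF : ∀ m, Est B (F m))
    (h : ∀ z, Tendsto (fun m => F m z) atTop (𝓝 (f z))) : Est B f := by
  refine ⟨fun z => ?_, fun z w => ?_⟩
  · exact le_of_tendsto ((h z).sub_const z).norm (Eventually.of_forall fun m => (hF m).1 z)
  · exact le_of_tendsto ((h z).sub (h w)).norm (Eventually.of_forall fun m => (hF m).2 z w)

theorem lim {R δ : ℝ} (hR : 1 ≤ R) (hδ : 0 ≤ δ) (hδ1 : 42 * δ ≤ 1) (hδ2 : 40 * R * δ ≤ 1)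
    {μ : ℕ → ℂ → ℂ} (h : Seq R δ μ) {φ : ℕ → ℂ ≃ₜ ℂ}
    (hφ : ∀ m, Sol (μ m) (φ m)) :
    ∃ Φ : ℂ ≃ₜ ℂ, TendstoUniformly (fun m z => φ m z) Φ atTop ∧
      TendstoUniformly (fun m w => (φ m).symm w) Φ.symm atTop ∧
      Est (40 * R * δ) Φ ∧ Est (40 * (R + 1) * δ) Φ.symm := by
  obtain ⟨Φ0, hu, hc1⟩ := lim_aux (fun m => (φ m).continuous) (cau_u hR hδ hδ1 h hφ)
  obtain ⟨Ψ0, hv, hc2⟩ := lim_aux (fun m => (φ m).symm.continuous) (cau_i hR hδ hδ1 hδ2 h hφ)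
  have hl : Function.LeftInverse Ψ0 Φ0 := by
    intro z
    have h1 : Tendsto (fun m => (φ m).symm (φ m z)) atTop (𝓝 (Ψ0 (Φ0 z))) :=
      hv.tendsto_comp hc2.continuousAt (hu.tendsto_at z)
    simp only [Homeomorph.symm_apply_apply] at h1
    exact tendsto_nhds_unique h1 tendsto_const_nhds
  have hr : Function.RightInverse Ψ0 Φ0 := by
    intro z
    have h1 : Tendsto (fun m => φ m ((φ m).symm z)) atTop (𝓝 (Φ0 (Ψ0 z))) :=
      hu.tendsto_comp hc1.continuousAt (hv.tendsto_at z)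
    simp only [Homeomorph.apply_symm_apply] at h1
    exact tendsto_nhds_unique h1 tendsto_const_nhds
  let Φ : ℂ ≃ₜ ℂ :=
    { toFun := Φ0
      invFun := Ψ0
      left_inv := hl
      right_inv := hr
      continuous_toFun := hc1
      continuous_invFun := hc2 }
  refine ⟨Φ, hu, hv, ?_, ?_⟩
  · exact est_lim (fun m => (sol_est hR hδ hδ1 (h.tf m) (h.bd m) (hφ m)).2.2)
      (fun z => hu.tendsto_at z)
  · exact est_lim (fun m => sol_est' hR hδ hδ1 hδ2 (h.tf m) (h.bd m) (hφ m))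
      (fun z => hv.tendsto_at z)

end H73.BR
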