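import Pool.Agent.H73.BR.LimA

set_option autoImplicit false

/-! # [H73 BR LIMB] Limits of holomorphic quotients are holomorphic

`Ω` open, `G` continuous on `Ω`, `Φ` the limit from `lim`, and for every `m` the function `w ↦ φ m (G ((φ (m+1)).symm w))` is holomorphic on `φ (m+1) '' Ω`. Let `w0 ∈ Φ '' Ω`, `z0 = Φ.symm w0 ∈ Ω`, `K` a closed ball around
`z0` contained in `Ω`. For `w` in a small closed disc `B` around `w0` and large `m` the points `(φ (m+1)).symm w` and `Φ.symm w` are in `K` (uniform convergence and continuity of `Φ.symm` at `w0`), so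
`w ∈ φ (m+1) '' Ω`, and `φ m (G ((φ (m+1)).symm w)) → Φ (G (Φ.symm w))` uniformly on `B`: `G` is uniformly continuous on `K`, `φ m → Φ` uniformly, `Φ` satisfies `Est` (uniform continuity). Uniform limits of holomorphic functions are holomorphic
(`TendstoLocallyUniformlyOn.differentiableOn`). -/

namespace H73.BR

open MeasureTheory Complex Filter Topology
open scoped ContDiff

theorem limB {R δ : ℝ} (hR : 1 ≤ R) (hδ : 0 ≤ δ) (hδ1 : 42 * δ ≤ 1) {φ : ℕ → ℂ ≃ₜ ℂ}
    {Φ : ℂ ≃ₜ ℂ} (h1 : TendstoUniformly (fun m z => φ m z) Φ atTop)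
    (h2 : TendstoUniformly (fun m w => (φ m).symm w) Φ.symm atTop) (h3 : Est (40 * R * δ) Φ)
    {Ω : Set ℂ} (hΩ : IsOpen Ω) {G : ℂ → ℂ} (hG : ContinuousOn G Ω)
    (hh : ∀ m, DifferentiableOn ℂ (fun w => φ m (G ((φ (m + 1)).symm w))) (φ (m + 1) '' Ω)) :
    DifferentiableOn ℂ (fun w => Φ (G (Φ.symm w))) (Φ '' Ω) := by
  rintro w0 ⟨z0, hz0, rfl⟩
  obtain ⟨ε, hε, hball⟩ := Metric.isOpen_iff.1 hΩ z0 hz0
  have hK : Metric.closedBall z0 (ε / 2) ⊆ Ω :=
    (Metric.closedBall_subset_ball (by linarith)).trans hball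
  set B : Set ℂ := Φ.symm ⁻¹' Metric.ball z0 (ε / 4) with hB
  have hBo : IsOpen B := Metric.isOpen_ball.preimage Φ.symm.continuous
  have hw0 : Φ z0 ∈ B := by
    rw [hB, Set.mem_preimage, Homeomorph.symm_apply_apply]
    exact Metric.mem_ball_self (by linarith)
  have h2' := Metric.tendstoUniformly_iff.1 h2
  have h1' := Metric.tendstoUniformly_iff.1 h1
  have hev : ∀ᶠ m in atTop, ∀ w ∈ B, (φ m).symm w ∈ Metric.closedBall z0 (ε / 2) := by
    filter_upwards [h2' (ε / 4) (by linarith)] with m hm w hw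
    have e1 := hm w
    have e2 : dist (Φ.symm w) z0 < ε / 4 := hw
    rw [Metric.mem_closedBall]
    rw [dist_comm] at e1
    have := dist_triangle ((φ m).symm w) (Φ.symm w) z0
    linarith
  have hev1 : ∀ᶠ m in atTop, ∀ w ∈ B, (φ (m + 1)).symm w ∈ Metric.closedBall z0 (ε / 2) :=
    (tendsto_add_atTop_nat 1).eventually hev
  have hdiff : ∀ᶠ m in atTop, DifferentiableOn ℂ (fun w => φ m (G ((φ (m + 1)).symm w))) B := by
    filter_upwards [hev1] with m hm
    refine (hh m).mono fun w hw => ?_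
    exact ⟨(φ (m + 1)).symm w, hK (hm w hw), Homeomorph.apply_symm_apply _ _⟩
  have hGK : ContinuousOn (fun z => Φ (G z)) (Metric.closedBall z0 (ε / 2)) :=
    Φ.continuous.comp_continuousOn (hG.mono hK)
  have hunif := Metric.uniformContinuousOn_iff.1
    ((isCompact_closedBall z0 (ε / 2)).uniformContinuousOn_of_continuous hGK)
  have hlim : TendstoUniformlyOn (fun m w => φ m (G ((φ (m + 1)).symm w)))
      (fun w => Φ (G (Φ.symm w))) atTop B := by
    rw [Metric.tendstoUniformlyOn_iff]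
    intro η hη
    obtain ⟨ρ, hρ, hρ'⟩ := hunif (η / 2) (by linarith)
    have hs : ∀ᶠ m in atTop, ∀ w, dist (Φ.symm w) ((φ (m + 1)).symm w) < ρ :=
      (tendsto_add_atTop_nat 1).eventually (h2' ρ hρ)
    filter_upwards [hev1, h1' (η / 2) (by linarith), hs] with m hm1 hm2 hm3 w hw
    have e1 := hm2 (G ((φ (m + 1)).symm w))
    have hu : Φ.symm w ∈ Metric.closedBall z0 (ε / 2) := by
      have e2 : dist (Φ.symm w) z0 < ε / 4 := hw
      rw [Metric.mem_closedBall]
      linarith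
    have e3 := hρ' (Φ.symm w) hu ((φ (m + 1)).symm w) (hm1 w hw) (hm3 w)
    have := dist_triangle (Φ (G (Φ.symm w))) (Φ (G ((φ (m + 1)).symm w)))
      (φ m (G ((φ (m + 1)).symm w)))
    linarith
  have hd : DifferentiableOn ℂ (fun w => Φ (G (Φ.symm w))) B :=
    hlim.tendstoLocallyUniformlyOn.differentiableOn hdiff hBo
  exact (hd.differentiableAt (hBo.mem_nhds hw0)).differentiableWithinAt

end H73.BR
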