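import Pool.Agent.H73.BR.MoB
import Pool.Agent.H73.BR.Hol

set_option autoImplicit false

/-! # [H73 BR NEU] The Neumann series

`nt_tf`: induction, `Tf.mul`, `bt_smooth`. `nt_l2`: `‖nt (j+1)‖ ≤ δ ‖Bt (nt j)‖`, `bt_int`. `nt_mo`: `‖μ Bt(nt j)‖ ≤ δ ‖Bt (nt j)‖` pointwise and `bt_mo`.
`neu`: let `Mo g A` (`mo_ex`). `‖Ct (nt μ g j) z‖ ≤ 4 (21 δ)^j A √R` (`ct_sup0`), `21 δ ≤ 1/2`: the series `∑ Ct (nt μ g j)` converges uniformly
(Weierstrass), `Ct (ns μ g J) = ∑ Ct (nt μ g j)` (`ct_add`). The limit `σ` is continuous and tends to `0` at infinity (uniform limit of such functions,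
`ct_inf`). `ns_rec`: `ns (J+1) = g + μ Bt (ns J)` (linearity of `Bt` on test functions). -/

namespace H73.BR

open MeasureTheory Complex Filter Topology
open scoped ContDiff

theorem bt_add' {R : ℝ} {f g : ℂ → ℂ} (hf : Tf R f) (hg : Tf R g) (z : ℂ) :
    Bt (fun w => f w + g w) z = Bt f z + Bt g z := by
  have h1 : Ct (fun w => f w + g w) = fun w => Ct f w + Ct g w := by
    funext w
    exact ct_add hf.cf hg.cf w
  rw [Bt, h1]
  exact dz_add ((ct_smooth hf).differentiable (by simp) z)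
    ((ct_smooth hg).differentiable (by simp) z)

theorem nt_tf {R : ℝ} {μ g : ℂ → ℂ} (hμ : Tf R μ) (hg : Tf R g) (j : ℕ) : Tf R (nt μ g j) := by
  induction j with
  | zero => exact hg
  | succ j ih => exact hμ.mul (bt_smooth ih)

theorem ns_succ (μ g : ℂ → ℂ) (J : ℕ) :
    ns μ g (J + 1) = fun z => ns μ g J z + nt μ g (J + 1) z := by
  funext z
  rw [ns, Finset.sum_range_succ]
  rfl

theorem ns_zero (μ g : ℂ → ℂ) : ns μ g 0 = g := by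
  funext z
  rw [ns, Finset.sum_range_one]
  rfl

theorem ns_tf {R : ℝ} {μ g : ℂ → ℂ} (hμ : Tf R μ) (hg : Tf R g) (J : ℕ) : Tf R (ns μ g J) := by
  induction J with
  | zero => rw [ns_zero]; exact hg
  | succ J ih => rw [ns_succ]; exact ih.add (nt_tf hμ hg _)

theorem nt_pt {δ : ℝ} {μ g : ℂ → ℂ} (hb : ∀ z, ‖μ z‖ ≤ δ) (j : ℕ) (z : ℂ) :
    ‖nt μ g (j + 1) z‖ ^ 2 ≤ δ ^ 2 * ‖Bt (nt μ g j) z‖ ^ 2 := by
  show ‖μ z * Bt (nt μ g j) z‖ ^ 2 ≤ _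
  rw [norm_mul, mul_pow]
  exact mul_le_mul_of_nonneg_right (pow_le_pow_left₀ (norm_nonneg _) (hb z) 2) (by positivity)

theorem nt_l2 {R δ : ℝ} {μ g : ℂ → ℂ} (hμ : Tf R μ) (hg : Tf R g) (hδ : 0 ≤ δ)
    (hb : ∀ z, ‖μ z‖ ≤ δ) (j : ℕ) :
    ∫ z, ‖nt μ g j z‖ ^ 2 ≤ (δ ^ 2) ^ j * ∫ z, ‖g z‖ ^ 2 := by
  induction j with
  | zero =>
    rw [pow_zero, one_mul]
    exact le_refl _
  | succ j ih =>
    have h1 := bt_int (nt_tf hμ hg j)
    calc ∫ z, ‖nt μ g (j + 1) z‖ ^ 2 ≤ ∫ z, δ ^ 2 * ‖Bt (nt μ g j) z‖ ^ 2 :=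
          integral_mono (nt_tf hμ hg (j + 1)).cf.int2 (h1.1.const_mul _)
            fun z => nt_pt hb j z
      _ = δ ^ 2 * ∫ z, ‖nt μ g j z‖ ^ 2 := by rw [integral_const_mul, h1.2]
      _ ≤ δ ^ 2 * ((δ ^ 2) ^ j * ∫ z, ‖g z‖ ^ 2) := mul_le_mul_of_nonneg_left ih (by positivity)
      _ = (δ ^ 2) ^ (j + 1) * ∫ z, ‖g z‖ ^ 2 := by ring

theorem nt_mo {R δ : ℝ} {μ g : ℂ → ℂ} (hμ : Tf R μ) (hg : Tf R g) (hδ : 0 ≤ δ)
    (hb : ∀ z, ‖μ z‖ ≤ δ) {A : ℝ} (hA : Mo g A) (j : ℕ) :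
    Mo (nt μ g j) ((21 * δ) ^ j * A) := by
  induction j with
  | zero =>
    rw [pow_zero, one_mul]
    exact hA
  | succ j ih =>
    have h0 := bt_int (nt_tf hμ hg j)
    have h1 := bt_mo (nt_tf hμ hg j) ih
    have hA0 := hA.1
    refine ⟨by positivity, fun x r hr => ?_⟩
    calc ∫ w in Metric.ball x r, ‖nt μ g (j + 1) w‖ ^ 2
        ≤ ∫ w in Metric.ball x r, δ ^ 2 * ‖Bt (nt μ g j) w‖ ^ 2 :=
          setIntegral_mono (nt_tf hμ hg (j + 1)).cf.int2.integrableOn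
            (h0.1.const_mul _).integrableOn fun z => nt_pt hb j z
      _ = δ ^ 2 * ∫ w in Metric.ball x r, ‖Bt (nt μ g j) w‖ ^ 2 := by rw [integral_const_mul]
      _ ≤ δ ^ 2 * ((21 * ((21 * δ) ^ j * A)) ^ 2 * r) :=
          mul_le_mul_of_nonneg_left (h1.2 x r hr) (by positivity)
      _ = ((21 * δ) ^ (j + 1) * A) ^ 2 * r := by ring

theorem ns_rec {R : ℝ} {μ g : ℂ → ℂ} (hμ : Tf R μ) (hg : Tf R g) (J : ℕ) (z : ℂ) :
    ns μ g J z + nt μ g (J + 1) z = g z + μ z * Bt (ns μ g J) z := by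
  induction J with
  | zero =>
    rw [ns_zero]
    rfl
  | succ J ih =>
    have h1 := bt_add' (ns_tf hμ hg J) (nt_tf hμ hg (J + 1)) z
    rw [ns_succ, h1]
    show ns μ g J z + nt μ g (J + 1) z + μ z * Bt (nt μ g (J + 1)) z = _
    rw [ih]
    ring

theorem ct_ns {R : ℝ} {μ g : ℂ → ℂ} (hμ : Tf R μ) (hg : Tf R g) (J : ℕ) (z : ℂ) :
    Ct (ns μ g J) z = ∑ j ∈ Finset.range (J + 1), Ct (nt μ g j) z := by
  induction J with
  | zero =>
    rw [ns_zero, Finset.sum_range_one]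
    rfl
  | succ J ih =>
    rw [Finset.sum_range_succ, ← ih, ns_succ]
    exact ct_add (ns_tf hμ hg J).cf (nt_tf hμ hg (J + 1)).cf z

theorem neu {R δ : ℝ} {μ g : ℂ → ℂ} (hR : 0 < R) (hμ : Tf R μ) (hg : Tf R g) (hδ : 0 ≤ δ)
    (hδ1 : 42 * δ ≤ 1) (hb : ∀ z, ‖μ z‖ ≤ δ) :
    ∃ σ : ℂ → ℂ, Continuous σ ∧ Tendsto σ (cocompact ℂ) (𝓝 0) ∧
      TendstoUniformly (fun J => Ct (ns μ g J)) σ atTop := by
  obtain ⟨A, hA⟩ := mo_ex hg.cf
  have hA0 := hA.1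
  have hbd : ∀ (j : ℕ) (z : ℂ), ‖Ct (nt μ g j) z‖ ≤ 4 * A * √R * (1 / 2) ^ j := by
    intro j z
    have h1 := ct_sup0 (nt_tf hμ hg j).cf hR (nt_mo hμ hg hδ hb hA j) z
    refine h1.trans ?_
    have h2 : (21 * δ) ^ j ≤ (1 / 2 : ℝ) ^ j := pow_le_pow_left₀ (by positivity) (by linarith) j
    have h3 : 0 ≤ 4 * A * √R := by positivity
    calc 4 * ((21 * δ) ^ j * A) * √R = 4 * A * √R * (21 * δ) ^ j := by ring
      _ ≤ 4 * A * √R * (1 / 2) ^ j := mul_le_mul_of_nonneg_left h2 h3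
  have hs : Summable fun j : ℕ => 4 * A * √R * (1 / 2 : ℝ) ^ j :=
    (summable_geometric_of_lt_one (by norm_num) (by norm_num)).mul_left _
  have hu := tendstoUniformly_tsum_nat hs hbd
  have hu1 : TendstoUniformly (fun J => Ct (ns μ g J)) (fun z => ∑' j, Ct (nt μ g j) z) atTop := by
    intro u hu2
    have h1 := (tendsto_add_atTop_nat 1).eventually (hu u hu2)
    filter_upwards [h1] with J hJ z
    rw [ct_ns hμ hg J z]
    exact hJ z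
  refine ⟨fun z => ∑' j, Ct (nt μ g j) z, ?_, ?_, hu1⟩
  · exact hu1.continuous (Filter.Frequently.of_forall fun J => ct_cont (ns_tf hμ hg J).cf)
  · have h1 : Tendsto (fun z => ∑' j, Ct (nt μ g j) z) (cocompact ℂ) (𝓝 (∑' _ : ℕ, (0 : ℂ))) :=
      tendsto_tsum_of_dominated_convergence hs (fun j => ct_inf (nt_tf hμ hg j).cf)
        (Filter.Eventually.of_forall fun z j => hbd j z)
    rw [tsum_zero] at h1
    exact h1

end H73.BR
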