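import Pool.Agent.H73.BR.Cal

set_option autoImplicit false

/-! # [H73 BR PRM] Primitives of continuous closed forms

Let `φ z = ∫ x in 0..z.re, P x + ∫ y in 0..z.im, Q (z.re + y I)` (real numbers as complex numbers). By the hypothesis for
rectangles, for all `z, z0`: `φ z - φ z0 = ∫ x in z0.re..z.re, P (x + z0.im I) + ∫ y in z0.im..z.im, Q (z.re + y I)` (intervals may be reversed; the
hypothesis is for all real `a b c d`). So `φ z - φ z0 - (P z0 * (z-z0).re + Q z0 * (z-z0).im)` is `o(‖z - z0‖)` by continuity of `P`, `Q` at `z0`: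
`HasFDerivAt φ (reCLM.smulRight (P z0) + imCLM.smulRight (Q z0)) z0`. The derivative is continuous in `z0`: `contDiff_one_iff_fderiv`. -/

namespace H73.BR

open MeasureTheory Complex Filter Topology
open scoped ContDiff

theorem prm {P Q : ℂ → ℂ} (hP : Continuous P) (hQ : Continuous Q)
    (h : ∀ a b c d : ℝ, (∫ x in a..b, P (x + c * Complex.I)) + (∫ y in c..d, Q (b + y * Complex.I)) -
      (∫ x in a..b, P (x + d * Complex.I)) - (∫ y in c..d, Q (a + y * Complex.I)) = 0) :
    ∃ φ : ℂ → ℂ, ContDiff ℝ 1 φ ∧ ∀ z, fderiv ℝ φ z 1 = P z ∧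
      fderiv ℝ φ z Complex.I = Q z := by
  obtain ⟨φ, hφ⟩ : ∃ φ : ℂ → ℂ, φ = fun z => (∫ x in (0 : ℝ)..z.re, P (x + ((0 : ℝ) : ℂ) * Complex.I)) +
      ∫ y in (0 : ℝ)..z.im, Q (z.re + y * Complex.I) := ⟨_, rfl⟩
  have iP : ∀ c a b : ℝ, IntervalIntegrable (fun x : ℝ => P (x + c * Complex.I)) volume a b := fun c a b =>
    (hP.comp (by fun_prop : Continuous fun x : ℝ => ((x : ℂ) + c * Complex.I))).intervalIntegrable _ _
  have iQ : ∀ c a b : ℝ, IntervalIntegrable (fun y : ℝ => Q (c + y * Complex.I)) volume a b := fun c a b =>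
    (hQ.comp (by fun_prop : Continuous fun y : ℝ => ((c : ℂ) + y * Complex.I))).intervalIntegrable _ _
  have key : ∀ z z0 : ℂ, φ z - φ z0 = (∫ x in z0.re..z.re, P (x + z0.im * Complex.I)) +
      ∫ y in z0.im..z.im, Q (z.re + y * Complex.I) := by
    intro z z0
    have h1 := h z0.re z.re 0 z0.im
    have h2 := intervalIntegral.integral_interval_sub_left (iP 0 0 z.re) (iP 0 0 z0.re)
    have h3 := intervalIntegral.integral_interval_sub_left (iQ z.re 0 z.im) (iQ z.re 0 z0.im)
    rw [hφ]
    show (∫ x in (0 : ℝ)..z.re, P (x + ((0 : ℝ) : ℂ) * Complex.I)) +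
      (∫ y in (0 : ℝ)..z.im, Q (z.re + y * Complex.I)) -
      ((∫ x in (0 : ℝ)..z0.re, P (x + ((0 : ℝ) : ℂ) * Complex.I)) +
      ∫ y in (0 : ℝ)..z0.im, Q (z0.re + y * Complex.I)) = _
    rw [← h3]
    rw [← h2] at h1
    linear_combination h1
  have hL : ∀ z0 : ℂ, HasFDerivAt φ (Complex.reCLM.smulRight (P z0) + Complex.imCLM.smulRight (Q z0)) z0 := by
    intro z0
    refine HasFDerivAt.of_isLittleO ?_
    rw [Asymptotics.isLittleO_iff]
    intro ε hε
    have hP1 : ∀ᶠ w in 𝓝 z0, ‖P w - P z0‖ < ε / 2 := by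
      have h1 : Tendsto (fun w => ‖P w - P z0‖) (𝓝 z0) (𝓝 0) := by
        have h2 := (hP.sub continuous_const).norm.tendsto (x := z0) (f := fun w => ‖P w - P z0‖)
        simpa using h2
      exact h1.eventually (gt_mem_nhds (by linarith))
    have hQ1 : ∀ᶠ w in 𝓝 z0, ‖Q w - Q z0‖ < ε / 2 := by
      have h1 : Tendsto (fun w => ‖Q w - Q z0‖) (𝓝 z0) (𝓝 0) := by
        have h2 := (hQ.sub continuous_const).norm.tendsto (x := z0) (f := fun w => ‖Q w - Q z0‖)
        simpa using h2
      exact h1.eventually (gt_mem_nhds (by linarith))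
    obtain ⟨δ, hδ, hδ2⟩ := Metric.eventually_nhds_iff.1 (hP1.and hQ1)
    have hball : ∀ᶠ z in 𝓝 z0, ‖z - z0‖ < δ / 2 := by
      have h1 := Metric.ball_mem_nhds z0 (show 0 < δ / 2 by linarith)
      filter_upwards [h1] with z hz
      rwa [← dist_eq_norm]
    filter_upwards [hball] with z hz
    have hre : |z.re - z0.re| ≤ ‖z - z0‖ := by
      rw [← Complex.sub_re]
      exact Complex.abs_re_le_norm _
    have him : |z.im - z0.im| ≤ ‖z - z0‖ := by
      rw [← Complex.sub_im]
      exact Complex.abs_im_le_norm _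
    have e1 : (∫ x in z0.re..z.re, P (x + z0.im * Complex.I)) =
        (∫ x in z0.re..z.re, (P (x + z0.im * Complex.I) - P z0)) + (z.re - z0.re) • P z0 := by
      rw [intervalIntegral.integral_sub (iP _ _ _) intervalIntegrable_const, intervalIntegral.integral_const]
      ring
    have e2 : (∫ y in z0.im..z.im, Q (z.re + y * Complex.I)) =
        (∫ y in z0.im..z.im, (Q (z.re + y * Complex.I) - Q z0)) + (z.im - z0.im) • Q z0 := by
      rw [intervalIntegral.integral_sub (iQ _ _ _) intervalIntegrable_const, intervalIntegral.integral_const]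
      ring
    have hz0 : z0 = (z0.re : ℂ) + z0.im * Complex.I := (Complex.re_add_im z0).symm
    have b1 : ‖∫ x in z0.re..z.re, (P (x + z0.im * Complex.I) - P z0)‖ ≤ ε / 2 * |z.re - z0.re| := by
      refine intervalIntegral.norm_integral_le_of_norm_le_const fun x hx => ?_
      have h1 : |x - z0.re| ≤ |z.re - z0.re| := by
        have h2 := Set.uIoc_subset_uIcc hx
        rw [Set.mem_uIcc] at h2
        rw [abs_le]
        rcases h2 with h2 | h2
        · rw [abs_of_nonneg (by linarith)]
          constructor <;> linarith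
        · rw [abs_of_nonpos (by linarith)]
          constructor <;> linarith
      refine (hδ2 ?_).1.le
      rw [dist_eq_norm]
      have h3 : (x : ℂ) + z0.im * Complex.I - z0 = ((x - z0.re : ℝ) : ℂ) := by
        push_cast
        linear_combination -hz0
      rw [h3, Complex.norm_real, Real.norm_eq_abs]
      linarith
    have b2 : ‖∫ y in z0.im..z.im, (Q (z.re + y * Complex.I) - Q z0)‖ ≤ ε / 2 * |z.im - z0.im| := by
      refine intervalIntegral.norm_integral_le_of_norm_le_const fun y hy => ?_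
      have h1 : |y - z0.im| ≤ |z.im - z0.im| := by
        have h2 := Set.uIoc_subset_uIcc hy
        rw [Set.mem_uIcc] at h2
        rw [abs_le]
        rcases h2 with h2 | h2
        · rw [abs_of_nonneg (by linarith)]
          constructor <;> linarith
        · rw [abs_of_nonpos (by linarith)]
          constructor <;> linarith
      refine (hδ2 ?_).2.le
      rw [dist_eq_norm]
      have h3 : (z.re : ℂ) + y * Complex.I - z0 = ((z.re - z0.re : ℝ) : ℂ) + ((y - z0.im : ℝ) : ℂ) * Complex.I := by
        push_cast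
        linear_combination -hz0
      rw [h3]
      refine lt_of_le_of_lt (norm_add_le _ _) ?_
      rw [norm_mul, Complex.norm_I, mul_one, Complex.norm_real, Complex.norm_real, Real.norm_eq_abs,
        Real.norm_eq_abs]
      linarith
    have e3 : φ z - φ z0 - (Complex.reCLM.smulRight (P z0) + Complex.imCLM.smulRight (Q z0)) (z - z0) =
        (∫ x in z0.re..z.re, (P (x + z0.im * Complex.I) - P z0)) +
        ∫ y in z0.im..z.im, (Q (z.re + y * Complex.I) - Q z0) := by
      rw [key z z0, e1, e2]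
      show _ - ((z - z0).re • P z0 + (z - z0).im • Q z0) = _
      rw [Complex.sub_re, Complex.sub_im]
      ring
    rw [e3]
    refine (norm_add_le _ _).trans ?_
    nlinarith
  have hfd : ∀ z, fderiv ℝ φ z = Complex.reCLM.smulRight (P z) + Complex.imCLM.smulRight (Q z) :=
    fun z => (hL z).fderiv
  refine ⟨φ, ?_, fun z => ?_⟩
  · rw [contDiff_one_iff_fderiv]
    refine ⟨fun z => (hL z).differentiableAt, ?_⟩
    have h1 : fderiv ℝ φ = fun z => (ContinuousLinearMap.smulRightL ℝ ℂ ℂ Complex.reCLM) (P z) +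
        (ContinuousLinearMap.smulRightL ℝ ℂ ℂ Complex.imCLM) (Q z) := funext hfd
    rw [h1]
    exact ((ContinuousLinearMap.smulRightL ℝ ℂ ℂ Complex.reCLM).continuous.comp hP).add
      ((ContinuousLinearMap.smulRightL ℝ ℂ ℂ Complex.imCLM).continuous.comp hQ)
  · rw [hfd z]
    constructor
    · show (1 : ℂ).re • P z + (1 : ℂ).im • Q z = P z
      simp
    · show (Complex.I).re • P z + (Complex.I).im • Q z = Q z
      simp

end H73.BR
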