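import Pool.Agent.H73.BR.Mol
import Pool.Agent.H73.BR.BtO

set_option autoImplicit false

/-! # [H73 BR REP] Representation of functions whose `db` has compact support

`D` is of class `C^1`, `db D = 0` for `R ≤ ‖z‖` (so `Cf R (db D)`). `D_j = Ml j D` is smooth, `db D_j = Ml j (db D) =: f_j` is a
test function (`ml_tf`). `E_j = D_j - Ct f_j` is smooth with `db E_j = 0` (`db_ct`), so entire (`hol_of_db`).
`rep0`: `E_j` is bounded (`ml_loc`; `Ct f_j` is continuous and tends to `0`), so constant (Liouville,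
`Differentiable.apply_eq_apply_of_bounded`). `rep1`: the entire function `E_j' = dz D_j - Bt f_j` tends to `0` at infinity (`ml_dz`,
`ml_loc`, `bt_inf`: file `BtO`), is bounded, so constant, so `0`; hence `E_j` is constant.
In both cases `D_j z - D_j w = Ct f_j z - Ct f_j w`; let `j → ∞` (`ml_lim`, `ct_lim`: `f_j` are uniformly bounded by `ml_loc` and vanish for
`R + 1 ≤ ‖z‖`).
`rep_bt` (used later): `dz D_j = Bt f_j` in the situation of `rep0`. -/

namespace H73.BR

open MeasureTheory Complex Filter Topology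
open scoped ContDiff

/-- a continuous function which tends to zero at infinity is bounded -/
theorem rep_bdd {g : ℂ → ℂ} (hg : Continuous g) (h0 : Tendsto g (cocompact ℂ) (𝓝 0)) :
    ∃ C, ∀ z, ‖g z‖ ≤ C := by
  have h1 : ∀ᶠ z in cocompact ℂ, ‖g z‖ < 1 := by
    have h2 := h0.norm
    rw [norm_zero] at h2
    exact h2.eventually_lt_const one_pos
  obtain ⟨K, hK, hKs⟩ := mem_cocompact.1 h1
  obtain ⟨C, hC⟩ := hK.exists_bound_of_continuousOn hg.continuousOn
  refine ⟨max C 1, fun z => ?_⟩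
  by_cases hz : z ∈ K
  · exact (hC z hz).trans (le_max_left _ _)
  · have h3 : ‖g z‖ < 1 := hKs hz
    exact h3.le.trans (le_max_right _ _)

/-- passage to the limit -/
theorem rep_lim {D : ℂ → ℂ} (hD : ContDiff ℝ 1 D) {R : ℝ} (hs : ∀ z, R ≤ ‖z‖ → db D z = 0)
    (h : ∀ j z w, Ml j D z - Ml j D w = Ct (Ml j (db D)) z - Ct (Ml j (db D)) w) :
    ∃ c : ℂ, ∀ z, D z = c + Ct (db D) z := by
  have cf : Cf R (db D) := ⟨cont_db hD, hs⟩
  obtain ⟨M, hM⟩ := cf.cont.bounded_above_of_compact_support cf.cpt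
  have hl : ∀ z, Tendsto (fun j => Ct (Ml j (db D)) z) atTop (𝓝 (Ct (db D) z)) := fun z =>
    ct_lim (fun j => (ml_tf cf j).cf) (fun j z => ml_loc cf.cont j fun w _ => hM w)
      (fun z => ml_lim cf.cont z) z
  refine ⟨D 0 - Ct (db D) 0, fun z => ?_⟩
  have h1 : Tendsto (fun j => Ml j D z - Ml j D 0) atTop (𝓝 (D z - D 0)) :=
    (ml_lim hD.continuous z).sub (ml_lim hD.continuous 0)
  have h2 : Tendsto (fun j => Ml j D z - Ml j D 0) atTop (𝓝 (Ct (db D) z - Ct (db D) 0)) := by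
    refine ((hl z).sub (hl 0)).congr fun j => ?_
    exact (h j z 0).symm
  have h3 := tendsto_nhds_unique h1 h2
  linear_combination h3

/-- the entire function `E_j` -/
theorem rep_e {D : ℂ → ℂ} (hD : ContDiff ℝ 1 D) {R : ℝ} (hs : ∀ z, R ≤ ‖z‖ → db D z = 0)
    (j : ℕ) (z : ℂ) :
    HasDerivAt (fun w => Ml j D w - Ct (Ml j (db D)) w)
      (Ml j (dz D) z - Bt (Ml j (db D)) z) z := by
  have cf : Cf R (db D) := ⟨cont_db hD, hs⟩
  have tf := ml_tf cf j
  have d1 : DifferentiableAt ℝ (Ml j D) z :=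
    (ml_smooth hD.continuous j).differentiable (by simp) z
  have d2 : DifferentiableAt ℝ (Ct (Ml j (db D))) z := (ct_smooth tf).differentiable (by simp) z
  have e1 : db (fun w => Ml j D w - Ct (Ml j (db D)) w) z = 0 := by
    rw [db_sub d1 d2, ml_db hD, db_ct tf, sub_self]
  have e2 : dz (fun w => Ml j D w - Ct (Ml j (db D)) w) z =
      Ml j (dz D) z - Bt (Ml j (db D)) z := by
    rw [dz_sub d1 d2, ml_dz hD]
    rfl
  rw [← e2]
  exact hol_of_db (d1.sub d2) e1

theorem rep_j {D : ℂ → ℂ} (hD : ContDiff ℝ 1 D) {R : ℝ} (hs : ∀ z, R ≤ ‖z‖ → db D z = 0)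
    {M : ℝ} (hM : ∀ z, ‖D z‖ ≤ M) (j : ℕ) :
    (∀ z w, Ml j D z - Ml j D w = Ct (Ml j (db D)) z - Ct (Ml j (db D)) w) ∧
      ∀ z, Ml j (dz D) z = Bt (Ml j (db D)) z := by
  have cf : Cf R (db D) := ⟨cont_db hD, hs⟩
  have tf := ml_tf cf j
  have hE : ∀ z, HasDerivAt (fun w => Ml j D w - Ct (Ml j (db D)) w)
      (Ml j (dz D) z - Bt (Ml j (db D)) z) z := rep_e hD hs j
  obtain ⟨C, hC⟩ := rep_bdd (ct_cont tf.cf) (ct_inf tf.cf)
  have hb : Bornology.IsBounded (Set.range fun w => Ml j D w - Ct (Ml j (db D)) w) := by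
    refine isBounded_iff_forall_norm_le.2 ⟨M + C, ?_⟩
    rintro _ ⟨w, rfl⟩
    refine (norm_sub_le _ _).trans (add_le_add ?_ (hC w))
    exact ml_loc hD.continuous j fun w _ => hM w
  have hd : Differentiable ℂ fun w => Ml j D w - Ct (Ml j (db D)) w :=
    fun z => (hE z).differentiableAt
  have hc : ∀ z w, Ml j D z - Ct (Ml j (db D)) z = Ml j D w - Ct (Ml j (db D)) w := fun z w =>
    hd.apply_eq_apply_of_bounded hb z w
  refine ⟨fun z w => ?_, fun z => ?_⟩
  · linear_combination hc z w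
  · have h1 : (fun w => Ml j D w - Ct (Ml j (db D)) w) =
        fun _ => Ml j D 0 - Ct (Ml j (db D)) 0 := funext fun w => hc w 0
    have h2 := hE z
    rw [h1] at h2
    have h3 := h2.unique (hasDerivAt_const z _)
    exact sub_eq_zero.1 h3

theorem rep0 {D : ℂ → ℂ} (hD : ContDiff ℝ 1 D) {R : ℝ} (hs : ∀ z, R ≤ ‖z‖ → db D z = 0)
    {M : ℝ} (hM : ∀ z, ‖D z‖ ≤ M) : ∃ c : ℂ, ∀ z, D z = c + Ct (db D) z := by
  exact rep_lim hD hs fun j => (rep_j hD hs hM j).1

theorem rep1 {D : ℂ → ℂ} (hD : ContDiff ℝ 1 D) {R : ℝ} (hs : ∀ z, R ≤ ‖z‖ → db D z = 0)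
    (h0 : Tendsto (dz D) (cocompact ℂ) (𝓝 0)) : ∃ c : ℂ, ∀ z, D z = c + Ct (db D) z := by
  refine rep_lim hD hs fun j => ?_
  have cf : Cf R (db D) := ⟨cont_db hD, hs⟩
  have tf := ml_tf cf j
  have hE : ∀ z, HasDerivAt (fun w => Ml j D w - Ct (Ml j (db D)) w)
      (Ml j (dz D) z - Bt (Ml j (db D)) z) z := rep_e hD hs j
  have hd : Differentiable ℂ fun w => Ml j D w - Ct (Ml j (db D)) w :=
    fun z => (hE z).differentiableAt
  have hder : deriv (fun w => Ml j D w - Ct (Ml j (db D)) w) =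
      fun z => Ml j (dz D) z - Bt (Ml j (db D)) z := funext fun z => (hE z).deriv
  have hd' : Differentiable ℂ fun z => Ml j (dz D) z - Bt (Ml j (db D)) z := by
    rw [← hder]
    exact hd.deriv
  have hm : Tendsto (Ml j (dz D)) (cocompact ℂ) (𝓝 0) := by
    rw [Metric.tendsto_nhds]
    intro ε hε
    have h1 : ∀ᶠ z in cocompact ℂ, ‖dz D z‖ < ε / 2 := by
      have h2 := h0.norm
      rw [norm_zero] at h2
      exact h2.eventually_lt_const (by positivity)
    obtain ⟨K, hK, hKs⟩ := mem_cocompact.1 h1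
    obtain ⟨r, hr⟩ := hK.isBounded.exists_norm_le
    have h3 : ∀ᶠ z in cocompact ℂ, r + 1 < ‖z‖ :=
      (tendsto_norm_cocompact_atTop (E := ℂ)).eventually_gt_atTop (r + 1)
    filter_upwards [h3] with z hz
    rw [dist_zero_right]
    have h4 : ‖Ml j (dz D) z‖ ≤ ε / 2 := by
      refine ml_loc (cont_dz hD) j fun w hw => ?_
      have h5 : w ∉ K := fun hwK => by
        have h6 := hr w hwK
        have h7 : ‖z‖ ≤ ‖w‖ + ‖w - z‖ := by
          have h8 := norm_sub_le w (w - z)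
          rw [sub_sub_cancel] at h8
          exact h8
        linarith
      have h9 : ‖dz D w‖ < ε / 2 := hKs h5
      exact h9.le
    linarith
  have hlim : Tendsto (fun z => Ml j (dz D) z - Bt (Ml j (db D)) z) (cocompact ℂ) (𝓝 0) := by
    have h1 := hm.sub (bt_inf tf)
    rw [sub_zero] at h1
    exact h1
  obtain ⟨C, hC⟩ := rep_bdd hd'.continuous hlim
  have hb : Bornology.IsBounded (Set.range fun z => Ml j (dz D) z - Bt (Ml j (db D)) z) := by
    refine isBounded_iff_forall_norm_le.2 ⟨C, ?_⟩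
    rintro _ ⟨w, rfl⟩
    exact hC w
  have hz : ∀ z, Ml j (dz D) z - Bt (Ml j (db D)) z = 0 := by
    intro z
    have h1 : (fun z => Ml j (dz D) z - Bt (Ml j (db D)) z) =
        fun _ => Ml j (dz D) z - Bt (Ml j (db D)) z :=
      funext fun w => hd'.apply_eq_apply_of_bounded hb w z
    rw [h1] at hlim
    exact tendsto_nhds_unique tendsto_const_nhds hlim
  intro z w
  have h1 := is_const_of_deriv_eq_zero hd (fun z => by rw [hder]; exact hz z) z w
  linear_combination h1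

end H73.BR
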