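import Pool.Agent.H73.BR.Clo
import Pool.Agent.H73.BR.Prm
import Pool.Agent.H73.BR.Rep

set_option autoImplicit false

/-! # [H73 BR SLV] Solution of class `C^1`

`neu` with `g = dz μ` gives `σ`; `clo` and `prm` with `P = exp σ (1 + μ)`, `Q = I exp σ (1 - μ)` give `φ0` of class `C^1` with `dz φ0 = exp σ`,
`db φ0 = μ exp σ` (`of_fd`). `D = φ0 - id`: `db D = μ exp σ` vanishes for `R ≤ ‖z‖`, `dz D = exp σ - 1 → 0` at infinity. `rep1`: `D = c + Ct (db D)`. Put
`φ = φ0 - c`: `φ = id + Ct (db φ)`, `φ - id → 0` (`ct_inf`). -/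

namespace H73.BR

open MeasureTheory Complex Filter Topology
open scoped ContDiff

theorem slv {R δ : ℝ} {μ : ℂ → ℂ} (hR : 0 < R) (hμ : Tf R μ) (hδ : 0 ≤ δ) (hδ1 : 42 * δ ≤ 1)
    (hb : ∀ z, ‖μ z‖ ≤ δ) :
    ∃ φ : ℂ → ℂ, ContDiff ℝ 1 φ ∧ (∀ z, db φ z = μ z * dz φ z) ∧ (∀ z, dz φ z ≠ 0) ∧
      (∀ z, φ z = z + Ct (db φ) z) ∧ Tendsto (fun z => φ z - z) (cocompact ℂ) (𝓝 0) := by
  obtain ⟨σ, hσ, hσ0, hu⟩ := neu hR hμ hμ.dz hδ hδ1 hb
  have hμc : Continuous μ := hμ.smooth.continuous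
  have hE : Continuous fun z => Complex.exp (σ z) := Complex.continuous_exp.comp hσ
  obtain ⟨φ0, h1, h2⟩ := prm (P := fun z => Complex.exp (σ z) * (1 + μ z))
    (Q := fun z => Complex.I * (Complex.exp (σ z) * (1 - μ z)))
    (hE.mul (continuous_const.add hμc))
    (continuous_const.mul (hE.mul (continuous_const.sub hμc)))
    (fun a b c d => clo hR hμ hδ hδ1 hb hσ hσ0 hu a b c d)
  have h3 : ∀ z, dz φ0 z = Complex.exp (σ z) ∧ db φ0 z = μ z * Complex.exp (σ z) := fun z =>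
    of_fd (by rw [(h2 z).1]; ring) (by rw [(h2 z).2]; ring)
  have hd0 : ∀ z, DifferentiableAt ℝ φ0 z := fun z => (h1.differentiable one_ne_zero) z
  have hdi : ∀ z, DifferentiableAt ℝ (fun w : ℂ => w) z := fun z => differentiableAt_id
  have hdbD : ∀ z, db (fun w => φ0 w - w) z = μ z * Complex.exp (σ z) := fun z => by
    rw [db_sub (hd0 z) (hdi z), db_id, (h3 z).2, sub_zero]
  have hdzD : ∀ z, dz (fun w => φ0 w - w) z = Complex.exp (σ z) - 1 := fun z => by
    rw [dz_sub (hd0 z) (hdi z), dz_id, (h3 z).1]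
  have hsupp : ∀ z, R ≤ ‖z‖ → db (fun w => φ0 w - w) z = 0 := fun z hz => by
    rw [hdbD, hμ.supp z hz, zero_mul]
  have hlim : Tendsto (dz fun w => φ0 w - w) (cocompact ℂ) (𝓝 0) := by
    have e : (dz fun w => φ0 w - w) = fun z => Complex.exp (σ z) - 1 := funext hdzD
    rw [e]
    have h := ((Complex.continuous_exp.tendsto 0).comp hσ0).sub_const 1
    simpa using h
  obtain ⟨c, hc⟩ := rep1 (h1.sub contDiff_id) hsupp hlim
  have hdbφ : ∀ z, db (fun w => φ0 w - c) z = μ z * Complex.exp (σ z) := fun z => by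
    rw [db_sub (hd0 z) (differentiableAt_const c), db_const, (h3 z).2, sub_zero]
  have hdzφ : ∀ z, dz (fun w => φ0 w - c) z = Complex.exp (σ z) := fun z => by
    rw [dz_sub (hd0 z) (differentiableAt_const c), dz_const, (h3 z).1, sub_zero]
  have e2 : db (fun w => φ0 w - c) = db (fun w => φ0 w - w) :=
    funext fun z => by rw [hdbφ, hdbD]
  have hrep : ∀ z, φ0 z - c = z + Ct (db fun w => φ0 w - c) z := fun z => by
    rw [e2]
    have := hc z
    simp only [id_eq] at this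
    linear_combination this
  have hcf : Cf R (db fun w => φ0 w - c) := by
    refine ⟨?_, fun z hz => by rw [hdbφ, hμ.supp z hz, zero_mul]⟩
    rw [show db (fun w => φ0 w - c) = fun z => μ z * Complex.exp (σ z) from funext hdbφ]
    exact hμc.mul hE
  refine ⟨fun z => φ0 z - c, h1.sub contDiff_const, fun z => ?_, fun z => ?_, hrep, ?_⟩
  · rw [hdbφ, hdzφ]
  · rw [hdzφ]
    exact Complex.exp_ne_zero _
  · have e3 : (fun z => φ0 z - c - z) = Ct (db fun w => φ0 w - c) := funext fun z => by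
      rw [hrep z]; ring
    show Tendsto (fun z => φ0 z - c - z) (cocompact ℂ) (𝓝 0)
    rw [e3]
    exact ct_inf hcf

end H73.BR
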